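import Pool.Agent.Lib.MP_db02ae_co.Defs

open Finset
open scoped Classical

namespace Pool.Agent.Lib.MP_db02ae_co

variable {V : Type} [Fintype V] {C : Type} [Fintype C] {q : ℕ}

/-! ### patterns of blocks -/

theorem base_blocks (hC : Fintype.card C = 5 * q) :
    ∃ β : C → Fin 5, ∀ i, (univ.filter fun c => β c = i).card = q := by
  have hcard : Fintype.card C = Fintype.card (Fin 5 × Fin q) := by
    rw [hC, Fintype.card_prod, Fintype.card_fin, Fintype.card_fin]
  let e : C ≃ Fin 5 × Fin q := Fintype.equivOfCardEq hcard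
  refine ⟨fun c => (e c).1, fun i => ?_⟩
  have : (univ.filter fun c => (e c).1 = i).card = (univ : Finset (Fin q)).card := by
    refine Finset.card_bij' (fun c _ => (e c).2) (fun k _ => e.symm (i, k)) ?_ ?_ ?_ ?_
    · intro c _; exact Finset.mem_univ _
    · intro k _
      rw [Finset.mem_filter]
      exact ⟨Finset.mem_univ _, by rw [e.apply_symm_apply]⟩
    · intro c hc
      rw [Finset.mem_filter] at hc
      rw [← hc.2, Prod.mk.eta, e.symm_apply_apply]
    · intro k _
      rw [e.apply_symm_apply]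
  rw [this, Finset.card_univ, Fintype.card_fin]

/-- colours of the blocks in `P` -/
noncomputable def blk (β : C → Fin 5) (P : Finset (Fin 5)) : Finset C :=
  univ.filter fun c => β c ∈ P

theorem mem_blk {β : C → Fin 5} {P : Finset (Fin 5)} {c : C} : c ∈ blk β P ↔ β c ∈ P := by
  simp [blk]

theorem blk_card {β : C → Fin 5} (hβ : ∀ i, (univ.filter fun c => β c = i).card = q)
    (P : Finset (Fin 5)) : (blk β P).card = P.card * q := by
  rw [Finset.card_eq_sum_card_fiberwise (f := β) (t := P) (fun c hc => by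
    have := mem_blk.1 (Finset.mem_coe.1 hc)
    exact this)]
  rw [Finset.sum_congr rfl (g := fun _ => q), Finset.sum_const, smul_eq_mul]
  intro i hi
  rw [← hβ i]
  congr 1
  ext c
  simp only [Finset.mem_filter, mem_blk, Finset.mem_univ, true_and]
  constructor
  · exact fun h => h.2
  · exact fun h => ⟨h ▸ hi, h⟩

/-- adjacency coming from a list of edges -/
def adjB {n : ℕ} (E : List (Fin n × Fin n)) (i j : Fin n) : Bool :=
  decide ((i, j) ∈ E ∨ (j, i) ∈ E)

/-- missing blocks -/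
def missB {n : ℕ} (E : List (Fin n × Fin n)) (P : Fin n → Finset (Fin 5)) (i : Fin n) :
    Finset (Fin 5) :=
  univ.filter fun c => c ∉ P i ∧ ∀ j, adjB E i j = true → c ∉ P j

omit [Fintype V] in
theorem base_adj {n : ℕ} {G : SimpleGraph V} {ι : Fin n → V} (hι : Function.Injective ι)
    {E : List (Fin n × Fin n)}
    (hE : ∀ e, e ∈ G.edgeSet ↔ ∃ p ∈ E, e = s(ι p.1, ι p.2)) (i : Fin n) (w : V) :
    G.Adj (ι i) w ↔ ∃ j, adjB E i j = true ∧ w = ι j := by
  rw [← SimpleGraph.mem_edgeSet, hE]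
  constructor
  · rintro ⟨⟨a, b⟩, hp, h⟩
    rw [Sym2.eq_iff] at h
    rcases h with ⟨h1, h2⟩ | ⟨h1, h2⟩
    · refine ⟨b, ?_, h2⟩
      rw [hι h1]
      exact decide_eq_true (Or.inl hp)
    · refine ⟨a, ?_, h2⟩
      rw [hι h1]
      exact decide_eq_true (Or.inr hp)
  · rintro ⟨j, hj, rfl⟩
    rcases of_decide_eq_true hj with h | h
    · exact ⟨_, h, rfl⟩
    · exact ⟨_, h, Sym2.eq_swap⟩

theorem base_nb_card {n : ℕ} {G : SimpleGraph V} {ι : Fin n → V} (hι : Function.Injective ι)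
    {E : List (Fin n × Fin n)}
    (hE : ∀ e, e ∈ G.edgeSet ↔ ∃ p ∈ E, e = s(ι p.1, ι p.2)) (i : Fin n) :
    (nb G (ι i)).card = (univ.filter fun j => adjB E i j = true).card := by
  symm
  refine Finset.card_bij (fun j _ => ι j) ?_ ?_ ?_
  · intro j hj
    rw [Finset.mem_filter] at hj
    rw [mem_nb, base_adj hι hE]
    exact ⟨j, hj.2, rfl⟩
  · intro a _ b _ h
    exact hι h
  · intro w hw
    rw [mem_nb, base_adj hι hE] at hw
    obtain ⟨j, hj, rfl⟩ := hw
    exact ⟨j, Finset.mem_filter.2 ⟨Finset.mem_univ _, hj⟩, rfl⟩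

theorem base_pattern (hC : Fintype.card C = 5 * q) {n : ℕ} {G : SimpleGraph V} {ι : Fin n → V}
    (hι : Function.Injective ι) {E : List (Fin n × Fin n)}
    (hE : ∀ e, e ∈ G.edgeSet ↔ ∃ p ∈ E, e = s(ι p.1, ι p.2))
    (P : Fin n → Finset (Fin 5)) (hP : ∀ i, (P i).card = 2) :
    ∃ φ : V → Finset C, IsCol q φ ∧
      (∀ i, (miss G φ (ι i)).card = (missB E P i).card * q) ∧
      (∀ i, missB E P i = ∅ → miss G φ (ι i) = ∅) ∧
      (∀ i j, (φ (ι i) ∩ φ (ι j)).card = (P i ∩ P j).card * q) ∧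
      (∀ i j, Disjoint (P i) (P j) → Disjoint (φ (ι i)) (φ (ι j))) := by
  obtain ⟨β, hβ⟩ := base_blocks hC
  let φ : V → Finset C := fun v => if h : ∃ i, ι i = v then blk β (P h.choose) else blk β {0, 1}
  have hφ : ∀ i, φ (ι i) = blk β (P i) := by
    intro i
    have h : ∃ j, ι j = ι i := ⟨i, rfl⟩
    have h1 : φ (ι i) = blk β (P h.choose) := dif_pos h
    rw [h1, hι h.choose_spec]
  have hmiss : ∀ i, miss G φ (ι i) = blk β (missB E P i) := by
    intro i
    ext c
    rw [mem_miss, mem_blk, missB, Finset.mem_filter, hφ, mem_blk]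
    refine and_congr Iff.rfl ?_ |>.trans ⟨fun h => ⟨Finset.mem_univ _, h⟩, fun h => h.2⟩
    constructor
    · intro h j hj hc
      refine h (ι j) ((base_adj hι hE i _).2 ⟨j, hj, rfl⟩) ?_
      rw [hφ, mem_blk]
      exact hc
    · intro h w hw hc
      obtain ⟨j, hj, rfl⟩ := (base_adj hι hE i w).1 hw
      rw [hφ, mem_blk] at hc
      exact h j hj hc
  refine ⟨φ, ?_, ?_, ?_, ?_, ?_⟩
  · intro v
    by_cases h : ∃ i, ι i = v
    · have h1 : φ v = blk β (P h.choose) := dif_pos h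
      rw [h1, blk_card hβ, hP]
    · have h1 : φ v = blk β {0, 1} := dif_neg h
      rw [h1, blk_card hβ]
      rfl
  · intro i
    rw [hmiss, blk_card hβ]
  · intro i h
    rw [hmiss, h]
    ext c
    simp [mem_blk]
  · intro i j
    rw [hφ, hφ, ← blk_card hβ]
    congr 1
    ext c
    simp only [Finset.mem_inter, mem_blk]
  · intro i j h
    rw [hφ, hφ, Finset.disjoint_left]
    intro c h1 h2
    exact Finset.disjoint_left.1 h (mem_blk.1 h1) (mem_blk.1 h2)

theorem base_good (hC : Fintype.card C = 5 * q) {n : ℕ} {G : SimpleGraph V} {S : Finset V}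
    {ι : Fin n → V} (hι : Function.Injective ι) (hS : ∀ v ∈ S, ∃ i, ι i = v)
    {E : List (Fin n × Fin n)} (hE : ∀ e, e ∈ G.edgeSet ↔ ∃ p ∈ E, e = s(ι p.1, ι p.2))
    (P : Fin n → Finset (Fin 5)) (hP : ∀ i, (P i).card = 2) (hm : ∀ i, missB E P i = ∅) :
    Good q C G S := by
  obtain ⟨φ, h1, -, h3, -, -⟩ := base_pattern hC hι hE P hP
  refine ⟨φ, h1, fun v hv => ?_⟩
  obtain ⟨i, rfl⟩ := hS v hv
  exact h3 i (hm i)

theorem base_root (hC : Fintype.card C = 5 * q) {n : ℕ} {G : SimpleGraph V} {S : Finset V}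
    {ι : Fin n → V} (hι : Function.Injective ι) (hS : ∀ v ∈ S, ∃ i, ι i = v)
    {E : List (Fin n × Fin n)} (hE : ∀ e, e ∈ G.edgeSet ↔ ∃ p ∈ E, e = s(ι p.1, ι p.2))
    (P : Fin n → Fin n → Finset (Fin 5)) (hP : ∀ r i, (P r i).card = 2)
    (hm : ∀ r i, i ≠ r → missB E (P r) i = ∅) (hr : ∀ r, (missB E (P r) r).card ≤ 2) :
    ∀ r ∈ S, RootAt q (2 * q) C G S r := by
  intro r hrS
  obtain ⟨r, rfl⟩ := hS r hrS
  obtain ⟨φ, h1, h2, h3, -, -⟩ := base_pattern hC hι hE (P r) (hP r)
  refine ⟨φ, h1, fun v hv hne => ?_, ?_⟩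
  · obtain ⟨i, rfl⟩ := hS v hv
    exact h3 i (hm r i fun h => hne (by rw [h]))
  · rw [h2]
    exact Nat.mul_le_mul_right _ (hr r)

theorem base_semi (hC : Fintype.card C = 5 * q) {n : ℕ} {G : SimpleGraph V} {S : Finset V}
    {ι : Fin n → V} (hι : Function.Injective ι) (hS : ∀ v ∈ S, ∃ i, ι i = v)
    {E : List (Fin n × Fin n)} (hE : ∀ e, e ∈ G.edgeSet ↔ ∃ p ∈ E, e = s(ι p.1, ι p.2))
    (P : Fin n → Fin n → Finset (Fin 5)) (hP : ∀ r i, (P r i).card = 2)
    (hm : ∀ r i, i ≠ r → missB E (P r) i = ∅) (hr : ∀ r, (missB E (P r) r).card ≤ 1)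
    (hi : ∀ r j, adjB E r j = true → (P r r ∩ P r j).card ≤ 1) :
    ∀ r ∈ S, SemiAt q C G S r := by
  intro r hrS
  obtain ⟨r, rfl⟩ := hS r hrS
  obtain ⟨φ, h1, h2, h3, h4, -⟩ := base_pattern hC hι hE (P r) (hP r)
  refine ⟨φ, h1, fun v hv hne => ?_, ?_, fun z hz => ?_⟩
  · obtain ⟨i, rfl⟩ := hS v hv
    exact h3 i (hm r i fun h => hne (by rw [h]))
  · rw [h2]
    calc _ ≤ 1 * q := Nat.mul_le_mul_right _ (hr r)
      _ = q := one_mul _
  · obtain ⟨j, hj, rfl⟩ := (base_adj hι hE r z).1 hz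
    rw [h4]
    calc _ ≤ 1 * q := Nat.mul_le_mul_right _ (hi r j hj)
      _ = q := one_mul _

theorem base_tw (hC : Fintype.card C = 5 * q) {n : ℕ} {G : SimpleGraph V} {S : Finset V}
    {ι : Fin n → V} (hι : Function.Injective ι) (hS : ∀ v ∈ S, ∃ i, ι i = v)
    {E : List (Fin n × Fin n)} (hE : ∀ e, e ∈ G.edgeSet ↔ ∃ p ∈ E, e = s(ι p.1, ι p.2))
    (P : Fin n → Fin n → Finset (Fin 5)) (hP : ∀ r i, (P r i).card = 2)
    (hm : ∀ r i, i ≠ r → missB E (P r) i = ∅)
    (hd : ∀ r, (univ.filter fun j => adjB E r j = true).card = 2 →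
      ∀ i j, i ≠ j → adjB E r i = true → adjB E r j = true → Disjoint (P r i) (P r j)) :
    ∀ w ∈ S, (nb G w).card = 2 → TwAt q C G S w := by
  intro r hrS hcard
  obtain ⟨r, rfl⟩ := hS r hrS
  rw [base_nb_card hι hE] at hcard
  obtain ⟨φ, h1, h2, h3, h4, h5⟩ := base_pattern hC hι hE (P r) (hP r)
  refine ⟨φ, h1, fun v hv hne => ?_, fun a b hab ha hb => ?_⟩
  · obtain ⟨i, rfl⟩ := hS v hv
    exact h3 i (hm r i fun h => hne (by rw [h]))
  · obtain ⟨i, hi, rfl⟩ := (base_adj hι hE r a).1 ha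
    obtain ⟨j, hj, rfl⟩ := (base_adj hι hE r b).1 hb
    exact h5 i j (hd r hcard i j (fun h => hab (by rw [h])) hi hj)

/-! ### the small graphs -/

theorem base_C3 (hC : Fintype.card C = 5 * q) (G : SimpleGraph V) (S : Finset V) (a b c : V)
    (hn : [a, b, c].Nodup) (hS : S = {a, b, c})
    (hE : G.edgeSet = {s(a, b), s(b, c), s(c, a)}) : Good q C G S := by
  refine base_good hC (n := 3) (ι := fun i => [a, b, c].get i) (List.nodup_iff_injective_get.1 hn) ?_
    (E := [(0, 1), (1, 2), (2, 0)]) ?_ ![{0, 1}, {2, 3}, {4, 0}] (by decide) (by decide)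
  · subst hS
    intro v hv
    simp only [Finset.mem_insert, Finset.mem_singleton] at hv
    rcases hv with rfl | rfl | rfl
    exacts [⟨0, rfl⟩, ⟨1, rfl⟩, ⟨2, rfl⟩]
  · intro e
    rw [hE]
    simp

theorem base_C5 (hC : Fintype.card C = 5 * q) (G : SimpleGraph V) (S : Finset V)
    (a b c d e : V) (hn : [a, b, c, d, e].Nodup) (hS : S = {a, b, c, d, e})
    (hE : G.edgeSet = {s(a, b), s(b, c), s(c, d), s(d, e), s(e, a)}) : Good q C G S := by
  refine base_good hC (n := 5) (ι := fun i => [a, b, c, d, e].get i)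
    (List.nodup_iff_injective_get.1 hn) ?_
    (E := [(0, 1), (1, 2), (2, 3), (3, 4), (4, 0)]) ?_
    ![{0, 3}, {1, 4}, {2, 0}, {3, 1}, {4, 2}] (by decide) (by decide)
  · subst hS
    intro v hv
    simp only [Finset.mem_insert, Finset.mem_singleton] at hv
    rcases hv with rfl | rfl | rfl | rfl | rfl
    exacts [⟨0, rfl⟩, ⟨1, rfl⟩, ⟨2, rfl⟩, ⟨3, rfl⟩, ⟨4, rfl⟩]
  · intro e
    rw [hE]
    simp

/-- pattern (blocks 1..5) for the root `a`: a=12, b=13, c=45, d=23 -/
theorem base_C4 (hC : Fintype.card C = 5 * q) (G : SimpleGraph V) (S : Finset V)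
    (a b c d : V) (hn : [a, b, c, d].Nodup) (hS : S = {a, b, c, d})
    (hE : G.edgeSet = {s(a, b), s(b, c), s(c, d), s(d, a)}) :
    ∀ r ∈ S, RootAt q (2 * q) C G S r := by
  refine base_root hC (n := 4) (ι := fun i => [a, b, c, d].get i)
    (List.nodup_iff_injective_get.1 hn) ?_
    (E := [(0, 1), (1, 2), (2, 3), (3, 0)]) ?_
    (fun r i => (![{0, 1}, {0, 2}, {3, 4}, {1, 2}] : Fin 4 → Finset (Fin 5)) (i - r))
    (by decide) (by decide) (by decide)
  · subst hS
    intro v hv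
    simp only [Finset.mem_insert, Finset.mem_singleton] at hv
    rcases hv with rfl | rfl | rfl | rfl
    exacts [⟨0, rfl⟩, ⟨1, rfl⟩, ⟨2, rfl⟩, ⟨3, rfl⟩]
  · intro e
    rw [hE]
    simp

/-- hub `u` as root: u=12, v=45, x=13, y=23, z=34;
vertex `x` as root: u=13, v=24, x=12, y=35, z=45 -/
theorem base_K23 (hC : Fintype.card C = 5 * q) (G : SimpleGraph V) (S : Finset V)
    (u v x y z : V) (hn : [u, v, x, y, z].Nodup) (hS : S = {u, v, x, y, z})
    (hE : G.edgeSet = {s(u, x), s(u, y), s(u, z), s(v, x), s(v, y), s(v, z)}) :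
    (∀ r ∈ S, SemiAt q C G S r) ∧ ∀ w ∈ S, (nb G w).card = 2 → TwAt q C G S w := by
  have hι := List.nodup_iff_injective_get.1 hn
  have hS' : ∀ w ∈ S, ∃ i, (fun i => [u, v, x, y, z].get i) i = w := by
    subst hS
    intro v hv
    simp only [Finset.mem_insert, Finset.mem_singleton] at hv
    rcases hv with rfl | rfl | rfl | rfl | rfl
    exacts [⟨0, rfl⟩, ⟨1, rfl⟩, ⟨2, rfl⟩, ⟨3, rfl⟩, ⟨4, rfl⟩]
  have hE' : ∀ e, e ∈ G.edgeSet ↔ ∃ p ∈ ([(0, 2), (0, 3), (0, 4), (1, 2), (1, 3), (1, 4)] :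
      List (Fin 5 × Fin 5)), e = s([u, v, x, y, z].get p.1, [u, v, x, y, z].get p.2) := by
    intro e
    rw [hE]
    simp
  let P : Fin 5 → Fin 5 → Finset (Fin 5) :=
    ![![{0, 1}, {3, 4}, {0, 2}, {1, 2}, {2, 3}],
      ![{3, 4}, {0, 1}, {0, 2}, {1, 2}, {2, 3}],
      ![{0, 2}, {1, 3}, {0, 1}, {2, 4}, {3, 4}],
      ![{0, 2}, {1, 3}, {2, 4}, {0, 1}, {3, 4}],
      ![{0, 2}, {1, 3}, {2, 4}, {3, 4}, {0, 1}]]
  exact ⟨base_semi (n := 5) hC hι hS' hE' P (by decide) (by decide) (by decide) (by decide),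
    base_tw (n := 5) hC hι hS' hE' P (by decide) (by decide) (by decide)⟩

/-- root `a`: a=12, b=13, c=45, d=23, e=14, f=35, g=24 (both for SemiAt and TwAt) -/
theorem base_C7 (hC : Fintype.card C = 5 * q) (G : SimpleGraph V) (S : Finset V)
    (a b c d e f g : V) (hn : [a, b, c, d, e, f, g].Nodup) (hS : S = {a, b, c, d, e, f, g})
    (hE : G.edgeSet = {s(a, b), s(b, c), s(c, d), s(d, e), s(e, f), s(f, g), s(g, a)}) :
    (∀ r ∈ S, SemiAt q C G S r) ∧ ∀ w ∈ S, (nb G w).card = 2 → TwAt q C G S w := by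
  have hι := List.nodup_iff_injective_get.1 hn
  have hS' : ∀ w ∈ S, ∃ i, (fun i => [a, b, c, d, e, f, g].get i) i = w := by
    subst hS
    intro v hv
    simp only [Finset.mem_insert, Finset.mem_singleton] at hv
    rcases hv with rfl | rfl | rfl | rfl | rfl | rfl | rfl
    exacts [⟨0, rfl⟩, ⟨1, rfl⟩, ⟨2, rfl⟩, ⟨3, rfl⟩, ⟨4, rfl⟩, ⟨5, rfl⟩, ⟨6, rfl⟩]
  have hE' : ∀ e', e' ∈ G.edgeSet ↔
      ∃ p ∈ ([(0, 1), (1, 2), (2, 3), (3, 4), (4, 5), (5, 6), (6, 0)] :
      List (Fin 7 × Fin 7)),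
      e' = s([a, b, c, d, e, f, g].get p.1, [a, b, c, d, e, f, g].get p.2) := by
    intro e
    rw [hE]
    simp
  let P : Fin 7 → Fin 7 → Finset (Fin 5) := fun r i =>
    (![{0, 1}, {0, 2}, {3, 4}, {1, 2}, {0, 3}, {2, 4}, {1, 3}] : Fin 7 → Finset (Fin 5)) (i - r)
  exact ⟨base_semi (n := 7) hC hι hS' hE' P (by decide) (by decide) (by decide) (by decide),
    base_tw (n := 7) hC hι hS' hE' P (by decide) (by decide) (by decide)⟩

/-- two 4-cycles u b c d and u e f g sharing the vertex u;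
root u: u=12, b=13, c=45, d=23, e=14, f=35, g=24;
root b: u=13, b=12, c=24, d=35, e=14, f=25, g=34;
root c: u=45, b=13, c=12, d=34, e=24, f=13, g=25 -/
theorem base_C44 (hC : Fintype.card C = 5 * q) (G : SimpleGraph V) (S : Finset V)
    (u b c d e f g : V) (hn : [u, b, c, d, e, f, g].Nodup) (hS : S = {u, b, c, d, e, f, g})
    (hE : G.edgeSet = {s(u, b), s(b, c), s(c, d), s(d, u), s(u, e), s(e, f), s(f, g), s(g, u)}) :
    ∀ r ∈ S, SemiAt q C G S r := by
  have hι := List.nodup_iff_injective_get.1 hn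
  have hS' : ∀ w ∈ S, ∃ i, (fun i => [u, b, c, d, e, f, g].get i) i = w := by
    subst hS
    intro v hv
    simp only [Finset.mem_insert, Finset.mem_singleton] at hv
    rcases hv with rfl | rfl | rfl | rfl | rfl | rfl | rfl
    exacts [⟨0, rfl⟩, ⟨1, rfl⟩, ⟨2, rfl⟩, ⟨3, rfl⟩, ⟨4, rfl⟩, ⟨5, rfl⟩, ⟨6, rfl⟩]
  have hE' : ∀ e', e' ∈ G.edgeSet ↔
      ∃ p ∈ ([(0, 1), (1, 2), (2, 3), (3, 0), (0, 4), (4, 5), (5, 6), (6, 0)] :
      List (Fin 7 × Fin 7)),
      e' = s([u, b, c, d, e, f, g].get p.1, [u, b, c, d, e, f, g].get p.2) := by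
    intro e
    rw [hE]
    simp
  let P : Fin 7 → Fin 7 → Finset (Fin 5) :=
    ![![{0, 1}, {0, 2}, {3, 4}, {1, 2}, {0, 3}, {2, 4}, {1, 3}],
      ![{0, 2}, {0, 1}, {1, 3}, {2, 4}, {0, 3}, {1, 4}, {2, 3}],
      ![{3, 4}, {0, 2}, {0, 1}, {2, 3}, {1, 3}, {0, 2}, {1, 4}],
      ![{0, 2}, {2, 4}, {1, 3}, {0, 1}, {0, 3}, {1, 4}, {2, 3}],
      ![{0, 2}, {0, 3}, {1, 4}, {2, 3}, {0, 1}, {1, 3}, {2, 4}],
      ![{3, 4}, {1, 3}, {0, 2}, {1, 4}, {0, 2}, {0, 1}, {2, 3}],
      ![{0, 2}, {0, 3}, {1, 4}, {2, 3}, {2, 4}, {1, 3}, {0, 1}]]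
  exact base_semi (n := 7) hC hι hS' hE' P (by decide) (by decide) (by decide) (by decide)

/-- a member of the class with four vertices is a 4-cycle; `u` can be prescribed -/
theorem four_cycle_of_card {G : SimpleGraph V} {S : Finset V} (hI : InI G S) (h4 : S.card = 4)
    {u : V} (hu : u ∈ S) : ∃ b c d : V, [u, b, c, d].Nodup ∧ S = {u, b, c, d} ∧
      G.edgeSet = {s(u, b), s(b, c), s(c, d), s(d, u)} := by
  obtain ⟨hG, hH⟩ := hI
  have hsub : ∀ v, nb G v ⊆ S.erase v := by
    intro v w hw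
    rw [mem_nb] at hw
    exact Finset.mem_erase.2 ⟨hw.ne', hG.supp _ _ hw.symm⟩
  have herase : (S.erase u).card = 3 := by rw [Finset.card_erase_of_mem hu, h4]
  have hd2 : 2 ≤ (nb G u).card := hG.deg u hu
  have hd3 : (nb G u).card ≤ 3 := by
    have := Finset.card_le_card (hsub u)
    omega
  -- three neighbours of one vertex
  have h3 : ∀ v x y z, G.Adj v x → G.Adj v y → G.Adj v z → x ≠ y → x ≠ z → y ≠ z →
      3 ≤ (nb G v).card := by
    intro v x y z h1 h2 h3 hxy hxz hyz
    have : ({x, y, z} : Finset V) ⊆ nb G v := by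
      intro w hw
      simp only [Finset.mem_insert, Finset.mem_singleton] at hw
      rw [mem_nb]
      rcases hw with rfl | rfl | rfl
      exacts [h1, h2, h3]
    have hc : ({x, y, z} : Finset V).card = 3 := Finset.card_eq_three.2
      ⟨x, y, z, hxy, hxz, hyz, rfl⟩
    have := Finset.card_le_card this
    omega
  -- at most one neighbour
  have h1 : ∀ v ∈ S, ∀ w, ¬ (∀ t, G.Adj v t → t = w) := by
    intro v hv w h
    have : nb G v ⊆ {w} := by
      intro t ht
      rw [mem_nb] at ht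
      exact Finset.mem_singleton.2 (h t ht)
    have h5 := Finset.card_le_card this
    rw [Finset.card_singleton] at h5
    have := hG.deg v hv
    omega
  rcases Nat.lt_or_ge (nb G u).card 3 with hlt | hge
  · -- degree 2
    have hc2 : (nb G u).card = 2 := by omega
    obtain ⟨b, d, hbd, hbdeq⟩ := Finset.card_eq_two.1 hc2
    have hub : G.Adj u b := by rw [← mem_nb, hbdeq]; simp
    have hud : G.Adj u d := by rw [← mem_nb, hbdeq]; simp
    have hbS : b ∈ S := hG.supp _ _ hub.symm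
    have hdS : d ∈ S := hG.supp _ _ hud.symm
    have hex : ∃ c ∈ S.erase u, c ∉ nb G u := by
      by_contra hcon
      push Not at hcon
      have := Finset.card_le_card (show S.erase u ⊆ nb G u from hcon)
      omega
    obtain ⟨c, hcS, hcn⟩ := hex
    rw [Finset.mem_erase] at hcS
    obtain ⟨hcu, hcS⟩ := hcS
    have hcn' : ¬ G.Adj u c := fun h => hcn (mem_nb.2 h)
    have hcb : c ≠ b := by rintro rfl; exact hcn' hub
    have hcd : c ≠ d := by rintro rfl; exact hcn' hud
    have hbu : b ≠ u := hub.ne'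
    have hdu : d ≠ u := hud.ne'
    have hS : S = {u, b, c, d} := by
      symm
      refine Finset.eq_of_subset_of_card_le ?_ ?_
      · intro w hw
        simp only [Finset.mem_insert, Finset.mem_singleton] at hw
        rcases hw with rfl | rfl | rfl | rfl <;> assumption
      · rw [h4]
        have : ({u, b, c, d} : Finset V).card = 4 := by
          rw [Finset.card_insert_of_notMem, Finset.card_insert_of_notMem,
            Finset.card_insert_of_notMem, Finset.card_singleton]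
          · simp [hcd]
          · simp [hcb.symm, hbd]
          · simp [hbu.symm, hcu.symm, hdu.symm]
        omega
    have hmem : ∀ w, w ∈ S → w = u ∨ w = b ∨ w = c ∨ w = d := by
      intro w hw
      rw [hS] at hw
      simpa using hw
    have hcb' : G.Adj c b := by
      by_contra hcon
      refine h1 c hcS d fun t ht => ?_
      rcases hmem t (hG.supp _ _ ht.symm) with rfl | rfl | rfl | rfl
      · exact absurd ht.symm hcn'
      · exact absurd ht hcon
      · exact absurd ht (G.loopless.irrefl _)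
      · rfl
    have hcd' : G.Adj c d := by
      by_contra hcon
      refine h1 c hcS b fun t ht => ?_
      rcases hmem t (hG.supp _ _ ht.symm) with rfl | rfl | rfl | rfl
      · exact absurd ht.symm hcn'
      · rfl
      · exact absurd ht (G.loopless.irrefl _)
      · exact absurd ht hcon
    have hbd' : ¬ G.Adj b d := by
      intro h
      have e1 := h3 b u c d hub.symm hcb'.symm h hcu.symm hdu.symm hcd
      have e2 := h3 d u c b hud.symm hcd'.symm h.symm hcu.symm hbu.symm hcb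
      rcases hH b d h with h | h <;> omega
    refine ⟨b, c, d, ?_, hS, ?_⟩
    · simp only [List.nodup_cons, List.mem_cons, List.not_mem_nil, or_false, not_or,
        List.nodup_nil, and_true, not_false_eq_true]
      exact ⟨⟨hbu.symm, hcu.symm, hdu.symm⟩, ⟨hcb.symm, hbd⟩, hcd⟩
    · ext e
      induction e using Sym2.ind with
      | _ x y =>
      rw [SimpleGraph.mem_edgeSet]
      simp only [Set.mem_insert_iff, Set.mem_singleton_iff, Sym2.eq_iff]
      constructor
      · intro h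
        rcases hmem x (hG.supp _ _ h) with rfl | rfl | rfl | rfl <;>
        rcases hmem y (hG.supp _ _ h.symm) with rfl | rfl | rfl | rfl
        · exact absurd h (G.loopless.irrefl _)
        · simp
        · exact absurd h hcn'
        · simp
        · simp
        · exact absurd h (G.loopless.irrefl _)
        · simp
        · exact absurd h hbd'
        · exact absurd h.symm hcn'
        · simp
        · exact absurd h (G.loopless.irrefl _)
        · simp
        · simp
        · exact absurd h.symm hbd'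
        · simp
        · exact absurd h (G.loopless.irrefl _)
      · rintro ((⟨rfl, rfl⟩ | ⟨rfl, rfl⟩) | (⟨rfl, rfl⟩ | ⟨rfl, rfl⟩) |
          (⟨rfl, rfl⟩ | ⟨rfl, rfl⟩) | (⟨rfl, rfl⟩ | ⟨rfl, rfl⟩))
        exacts [hub, hub.symm, hcb'.symm, hcb', hcd', hcd'.symm, hud.symm, hud]
  · -- degree 3: impossible
    exfalso
    have hc3 : (nb G u).card = 3 := by omega
    have heq : nb G u = S.erase u :=
      Finset.eq_of_subset_of_card_le (hsub u) (by omega)
    obtain ⟨x, y, z, hxy, hxz, hyz, hxyz⟩ := Finset.card_eq_three.1 hc3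
    have hux : G.Adj u x := by rw [← mem_nb, hxyz]; simp
    have huy : G.Adj u y := by rw [← mem_nb, hxyz]; simp
    have huz : G.Adj u z := by rw [← mem_nb, hxyz]; simp
    have hmem : ∀ w, w ∈ S → w = u ∨ w = x ∨ w = y ∨ w = z := by
      intro w hw
      by_cases hwu : w = u
      · exact Or.inl hwu
      · have : w ∈ nb G u := by rw [heq]; exact Finset.mem_erase.2 ⟨hwu, hw⟩
        rw [hxyz] at this
        simp only [Finset.mem_insert, Finset.mem_singleton] at this
        exact Or.inr this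
    have hle : ∀ t, G.Adj u t → (nb G t).card ≤ 2 := by
      intro t ht
      rcases hH u t ht with h | h
      · omega
      · exact h
    -- exactly one of the two edges at each of x, y, z
    have two : ∀ a b c : V, G.Adj u a → G.Adj u b → G.Adj u c → a ≠ b → a ≠ c → b ≠ c →
        (∀ w, w ∈ S → w = u ∨ w = a ∨ w = b ∨ w = c) →
        (G.Adj a b ↔ ¬ G.Adj a c) := by
      intro a b c ha hb hc hab hac hbc hm
      constructor
      · intro h h'
        have e1 := h3 a u b c ha.symm h h' hb.ne hc.ne hbc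
        have e2 := hle a ha
        omega
      · intro h
        by_contra h'
        refine h1 a (hG.supp _ _ ha.symm) u fun t ht => ?_
        rcases hm t (hG.supp _ _ ht.symm) with rfl | rfl | rfl | rfl
        · rfl
        · exact absurd ht (G.loopless.irrefl _)
        · exact absurd ht h'
        · exact absurd ht h
    have t1 := two x y z hux huy huz hxy hxz hyz hmem
    have t2 := two y x z huy hux huz hxy.symm hyz hxz fun w hw => by
      rcases hmem w hw with h | h | h | h <;> simp [h]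
    have t3 := two z x y huz hux huy hxz.symm hyz.symm hxy fun w hw => by
      rcases hmem w hw with h | h | h | h <;> simp [h]
    rw [G.adj_comm y x] at t2
    rw [G.adj_comm z x, G.adj_comm z y] at t3
    tauto

end Pool.Agent.Lib.MP_db02ae_co
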