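import Pool.Agent.Lib.MP_db02ae_co.FDDefs

namespace Pool.Agent.Lib.MP_db02ae_co

/-- blow-up of the colours -/
theorem DomCol.blowup {V : Type} {G : SimpleGraph V} {a b : ℕ} (h : DomCol G a b) (m : ℕ) :
    DomCol G (m * a) (m * b) := by
  classical
  obtain ⟨φ, hφ, hdom⟩ := h
  refine ⟨fun v => ((Finset.univ : Finset (Fin m)) ×ˢ φ v).map finProdFinEquiv.toEmbedding,
    fun v => ?_, fun c v => ?_⟩
  · rw [Finset.card_map, Finset.card_product, hφ, Finset.card_univ, Fintype.card_fin]
  · obtain ⟨⟨i, c0⟩, rfl⟩ := finProdFinEquiv.surjective c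
    simp only [Finset.mem_map_equiv, Equiv.symm_apply_apply, Finset.mem_product,
      Finset.mem_univ, true_and]
    exact hdom c0 v

/-- transport along an isomorphism -/
theorem DomCol.of_iso {V W : Type} {G : SimpleGraph V} {H : SimpleGraph W} (e : G ≃g H)
    {a b : ℕ} (h : DomCol G a b) : DomCol H a b := by
  obtain ⟨φ, hφ, hdom⟩ := h
  refine ⟨fun w => φ (e.symm w), fun w => hφ _, fun c w => ?_⟩
  rcases hdom c (e.symm w) with h | ⟨u, hu, hc⟩
  · exact Or.inl h
  · refine Or.inr ⟨e u, ?_, by simpa using hc⟩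
    have := e.map_adj_iff.mpr hu
    simpa using this

/-- dominating sets -/
def fdDom {V : Type} (G : SimpleGraph V) (D : Finset V) : Prop :=
  ∀ v, v ∈ D ∨ ∃ w, G.Adj v w ∧ w ∈ D

/-- number of sets -/
def fdA {V : Type} [Fintype V] [DecidableEq V] (x : Finset V → ℕ) : ℕ := ∑ D, x D

/-- number of sets containing `v` -/
def fdB {V : Type} [Fintype V] [DecidableEq V] (x : Finset V → ℕ) (v : V) : ℕ :=
  ∑ D, if v ∈ D then x D else 0

/-- the semigroup of colourings -/
def fdS {V : Type} [Fintype V] [DecidableEq V] (G : SimpleGraph V) (b : ℕ)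
    (x : Finset V → ℕ) : Prop :=
  (∀ D, x D ≠ 0 → fdDom G D) ∧ ∀ v, fdB x v = b

theorem fd_of_domCol {V : Type} [Fintype V] [DecidableEq V] {G : SimpleGraph V} {a b : ℕ}
    (h : DomCol G a b) : ∃ x : Finset V → ℕ, fdS G b x ∧ fdA x = a := by
  classical
  obtain ⟨φ, hφ, hdom⟩ := h
  set cl : Fin a → Finset V := fun c => Finset.univ.filter (fun v => c ∈ φ v) with hcl
  refine ⟨fun D => (Finset.univ.filter (fun c => cl c = D)).card, ⟨?_, ?_⟩, ?_⟩
  · intro D hD v
    obtain ⟨c, hc⟩ := Finset.card_pos.mp (Nat.pos_of_ne_zero hD)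
    rw [Finset.mem_filter] at hc
    obtain ⟨_, rfl⟩ := hc
    simp only [hcl, Finset.mem_filter, Finset.mem_univ, true_and]
    exact hdom c v
  · intro v
    unfold fdB
    have h1 : ∀ D : Finset V, (if v ∈ D then (Finset.univ.filter (fun c => cl c = D)).card else 0)
        = ∑ c : Fin a, if cl c = D then (if v ∈ D then 1 else 0) else 0 := by
      intro D
      rw [Finset.card_filter]
      split_ifs with hv
      · rfl
      · simp
    simp_rw [h1]
    rw [Finset.sum_comm]
    have h2 : ∀ c : Fin a, (∑ D : Finset V, if cl c = D then (if v ∈ D then 1 else 0) else 0)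
        = if c ∈ φ v then 1 else 0 := by
      intro c
      rw [Finset.sum_ite_eq]
      simp [hcl]
    simp_rw [h2]
    rw [← Finset.card_filter, ← hφ v]
    congr 1
    ext c
    simp
  · unfold fdA
    rw [← Finset.card_eq_sum_card_fiberwise (s := Finset.univ) (t := Finset.univ)
      (fun c _ => Finset.mem_coe.mpr (Finset.mem_univ _))]
    simp

theorem fd_to_domCol {V : Type} [Fintype V] [DecidableEq V] {G : SimpleGraph V} {b : ℕ}
    {x : Finset V → ℕ} (h : fdS G b x) : DomCol G (fdA x) b := by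
  classical
  have hcard : Fintype.card (Σ D : Finset V, Fin (x D)) = fdA x := by
    simp [fdA]
  let e := Fintype.equivFinOfCardEq hcard
  refine ⟨fun v => Finset.univ.filter (fun c => v ∈ (e.symm c).1), fun v => ?_, fun c v => ?_⟩
  · rw [← h.2 v]
    have h1 : (Finset.univ.filter (fun c : Fin (fdA x) => v ∈ (e.symm c).1)).card
        = (Finset.univ.filter (fun s : Σ D : Finset V, Fin (x D) => v ∈ s.1)).card := by
      refine Finset.card_bij (fun c _ => e.symm c) ?_ ?_ ?_
      · intro c hc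
        simpa using hc
      · intro c _ c' _ hcc
        exact e.symm.injective hcc
      · intro s hs
        exact ⟨e s, by simpa using hs, by simp⟩
    rw [h1, Finset.card_filter, Fintype.sum_sigma]
    unfold fdB
    refine Finset.sum_congr rfl fun D _ => ?_
    by_cases hv : v ∈ D
    · simp [hv]
    · simp [hv]
  · have hD : x (e.symm c).1 ≠ 0 := by
      have := (e.symm c).2.pos
      omega
    rcases h.1 _ hD v with h1 | ⟨w, hw, h1⟩
    · exact Or.inl (by simpa using h1)
    · exact Or.inr ⟨w, hw, by simpa using h1⟩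

/-- restricting the number of colours -/
theorem DomCol.shrink {V : Type} {G : SimpleGraph V} {a a' b : ℕ} (h : DomCol G a b)
    (ha : a' ≤ a) (hb : b ≤ a') : DomCol G a' b := by
  classical
  obtain ⟨φ, hφ, hdom⟩ := h
  have hex : ∀ v, ∃ t : Finset (Fin a'), Finset.univ.filter (fun c => Fin.castLE ha c ∈ φ v) ⊆ t ∧
      t.card = b := by
    intro v
    obtain ⟨t, ht1, -, ht2⟩ := Finset.exists_subsuperset_card_eq
      (s := Finset.univ.filter (fun c : Fin a' => Fin.castLE ha c ∈ φ v)) (t := Finset.univ)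
      (n := b) (Finset.subset_univ _) (by
        rw [← hφ v]
        refine Finset.card_le_card_of_injOn (Fin.castLE ha) ?_ ?_
        · intro c hc
          simpa using hc
        · intro c _ c' _ hcc
          exact Fin.castLE_injective ha hcc) (by simpa using hb)
    exact ⟨t, ht1, ht2⟩
  choose ψ hψ1 hψ2 using hex
  refine ⟨ψ, hψ2, fun c v => ?_⟩
  rcases hdom (Fin.castLE ha c) v with h1 | ⟨w, hw, h1⟩
  · exact Or.inl (hψ1 v (by simpa using h1))
  · exact Or.inr ⟨w, hw, hψ1 w (by simpa using h1)⟩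

theorem fdA_add {V : Type} [Fintype V] [DecidableEq V] (x y : Finset V → ℕ) :
    fdA (x + y) = fdA x + fdA y := by
  simp [fdA, Finset.sum_add_distrib]

theorem fdB_add {V : Type} [Fintype V] [DecidableEq V] (x y : Finset V → ℕ) (v : V) :
    fdB (x + y) v = fdB x v + fdB y v := by
  unfold fdB
  rw [← Finset.sum_add_distrib]
  refine Finset.sum_congr rfl fun D _ => ?_
  split_ifs <;> simp

theorem fdA_zero {V : Type} [Fintype V] [DecidableEq V] : fdA (0 : Finset V → ℕ) = 0 := by
  simp [fdA]

/-- an additive inequality valid for minimal colourings is valid for all -/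
theorem fd_bound {V : Type} [Fintype V] [Nonempty V] [DecidableEq V] (G : SimpleGraph V)
    (hno : ∀ x b, fdS G b x → x ≠ 0 → 2 * fdA x < 5 * b) :
    ∃ B : ℕ, 0 < B ∧ ∀ x b, fdS G b x → 2 * B * fdA x + b ≤ 5 * B * b := by
  classical
  obtain ⟨v0⟩ := ‹Nonempty V›
  set S : Set (Finset V → ℕ) := {x | (∃ b, fdS G b x) ∧ x ≠ 0} with hS
  set M : Set (Finset V → ℕ) := {x | Minimal (· ∈ S) x} with hM
  have hanti : IsAntichain (· ≤ ·) M := by
    intro x hx y hy hxy hle
    exact hxy (le_antisymm hle (hy.2 hx.1 hle))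
  have hfin : M.Finite := WellQuasiOrderedLE.finite_of_isAntichain hanti
  obtain ⟨B, hB⟩ : ∃ B : ℕ, ∀ m ∈ M, fdB m v0 ≤ B := by
    obtain ⟨B, hB⟩ := (hfin.image (fun m => fdB m v0)).bddAbove
    exact ⟨B, fun m hm => hB ⟨m, hm, rfl⟩⟩
  refine ⟨B + 1, Nat.succ_pos _, ?_⟩
  have key : ∀ n : ℕ, ∀ x b, fdA x = n → fdS G b x → 2 * (B + 1) * fdA x + b ≤ 5 * (B + 1) * b := by
    intro n
    induction n using Nat.strong_induction_on with
    | _ n ih =>
      intro x b hn hx
      by_cases hx0 : x = 0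
      · subst hx0
        have hb : b = 0 := by
          rw [← hx.2 v0]
          simp [fdB]
        subst hb
        simp [fdA_zero]
      · have hxS : x ∈ S := ⟨⟨b, hx⟩, hx0⟩
        obtain ⟨m, hmx, hm⟩ : ∃ m, m ≤ x ∧ Minimal (· ∈ S) m := by
          obtain ⟨m, hm1, hm2⟩ := exists_minimal_le_of_wellFoundedLT (· ∈ S) x hxS
          exact ⟨m, hm1, hm2⟩
        obtain ⟨⟨bm, hmS⟩, hm0⟩ := hm.1
        have hadd : x = m + (x - m) := by
          funext D
          have hD : m D ≤ x D := hmx D
          simp only [Pi.add_apply, Pi.sub_apply]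
          omega
        have hbB : ∀ v, fdB (x - m) v = b - bm := by
          intro v
          have h1 := hx.2 v
          rw [hadd, fdB_add, hmS.2 v] at h1
          omega
        have hble : bm ≤ b := by
          have h1 := hx.2 v0
          rw [hadd, fdB_add, hmS.2 v0] at h1
          omega
        have hsub : fdS G (b - bm) (x - m) := by
          refine ⟨fun D hD => hx.1 D ?_, hbB⟩
          intro h0
          apply hD
          simp [h0]
        have hA : fdA x = fdA m + fdA (x - m) := by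
          conv_lhs => rw [hadd]
          exact fdA_add _ _
        have hmpos : 0 < fdA m := by
          obtain ⟨D, hD⟩ := Function.ne_iff.mp hm0
          have : m D ≤ fdA m := Finset.single_le_sum (fun _ _ => Nat.zero_le _) (Finset.mem_univ D)
          have h2 : m D ≠ 0 := hD
          omega
        have h1 := ih (fdA (x - m)) (by omega) (x - m) (b - bm) rfl hsub
        have h2 := hno m bm hmS hm0
        have h3 : bm ≤ B := by
          rw [← hmS.2 v0]
          exact hB m hm
        have h4 : 2 * (B + 1) * fdA m + bm ≤ 5 * (B + 1) * bm := by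
          have : 2 * fdA m + 1 ≤ 5 * bm := h2
          have h5 : (B + 1) * (2 * fdA m + 1) ≤ (B + 1) * (5 * bm) := Nat.mul_le_mul_left _ this
          have h6 : bm ≤ B + 1 := by omega
          calc 2 * (B + 1) * fdA m + bm ≤ 2 * (B + 1) * fdA m + (B + 1) := by omega
            _ = (B + 1) * (2 * fdA m + 1) := by ring
            _ ≤ (B + 1) * (5 * bm) := h5
            _ = 5 * (B + 1) * bm := by ring
        have h7 : b = bm + (b - bm) := by omega
        calc 2 * (B + 1) * fdA x + b
            = (2 * (B + 1) * fdA m + bm) + (2 * (B + 1) * fdA (x - m) + (b - bm)) := by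
              rw [hA]
              rw [Nat.mul_add]
              omega
          _ ≤ 5 * (B + 1) * bm + 5 * (B + 1) * (b - bm) := add_le_add h4 h1
          _ = 5 * (B + 1) * (bm + (b - bm)) := by ring
          _ = 5 * (B + 1) * b := by rw [← h7]
  exact fun x b hx => key _ x b rfl hx

theorem domCol_one {V : Type} (G : SimpleGraph V) : DomCol G 1 1 :=
  ⟨fun _ => Finset.univ, fun _ => by simp, fun c v => Or.inl (Finset.mem_univ _)⟩

/-- the supremum in the definition of `FD` is attained (Dickson's lemma); from a colouring with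
`a / b ≥ 5/2` one gets a `(5b : 2b)`-colouring -/
theorem exists_domCol_of_FD {V : Type} [Finite V] [Nonempty V] (G : SimpleGraph V)
    (h : (5 / 2 : ℝ) ≤ FD G) : ∃ q : ℕ, 0 < q ∧ DomCol G (5 * q) (2 * q) := by
  classical
  have := Fintype.ofFinite V
  by_cases hno : ∀ x b, fdS G b x → x ≠ 0 → 2 * fdA x < 5 * b
  · exfalso
    obtain ⟨B, hB, hall⟩ := fd_bound G hno
    have hle : FD G ≤ 5 / 2 - 1 / (2 * B) := by
      refine csSup_le ⟨1, 1, 1, le_rfl, le_rfl, domCol_one G, by norm_num⟩ ?_
      rintro r ⟨a, b, hb1, hba, hcol, rfl⟩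
      obtain ⟨x, hx, rfl⟩ := fd_of_domCol hcol
      have h1 := hall x b hx
      have h2 : (2 * B * fdA x + b : ℝ) ≤ 5 * B * b := by exact_mod_cast h1
      have hbpos : (0 : ℝ) < b := by exact_mod_cast hb1
      have hBpos : (0 : ℝ) < B := by exact_mod_cast hB
      rw [div_le_iff₀ hbpos]
      have h3 : (5 / 2 - 1 / (2 * (B : ℝ))) * b = (5 * B * b - b) / (2 * B) := by
        field_simp
      rw [h3, le_div_iff₀ (by positivity)]
      linarith
    have hBpos : (0 : ℝ) < B := by exact_mod_cast hB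
    have : (0 : ℝ) < 1 / (2 * B) := by positivity
    linarith
  · push Not at hno
    obtain ⟨x, b, hx, hx0, hle⟩ := hno
    have hb : 0 < b := by
      obtain ⟨D, hD⟩ := Function.ne_iff.mp hx0
      have hD' : x D ≠ 0 := hD
      obtain ⟨v0⟩ := ‹Nonempty V›
      obtain ⟨v, hv⟩ : ∃ v, v ∈ D := by
        rcases hx.1 D hD' v0 with h1 | ⟨w, _, h1⟩
        · exact ⟨_, h1⟩
        · exact ⟨_, h1⟩
      rw [← hx.2 v]
      have : (if v ∈ D then x D else 0) ≤ fdB x v :=
        Finset.single_le_sum (f := fun D => if v ∈ D then x D else 0)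
          (fun _ _ => Nat.zero_le _) (Finset.mem_univ D)
      rw [if_pos hv] at this
      omega
    refine ⟨b, hb, ?_⟩
    exact ((fd_to_domCol hx).blowup 2).shrink hle (by omega)

theorem le_FD_of_domCol {V : Type} [Finite V] [Nonempty V] (G : SimpleGraph V) {q : ℕ}
    (hq : 0 < q) (h : DomCol G (5 * q) (2 * q)) : (5 / 2 : ℝ) ≤ FD G := by
  classical
  have := Fintype.ofFinite V
  refine le_csSup ⟨Fintype.card V, ?_⟩ ⟨5 * q, 2 * q, by omega, by omega, h, ?_⟩
  · rintro r ⟨a, b, hb1, hba, ⟨φ, hφ, hdom⟩, rfl⟩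
    have hbpos : (0 : ℝ) < b := by exact_mod_cast hb1
    rw [div_le_iff₀ hbpos]
    obtain ⟨v0⟩ := ‹Nonempty V›
    have h1 : (Finset.univ : Finset (Fin a)) ⊆ Finset.univ.biUnion φ := by
      intro c _
      rw [Finset.mem_biUnion]
      rcases hdom c v0 with h2 | ⟨w, _, h2⟩
      · exact ⟨v0, Finset.mem_univ _, h2⟩
      · exact ⟨w, Finset.mem_univ _, h2⟩
    have h2 := (Finset.card_le_card h1).trans Finset.card_biUnion_le
    simp only [hφ, Finset.sum_const, Finset.card_univ, Fintype.card_fin, smul_eq_mul] at h2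
    exact_mod_cast h2
  · have : (0 : ℝ) < q := by exact_mod_cast hq
    push_cast
    field_simp

/-- there are finitely many graphs on at most 7 vertices -/
theorem exists_small (N : ℕ) : ∃ Q : ℕ, 0 < Q ∧ ∀ k ≤ N, ∀ G : SimpleGraph (Fin k),
    (∃ q : ℕ, 0 < q ∧ DomCol G (5 * q) (2 * q)) → DomCol G (5 * Q) (2 * Q) := by
  classical
  have hex : ∀ k (G : SimpleGraph (Fin k)), ∃ q : ℕ, 0 < q ∧
      ((∃ q : ℕ, 0 < q ∧ DomCol G (5 * q) (2 * q)) → DomCol G (5 * q) (2 * q)) := by
    intro k G
    by_cases h : ∃ q : ℕ, 0 < q ∧ DomCol G (5 * q) (2 * q)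
    · obtain ⟨q, hq, hcol⟩ := h
      exact ⟨q, hq, fun _ => hcol⟩
    · exact ⟨1, one_pos, fun h' => absurd h' h⟩
  choose f hf1 hf2 using hex
  refine ⟨∏ k ∈ Finset.range (N + 1), ∏ G : SimpleGraph (Fin k), f k G,
    Finset.prod_pos fun k _ => Finset.prod_pos fun G _ => hf1 k G, ?_⟩
  intro k hk G hG
  have hdvd : f k G ∣ ∏ k ∈ Finset.range (N + 1), ∏ G : SimpleGraph (Fin k), f k G := by
    refine dvd_trans (Finset.dvd_prod_of_mem (fun G => f k G) (Finset.mem_univ G)) ?_
    exact Finset.dvd_prod_of_mem (fun k => ∏ G : SimpleGraph (Fin k), f k G)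
      (Finset.mem_range.mpr (by omega))
  obtain ⟨m, hm⟩ := hdvd
  have h1 := (hf2 k G hG).blowup m
  rw [hm]
  have e1 : m * (5 * f k G) = 5 * (f k G * m) := by ring
  have e2 : m * (2 * f k G) = 2 * (f k G * m) := by ring
  rwa [e1, e2] at h1

end Pool.Agent.Lib.MP_db02ae_co
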