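import Pool.Agent.Lib.MP_db02ae_co.Defs

open Finset
open scoped Classical

namespace Pool.Agent.Lib.MP_db02ae_co

/-- the set of vectors `x` with `a · x = 1` -/
noncomputable def hadS (k : ℕ) (a : Fin (k + 2) → ZMod 2) : Finset (Fin (k + 2) → ZMod 2) :=
  univ.filter (fun x => ∑ i, a i * x i = 1)

lemma zmod2_ne_one {z : ZMod 2} : z ≠ 1 ↔ z = 0 := by
  revert z; decide

lemma hadS_card (k : ℕ) (a : Fin (k + 2) → ZMod 2) (ha : a ≠ 0) :
    (hadS k a).card = 2 * 2 ^ k := by
  obtain ⟨i, hi⟩ : ∃ i, a i = 1 := by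
    by_contra h
    push Not at h
    exact ha (funext fun i => zmod2_ne_one.1 (h i))
  have key : ∀ x : Fin (k + 2) → ZMod 2,
      ∑ j, a j * ((x + Pi.single i 1 : Fin (k + 2) → ZMod 2) j) = ∑ j, a j * x j + 1 := by
    intro x
    simp only [Pi.add_apply, mul_add, Finset.sum_add_distrib]
    congr 1
    rw [Finset.sum_eq_single i]
    · simp [hi]
    · intro b _ hb
      simp [Pi.single_apply, hb]
    · simp
  have hinv : ∀ x : Fin (k + 2) → ZMod 2, x + Pi.single i 1 + Pi.single i 1 = x := by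
    intro x
    have : (Pi.single i 1 : Fin (k + 2) → ZMod 2) + Pi.single i 1 = 0 :=
      CharTwo.add_self_eq_zero _
    rw [add_assoc, this, add_zero]
  have hm1 : ∀ x ∈ hadS k a, x + Pi.single i 1 ∈ (hadS k a)ᶜ := by
    intro x hx
    simp only [hadS, mem_filter, mem_univ, true_and, mem_compl] at hx ⊢
    rw [key, hx]
    decide
  have hm2 : ∀ x ∈ (hadS k a)ᶜ, x + Pi.single i 1 ∈ hadS k a := by
    intro x hx
    simp only [hadS, mem_filter, mem_univ, true_and, mem_compl] at hx ⊢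
    rw [key, zmod2_ne_one.1 hx]
    decide
  have h1 : (hadS k a).card = ((hadS k a)ᶜ).card :=
    Finset.card_bij' (fun x _ => x + Pi.single i 1) (fun x _ => x + Pi.single i 1) hm1 hm2
      (fun x _ => hinv x) (fun x _ => hinv x)
  have h2 := Finset.card_add_card_compl (hadS k a)
  rw [Fintype.card_fun, ZMod.card, Fintype.card_fin] at h2
  rw [pow_add] at h2
  omega

lemma hadS_inter (k : ℕ) (a b : Fin (k + 2) → ZMod 2) (ha : a ≠ 0) (hb : b ≠ 0) (hab : a ≠ b) :
    (hadS k a ∩ hadS k b).card = 2 ^ k := by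
  have h0 : a + b ≠ 0 := by
    intro h
    apply hab
    have := eq_neg_of_add_eq_zero_left h
    rw [this]
    exact CharTwo.neg_eq b
  have h1 := hadS_card k a ha
  have h2 := hadS_card k b hb
  have h3 := hadS_card k (a + b) h0
  have e : hadS k (a + b) = (hadS k a \ hadS k b) ∪ (hadS k b \ hadS k a) := by
    ext x
    simp only [hadS, mem_filter, mem_univ, true_and, mem_union, mem_sdiff, Pi.add_apply, add_mul,
      Finset.sum_add_distrib]
    generalize ∑ i, a i * x i = s
    generalize ∑ i, b i * x i = t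
    revert s t
    decide
  have hd : Disjoint (hadS k a \ hadS k b) (hadS k b \ hadS k a) := by
    rw [Finset.disjoint_left]
    intro x hx hx'
    simp only [mem_sdiff] at hx hx'
    exact hx.2 hx'.1
  rw [e, Finset.card_union_of_disjoint hd] at h3
  have h4 := Finset.card_sdiff_add_card_inter (hadS k a) (hadS k b)
  have h5 := Finset.card_sdiff_add_card_inter (hadS k b) (hadS k a)
  rw [Finset.inter_comm] at h5
  omega

/-- Sylvester-Hadamard sets: `S_a = {x ∈ F_2^(k+2) : a · x = 1}`, `a ≠ 0`, on `4 * 2^k` of the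
`5 * 2^k` colours -/
theorem hadProp_two_pow {C : Type} [Fintype C] (k N : ℕ) (hC : Fintype.card C = 5 * 2 ^ k)
    (hN : N ≤ (2 ^ k) ^ 2) : HadProp (2 ^ k) C N := by
  have hcard : Fintype.card (Fin (k + 2) → ZMod 2) = 4 * 2 ^ k := by
    rw [Fintype.card_fun, ZMod.card, Fintype.card_fin, pow_add]; ring
  have hle : Fintype.card (Fin (k + 2) → ZMod 2) ≤ Fintype.card C := by
    rw [hcard, hC]; omega
  obtain ⟨ι⟩ : Nonempty ((Fin (k + 2) → ZMod 2) ↪ C) := Function.Embedding.nonempty_of_card_le hle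
  have hA : Fintype.card {a : Fin (k + 2) → ZMod 2 // a ≠ 0} = 4 * 2 ^ k - 1 := by
    rw [Fintype.card_subtype_compl, Fintype.card_subtype_eq, hcard]
  let e : Fin (4 * 2 ^ k - 1) ≃ {a : Fin (k + 2) → ZMod 2 // a ≠ 0} :=
    (finCongr hA.symm).trans (Fintype.equivFin _).symm
  refine ⟨4 * 2 ^ k - 1, fun i => (hadS k (e i).1).map ι, ?_, ?_, ?_⟩
  · have h1 : 1 ≤ 2 ^ k := Nat.one_le_two_pow
    obtain ⟨m, hm⟩ : ∃ m, 2 ^ k = m + 1 := ⟨2 ^ k - 1, by omega⟩
    rw [hm] at hN ⊢
    have : 4 * (m + 1) - 1 = 4 * m + 3 := by omega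
    rw [this]
    nlinarith
  · intro i
    rw [Finset.card_map]
    exact hadS_card k _ (e i).2
  · intro i j hij
    rw [← Finset.map_inter, Finset.card_map]
    apply hadS_inter k _ _ (e i).2 (e j).2
    intro h
    exact hij (e.injective (Subtype.ext h))

end Pool.Agent.Lib.MP_db02ae_co
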