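import Pool.Agent.Lib.MP_db02ae_co.Defs

open Finset
open scoped Classical

namespace Pool.Agent.Lib.MP_db02ae_co

/-- number of `k`-subsets of `S` containing `A` -/
lemma kc_card_filter_superset {C : Type} [Fintype C] (S A : Finset C) (k : ℕ) (hA : A ⊆ S)
    (hk : A.card ≤ k) :
    ((powersetCard k S).filter (fun U => A ⊆ U)).card = (S.card - A.card).choose (k - A.card) := by
  have h : ((powersetCard k S).filter (fun U => A ⊆ U)).card
      = (powersetCard (k - A.card) (S \ A)).card := by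
    refine Finset.card_bij (fun U _ => U \ A) ?_ ?_ ?_
    · intro U hU
      simp only [mem_filter, mem_powersetCard] at hU ⊢
      refine ⟨sdiff_subset_sdiff hU.1.1 (le_refl _), ?_⟩
      rw [card_sdiff_of_subset hU.2, hU.1.2]
    · intro U hU U' hU' h
      simp only [mem_filter, mem_powersetCard] at hU hU'
      rw [← union_sdiff_of_subset hU.2, ← union_sdiff_of_subset hU'.2, h]
    · intro U hU
      simp only [mem_powersetCard] at hU
      have hd : Disjoint A U := by
        rw [disjoint_left]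
        intro x hx hxU
        exact (mem_sdiff.mp (hU.1 hxU)).2 hx
      refine ⟨A ∪ U, ?_, ?_⟩
      · simp only [mem_filter, mem_powersetCard]
        refine ⟨⟨union_subset hA (hU.1.trans sdiff_subset), ?_⟩, subset_union_left⟩
        rw [card_union_of_disjoint hd, hU.2]
        omega
      · rw [union_sdiff_left]
        exact sdiff_eq_self_of_disjoint hd.symm
  rw [h, card_powersetCard, card_sdiff_of_subset hA]

lemma kc_choose_sub_mul_pow_le (n k a : ℕ) (ha : a ≤ k) (hk : k ≤ n) :
    (n - a).choose (k - a) * n ^ a ≤ n.choose k * k ^ a := by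
  induction a with
  | zero => simp
  | succ a ih =>
    have ih' := ih (by omega)
    obtain ⟨k', hk'⟩ : ∃ k', k = k' + (a + 1) := ⟨k - (a + 1), by omega⟩
    obtain ⟨n', hn'⟩ : ∃ n', n = n' + (a + 1) := ⟨n - (a + 1), by omega⟩
    have e1 : n - (a + 1) = n' := by omega
    have e2 : k - (a + 1) = k' := by omega
    have e3 : n - a = n' + 1 := by omega
    have e4 : k - a = k' + 1 := by omega
    rw [e1, e2]
    rw [e3, e4] at ih'
    have h1 : (n' + 1) * n'.choose k' = (n' + 1).choose (k' + 1) * (k' + 1) :=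
      Nat.add_one_mul_choose_eq n' k'
    have h2 : (k' + 1) * n ≤ k * (n' + 1) := by
      rw [hk', hn']
      have : k' ≤ n' := by omega
      nlinarith
    have h3 : (n' + 1) * (n'.choose k' * n ^ (a + 1)) ≤ (n' + 1) * (n.choose k * k ^ (a + 1)) := by
      calc (n' + 1) * (n'.choose k' * n ^ (a + 1))
          = ((n' + 1) * n'.choose k') * n ^ a * n := by ring
        _ = ((n' + 1).choose (k' + 1) * n ^ a) * ((k' + 1) * n) := by rw [h1]; ring
        _ ≤ (n.choose k * k ^ a) * (k * (n' + 1)) := Nat.mul_le_mul ih' h2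
        _ = (n' + 1) * (n.choose k * k ^ (a + 1)) := by ring
    exact Nat.le_of_mul_le_mul_left h3 (Nat.succ_pos _)

lemma kc_card_filter_superset_le {C : Type} [Fintype C] (S A : Finset C) (k : ℕ) (hA : A ⊆ S)
    (hk : k ≤ S.card) (hS : 0 < S.card) :
    (((powersetCard k S).filter (fun U => A ⊆ U)).card : ℝ)
      ≤ ((k : ℝ) / S.card) ^ A.card * (S.card.choose k : ℝ) := by
  by_cases h : A.card ≤ k
  · rw [kc_card_filter_superset S A k hA h]
    have h1 := kc_choose_sub_mul_pow_le S.card k A.card h hk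
    have h2 : (((S.card - A.card).choose (k - A.card) : ℕ) : ℝ) * (S.card : ℝ) ^ A.card
        ≤ (S.card.choose k : ℝ) * (k : ℝ) ^ A.card := by exact_mod_cast h1
    have h3 : (0 : ℝ) < (S.card : ℝ) ^ A.card := by positivity
    rw [div_pow]
    rw [div_mul_eq_mul_div, le_div_iff₀ h3]
    linarith
  · have : ((powersetCard k S).filter (fun U => A ⊆ U)) = ∅ := by
      rw [filter_eq_empty_iff]
      intro U hU hAU
      rw [mem_powersetCard] at hU
      have := card_le_card hAU
      omega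
    rw [this]
    simp only [card_empty, Nat.cast_zero]
    positivity

/-- exponential moment of the hypergeometric law -/
lemma kc_moment_le {C : Type} [Fintype C] (S B : Finset C) (k : ℕ) (hB : B ⊆ S)
    (hk : k ≤ S.card) (hS : 0 < S.card) (y : ℝ) (hy : 0 ≤ y) :
    ∑ U ∈ powersetCard k S, (1 + y) ^ (U ∩ B).card
      ≤ (1 + (k : ℝ) / S.card * y) ^ B.card * (S.card.choose k : ℝ) := by
  have h1 : ∀ U ∈ powersetCard k S, (1 + y) ^ (U ∩ B).card
      = ∑ A ∈ B.powerset, if A ⊆ U then y ^ A.card else 0 := by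
    intro U _
    rw [← Finset.sum_filter]
    have : B.powerset.filter (fun A => A ⊆ U) = (U ∩ B).powerset := by
      ext A
      simp only [mem_filter, mem_powerset, subset_inter_iff]
      tauto
    rw [this]
    have := Finset.sum_pow_mul_eq_add_pow y (1 : ℝ) (U ∩ B)
    simp only [one_pow, mul_one] at this
    rw [this, add_comm]
  rw [Finset.sum_congr rfl h1, Finset.sum_comm]
  have h2 : ∀ A ∈ B.powerset, (∑ U ∈ powersetCard k S, if A ⊆ U then y ^ A.card else 0)
      ≤ (((k : ℝ) / S.card) * y) ^ A.card * (S.card.choose k : ℝ) := by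
    intro A hA
    rw [mem_powerset] at hA
    rw [← Finset.sum_filter, Finset.sum_const, nsmul_eq_mul]
    have := kc_card_filter_superset_le S A k (hA.trans hB) hk hS
    calc _ ≤ ((k : ℝ) / S.card) ^ A.card * (S.card.choose k : ℝ) * y ^ A.card := by
            exact mul_le_mul_of_nonneg_right this (by positivity)
      _ = _ := by rw [mul_pow]; ring
  refine (Finset.sum_le_sum h2).trans ?_
  rw [← Finset.sum_mul]
  have := Finset.sum_pow_mul_eq_add_pow (((k : ℝ) / S.card) * y) (1 : ℝ) B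
  simp only [one_pow, mul_one] at this
  rw [this, add_comm]

lemma kc_log_one_add_ge {y : ℝ} (hy : 0 ≤ y) : y - y ^ 2 / 2 ≤ Real.log (1 + y) := by
  refine le_trans ?_ (Real.le_log_one_add_of_nonneg hy)
  rw [le_div_iff₀ (by linarith)]
  have : 0 ≤ y ^ 3 := by positivity
  nlinarith

/-- tail bound -/
lemma kc_bad_card_le {C : Type} [Fintype C] (S B : Finset C) (k : ℕ) (hB : B ⊆ S)
    (hk : k ≤ S.card) (hS : 0 < S.card) (s : ℝ) (q : ℝ) (hq : 0 ≤ q)
    (hf : (k : ℝ) / S.card * B.card ≤ 4 / 5 * q)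
    (hs : s = (k : ℝ) / S.card * B.card + q / 15) :
    (((powersetCard k S).filter (fun U => s < ((U ∩ B).card : ℝ))).card : ℝ)
      ≤ Real.exp (-(17 / 6750) * q) * (S.card.choose k : ℝ) := by
  set f : ℝ := (k : ℝ) / S.card with hfdef
  have hf0 : 0 ≤ f := by positivity
  have hm := kc_moment_le S B k hB hk hS (1 / 15) (by norm_num)
  rw [← hfdef] at hm
  have h1 : (((powersetCard k S).filter (fun U => s < ((U ∩ B).card : ℝ))).card : ℝ)
      * Real.exp (Real.log (1 + 1 / 15) * s)
      ≤ ∑ U ∈ powersetCard k S, (1 + (1 : ℝ) / 15) ^ (U ∩ B).card := by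
    rw [← nsmul_eq_mul, ← Finset.sum_const]
    refine (Finset.sum_le_sum (fun U hU => ?_)).trans
      (Finset.sum_le_sum_of_subset_of_nonneg (filter_subset _ _) (fun _ _ _ => by positivity))
    rw [mem_filter] at hU
    have hpos : (0 : ℝ) < 1 + 1 / 15 := by norm_num
    rw [← Real.rpow_natCast, Real.rpow_def_of_pos hpos]
    apply Real.exp_le_exp.mpr
    apply mul_le_mul_of_nonneg_left hU.2.le
    exact Real.log_nonneg (by norm_num)
  have h2 : (1 + f * (1 / 15)) ^ B.card ≤ Real.exp (f * (1 / 15) * B.card) := by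
    rw [mul_comm (f * (1 / 15)) (B.card : ℝ), Real.exp_nat_mul]
    apply pow_le_pow_left₀ (by positivity)
    rw [add_comm]
    exact Real.add_one_le_exp _
  have hlog : (1 : ℝ) / 15 - (1 / 15) ^ 2 / 2 ≤ Real.log (1 + 1 / 15) :=
    kc_log_one_add_ge (by norm_num)
  have hs0 : 0 ≤ s := by rw [hs]; positivity
  have h3 : f * (1 / 15) * B.card ≤ -(17 / 6750) * q + Real.log (1 + 1 / 15) * s := by
    have h4 : (1 / 15 - (1 / 15) ^ 2 / 2) * s ≤ Real.log (1 + 1 / 15) * s :=
      mul_le_mul_of_nonneg_right hlog hs0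
    have h5 : (1 / 15 - (1 / 15) ^ 2 / 2) * s
        = (1 / 15 - (1 / 15) ^ 2 / 2) * (f * B.card) + (1 / 15 - (1 / 15) ^ 2 / 2) * (q / 15) := by
      rw [hs]; ring
    nlinarith
  have h6 : (((powersetCard k S).filter (fun U => s < ((U ∩ B).card : ℝ))).card : ℝ)
      * Real.exp (Real.log (1 + 1 / 15) * s)
      ≤ (Real.exp (-(17 / 6750) * q) * (S.card.choose k : ℝ))
        * Real.exp (Real.log (1 + 1 / 15) * s) := by
    calc _ ≤ _ := h1
      _ ≤ _ := hm
      _ ≤ Real.exp (f * (1 / 15) * B.card) * (S.card.choose k : ℝ) :=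
          mul_le_mul_of_nonneg_right h2 (by positivity)
      _ ≤ Real.exp (-(17 / 6750) * q + Real.log (1 + 1 / 15) * s) * (S.card.choose k : ℝ) :=
          mul_le_mul_of_nonneg_right (Real.exp_le_exp.mpr h3) (by positivity)
      _ = _ := by rw [Real.exp_add]; ring
  exact le_of_mul_le_mul_right h6 (Real.exp_pos _)

lemma kc_mul_exp_lt_one {N : ℕ} {q : ℝ} (h3 : 3 ≤ N) (hN : 450 * Real.sqrt (N : ℝ) ≤ q) :
    (N : ℝ) * Real.exp (-(17 / 6750) * q) < 1 := by
  set s := Real.sqrt (N : ℝ) with hs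
  have hs2 : s ^ 2 = N := Real.sq_sqrt (by positivity)
  have hs0 : 0 ≤ s := Real.sqrt_nonneg _
  have h1 : Real.exp (-(17 / 6750) * q) ≤ Real.exp (-s) := by
    apply Real.exp_le_exp.mpr
    nlinarith
  have h2 : s ^ 2 * Real.exp (-s) < 1 := by
    rw [Real.exp_neg]
    have : s ^ 2 < Real.exp s := by
      have h := Real.sum_le_exp_of_nonneg hs0 4
      simp only [Finset.sum_range_succ, Finset.sum_range_zero] at h
      norm_num [Nat.factorial] at h
      have h5 : 0 ≤ s * (1 - s / 2 + s ^ 2 / 6) := by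
        apply mul_nonneg hs0
        nlinarith [sq_nonneg (s - 3 / 2)]
      nlinarith
    rw [← div_eq_mul_inv, div_lt_one (Real.exp_pos _)]
    exact this
  calc (N : ℝ) * Real.exp (-(17 / 6750) * q) ≤ (N : ℝ) * Real.exp (-s) := by
        apply mul_le_mul_of_nonneg_left h1 (by positivity)
    _ < 1 := by rw [← hs2]; exact h2

/-- three subsets of prescribed size covering a set -/
lemma kc_exists_cover3 {C : Type} (T : Finset C) (a b c : ℕ) (h : T.card ≤ a + b + c) :
    ∃ A B D : Finset C, A ⊆ T ∧ B ⊆ T ∧ D ⊆ T ∧ A.card ≤ a ∧ B.card ≤ b ∧ D.card ≤ c ∧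
      T ⊆ A ∪ B ∪ D := by
  obtain ⟨A, hA, hAc⟩ := Finset.exists_subset_card_eq (s := T) (n := min a T.card) (min_le_right _ _)
  obtain ⟨B, hB, hBc⟩ := Finset.exists_subset_card_eq (s := T \ A)
    (n := min b (T \ A).card) (min_le_right _ _)
  refine ⟨A, B, (T \ A) \ B, hA, hB.trans sdiff_subset, sdiff_subset.trans sdiff_subset,
    by omega, by omega, ?_, ?_⟩
  · rw [card_sdiff_of_subset hB]
    have := card_sdiff_of_subset hA
    omega
  · intro x hx
    simp only [mem_union, mem_sdiff]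
    tauto

lemma kc_exists_superset_card {C : Type} [Fintype C] (A : Finset C) (n : ℕ) (h : A.card ≤ n)
    (hn : n ≤ Fintype.card C) : ∃ B : Finset C, A ⊆ B ∧ B.card = n := by
  obtain ⟨B, h1, _, h2⟩ := Finset.exists_subsuperset_card_eq (subset_univ A) h (by simpa using hn)
  exact ⟨B, h1, h2⟩

/-- see the proof document, Lemma 5 (exponential moments of the hypergeometric law) -/
theorem khubProp_of_large {C : Type} [Fintype C] {q N : ℕ} (hC : Fintype.card C = 5 * q)
    (hN : 450 * Real.sqrt (N : ℝ) ≤ (q : ℝ)) : KHubProp q C N := by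
  intro W I F hI3 hIN hF
  have hN3 : 3 ≤ N := hI3.trans hIN
  have hq0 : 0 < q := by
    have : (0 : ℝ) < q := by
      have : (0 : ℝ) < Real.sqrt (N : ℝ) := Real.sqrt_pos.mpr (by exact_mod_cast (by omega : 0 < N))
      linarith
    exact_mod_cast this
  set T : Finset C := univ.filter (fun c => ∀ i ∈ I, c ∈ F i) with hT
  obtain ⟨i₁, h1, i₂, h2, i₃, h3, h12, h13, h23⟩ := Finset.two_lt_card.mp (by omega : 2 < I.card)
  have hTF : ∀ i ∈ I, T ⊆ F i := by
    intro i hi c hc
    exact (mem_filter.mp hc).2 i hi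
  have hTc : T.card ≤ 2 * q := by
    rw [← hF i₁ h1]; exact card_le_card (hTF i₁ h1)
  set S : Finset C := univ \ T with hS
  have hSc : S.card = 5 * q - T.card := by
    rw [hS, card_sdiff_of_subset (subset_univ _), card_univ, hC]
  have hSpos : 0 < S.card := by omega
  have hkS : 2 * q ≤ S.card := by omega
  have hBc : ∀ i ∈ I, (F i \ T).card = 2 * q - T.card := by
    intro i hi
    rw [card_sdiff_of_subset (hTF i hi), hF i hi]
  set t : ℝ := (T.card : ℝ) with ht
  have ht2 : t ≤ 2 * q := by rw [ht]; exact_mod_cast hTc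
  have ht0 : 0 ≤ t := by positivity
  have hScR : (S.card : ℝ) = 5 * q - t := by
    rw [hSc, Nat.cast_sub (by omega)]; push_cast; ring
  have hqR : (0 : ℝ) < q := by exact_mod_cast hq0
  have hdpos : (0 : ℝ) < 5 * q - t := by linarith
  set e : ℝ := (2 * q : ℝ) / (5 * q - t) * (2 * q - t) with he
  have he1 : e ≤ 4 / 5 * q := by
    rw [he, div_mul_eq_mul_div, div_le_iff₀ hdpos]
    nlinarith
  have he2 : t + 2 / 5 * q ≤ 3 * (q - e) := by
    have : e * (5 * q - t) = 2 * q * (2 * q - t) := by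
      have hne : (5 * (q : ℝ) - t) ≠ 0 := hdpos.ne'
      rw [he, div_mul_eq_mul_div, div_mul_cancel₀ _ hne]
    have h5 : (t + 2 / 5 * q) * (5 * q - t) ≤ (3 * (q - e)) * (5 * q - t) := by
      have e1 : (3 * (q - e)) * (5 * q - t) = 3 * q * (5 * q - t) - 3 * (e * (5 * q - t)) := by ring
      rw [e1, this]
      nlinarith [sq_nonneg (t - q)]
    exact le_of_mul_le_mul_right h5 hdpos
  have hbad : ∀ i ∈ I, (((powersetCard (2 * q) S).filter
      (fun U => e + q / 15 < ((U ∩ (F i \ T)).card : ℝ))).card : ℝ)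
      ≤ Real.exp (-(17 / 6750) * q) * (S.card.choose (2 * q) : ℝ) := by
    intro i hi
    have hBR : ((F i \ T).card : ℝ) = 2 * q - t := by
      rw [hBc i hi, Nat.cast_sub hTc]; push_cast; ring
    refine kc_bad_card_le S (F i \ T) (2 * q) ?_ hkS hSpos (e + q / 15) q hqR.le ?_ ?_
    · exact sdiff_subset_sdiff (subset_univ _) (le_refl _)
    · rw [hBR, hScR]; push_cast; exact he1
    · rw [hBR, hScR]; push_cast; rfl
  have hex : ∃ U ∈ powersetCard (2 * q) S, ∀ i ∈ I, ((U ∩ (F i \ T)).card : ℝ) ≤ e + q / 15 := by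
    by_contra hcon
    push Not at hcon
    have hsub : powersetCard (2 * q) S ⊆ I.biUnion (fun i => (powersetCard (2 * q) S).filter
      (fun U => e + q / 15 < ((U ∩ (F i \ T)).card : ℝ))) := by
      intro U hU
      obtain ⟨i, hi, hlt⟩ := hcon U hU
      rw [mem_biUnion]
      exact ⟨i, hi, mem_filter.mpr ⟨hU, hlt⟩⟩
    have hc := (card_le_card hsub).trans card_biUnion_le
    rw [card_powersetCard] at hc
    have hcR : (S.card.choose (2 * q) : ℝ) ≤ ∑ i ∈ I, (((powersetCard (2 * q) S).filter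
      (fun U => e + q / 15 < ((U ∩ (F i \ T)).card : ℝ))).card : ℝ) := by exact_mod_cast hc
    have h6 := hcR.trans (Finset.sum_le_sum hbad)
    rw [Finset.sum_const, nsmul_eq_mul] at h6
    have hpos : (0 : ℝ) < (S.card.choose (2 * q) : ℝ) := by
      exact_mod_cast Nat.choose_pos hkS
    have h7 : (I.card : ℝ) * (Real.exp (-(17 / 6750) * q) * (S.card.choose (2 * q) : ℝ))
        ≤ ((N : ℝ) * Real.exp (-(17 / 6750) * q)) * (S.card.choose (2 * q) : ℝ) := by
      rw [← mul_assoc]
      apply mul_le_mul_of_nonneg_right _ hpos.le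
      apply mul_le_mul_of_nonneg_right _ (Real.exp_pos _).le
      exact_mod_cast hIN
    have h8 := kc_mul_exp_lt_one hN3 hN
    nlinarith
  obtain ⟨U, hU, hUs⟩ := hex
  rw [mem_powersetCard] at hU
  obtain ⟨hUS, hUc⟩ := hU
  have hUT : Disjoint U T := by
    rw [disjoint_left]; intro c hc; exact (mem_sdiff.mp (hUS hc)).2
  have hinter : ∀ i, U ∩ (F i \ T) = U ∩ F i := by
    intro i
    ext c
    simp only [mem_inter, mem_sdiff]
    constructor
    · tauto
    · rintro ⟨h1, h2⟩
      exact ⟨h1, h2, disjoint_left.mp hUT h1⟩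
  have hs1 : ∀ i ∈ I, ((U ∩ F i).card : ℝ) ≤ e + q / 15 := by
    intro i hi
    rw [← hinter i]; exact hUs i hi
  have hsq : ∀ i ∈ I, (U ∩ F i).card ≤ q := by
    intro i hi
    have := hs1 i hi
    have h5 : ((U ∩ F i).card : ℝ) ≤ (q : ℝ) := by linarith
    exact_mod_cast h5
  have hsum : T.card ≤ (q - (U ∩ F i₁).card) + (q - (U ∩ F i₂).card) + (q - (U ∩ F i₃).card) := by
    have a1 := hs1 i₁ h1
    have a2 := hs1 i₂ h2
    have a3 := hs1 i₃ h3
    have : (T.card : ℝ) ≤ ((q - (U ∩ F i₁).card : ℕ) : ℝ) + ((q - (U ∩ F i₂).card : ℕ) : ℝ)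
        + ((q - (U ∩ F i₃).card : ℕ) : ℝ) := by
      rw [Nat.cast_sub (hsq _ h1), Nat.cast_sub (hsq _ h2), Nat.cast_sub (hsq _ h3)]
      rw [← ht]
      linarith
    exact_mod_cast this
  obtain ⟨A, B, D, hA, hB, hD, hAc, hBc', hDc, hcov⟩ := kc_exists_cover3 T _ _ _ hsum
  set E : W → Finset C := fun i => if i = i₁ then A else if i = i₂ then B else
    if i = i₃ then D else ∅ with hE
  have hE1 : E i₁ = A := by simp [hE]
  have hE2 : E i₂ = B := by simp [hE, h12.symm]
  have hE3 : E i₃ = D := by simp [hE, h13.symm, h23.symm]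
  have hEc : ∀ i ∈ I, (E i).card ≤ q - (U ∩ F i).card := by
    intro i hi
    by_cases c1 : i = i₁
    · subst c1; rw [hE1]; exact hAc
    by_cases c2 : i = i₂
    · subst c2; rw [hE2]; exact hBc'
    by_cases c3 : i = i₃
    · subst c3; rw [hE3]; exact hDc
    simp [hE, c1, c2, c3]
  have hX : ∀ i : W, ∃ X : Finset C, i ∈ I → (univ \ (U ∪ F i)) ∪ E i ⊆ X ∧ X.card = 2 * q := by
    intro i
    by_cases hi : i ∈ I
    · have hc : ((univ \ (U ∪ F i)) ∪ E i).card ≤ 2 * q := by
        refine (card_union_le _ _).trans ?_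
        have h5 := card_union_add_card_inter U (F i)
        rw [hUc, hF i hi] at h5
        rw [card_sdiff_of_subset (subset_univ _), card_univ, hC]
        have h6 := hEc i hi
        have h7 := hsq i hi
        have h8 : (U ∪ F i).card ≤ 5 * q := by
          rw [← hC]; exact card_le_univ _
        omega
      obtain ⟨X, hX1, hX2⟩ := kc_exists_superset_card _ (2 * q) hc (by omega)
      exact ⟨X, fun _ => ⟨hX1, hX2⟩⟩
    · exact ⟨∅, fun h => absurd h hi⟩
  choose X hX using hX
  refine ⟨U, X, hUc, ?_, ?_⟩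
  · intro i hi
    refine ⟨(hX i hi).2, ?_⟩
    rw [eq_univ_iff_forall]
    intro c
    by_cases hc : c ∈ U ∪ F i
    · simp only [mem_union] at hc ⊢
      tauto
    · have : c ∈ X i := (hX i hi).1 (mem_union_left _ (mem_sdiff.mpr ⟨mem_univ _, hc⟩))
      simp only [mem_union]
      tauto
  · rw [eq_univ_iff_forall]
    intro c
    rw [mem_union, mem_biUnion]
    by_cases hcU : c ∈ U
    · exact Or.inl hcU
    right
    by_cases hcT : c ∈ T
    · have := hcov hcT
      simp only [mem_union] at this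
      rcases this with (h | h) | h
      · exact ⟨i₁, h1, (hX i₁ h1).1 (mem_union_right _ (by rw [hE1]; exact h))⟩
      · exact ⟨i₂, h2, (hX i₂ h2).1 (mem_union_right _ (by rw [hE2]; exact h))⟩
      · exact ⟨i₃, h3, (hX i₃ h3).1 (mem_union_right _ (by rw [hE3]; exact h))⟩
    · have : ∃ i ∈ I, c ∉ F i := by
        by_contra hcon
        push Not at hcon
        exact hcT (mem_filter.mpr ⟨mem_univ _, hcon⟩)
      obtain ⟨i, hi, hci⟩ := this
      refine ⟨i, hi, (hX i hi).1 (mem_union_left _ (mem_sdiff.mpr ⟨mem_univ _, ?_⟩))⟩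
      rw [mem_union]
      tauto

end Pool.Agent.Lib.MP_db02ae_co
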