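import Pool.Agent.Lib.MP_db02ae_co.General
import Pool.Agent.Lib.MP_db02ae_co.FDLemmas
import Pool.Agent.Lib.MP_db02ae_co.KHubConc
import Pool.Agent.Lib.MP_db02ae_co.Had

open Finset
open scoped Classical

namespace Pool.Agent.Lib.MP_db02ae_co

/-- a connected graph with at least 8 vertices and minimum degree at least 2 -/
theorem domCol_of_inG {V : Type} [Fintype V] {G : SimpleGraph V} (hI : InG G univ)
    (h8 : 8 ≤ Fintype.card V) {j : ℕ}
    (hj : 450 * Real.sqrt (Fintype.card V : ℝ) ≤ (2 : ℝ) ^ j) :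
    DomCol G (5 * 2 ^ j) (2 * 2 ^ j) := by
  have hC : Fintype.card (Fin (5 * 2 ^ j)) = 5 * 2 ^ j := Fintype.card_fin _
  have hK : KHubProp (2 ^ j) (Fin (5 * 2 ^ j)) (Fintype.card V) := by
    refine khubProp_of_large hC ?_
    push_cast
    exact hj
  have hH : HadProp (2 ^ j) (Fin (5 * 2 ^ j)) (Fintype.card V) := by
    refine hadProp_two_pow j _ hC ?_
    have h0 : (0 : ℝ) ≤ (Fintype.card V : ℝ) := Nat.cast_nonneg _
    have h1 : Real.sqrt (Fintype.card V : ℝ) ≤ (2 : ℝ) ^ j := by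
      have := Real.sqrt_nonneg (Fintype.card V : ℝ)
      linarith
    have h2 : (Fintype.card V : ℝ) ≤ ((2 : ℝ) ^ j) ^ 2 := by
      calc (Fintype.card V : ℝ) = Real.sqrt (Fintype.card V : ℝ) ^ 2 := (Real.sq_sqrt h0).symm
        _ ≤ ((2 : ℝ) ^ j) ^ 2 := pow_le_pow_left₀ (Real.sqrt_nonneg _) h1 2
    exact_mod_cast h2
  rcases good_or_small hC hK hH G univ hI with ⟨φ, hφ1, hφ2⟩ | ⟨h7, -⟩
  · refine ⟨φ, hφ1, fun c v => ?_⟩
    by_contra hcon
    push Not at hcon
    have hmem : c ∈ miss G φ v := mem_miss.2 hcon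
    rw [hφ2 v (Finset.mem_univ v)] at hmem
    exact absurd hmem (Finset.notMem_empty _)
  · rw [Finset.card_univ] at h7
    omega

/-- gluing colourings of the components -/
theorem domCol_glue {V : Type} {G : SimpleGraph V} {a b : ℕ}
    (h : ∀ K : G.ConnectedComponent, DomCol (G.induce K.supp) a b) : DomCol G a b := by
  choose φ h1 h2 using h
  refine ⟨fun v => φ (G.connectedComponentMk v) ⟨v, rfl⟩, fun v => h1 _ _, fun c v => ?_⟩
  rcases h2 (G.connectedComponentMk v) c ⟨v, rfl⟩ with h | ⟨w, hw, hc⟩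
  · exact Or.inl h
  · refine Or.inr ⟨w.1, hw, ?_⟩
    have key : ∀ (K : G.ConnectedComponent) (hK : G.connectedComponentMk w.1 = K),
        φ K ⟨w.1, hK⟩ = φ (G.connectedComponentMk w.1) ⟨w.1, rfl⟩ := by
      rintro _ rfl
      rfl
    have h3 := key (G.connectedComponentMk v) w.2
    simp only
    rw [← h3]
    exact hc

/-- restriction to a component -/
theorem domCol_restrict {V : Type} {G : SimpleGraph V} {a b : ℕ} (h : DomCol G a b)
    (K : G.ConnectedComponent) : DomCol (G.induce K.supp) a b := by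
  obtain ⟨φ, h1, h2⟩ := h
  refine ⟨fun v => φ v.1, fun v => h1 _, fun c v => ?_⟩
  rcases h2 c v.1 with h | ⟨w, hw, hc⟩
  · exact Or.inl h
  · have hwK : w ∈ K.supp := by
      have hv : G.connectedComponentMk v.1 = K := v.2
      have : G.connectedComponentMk w = G.connectedComponentMk v.1 :=
        (SimpleGraph.ConnectedComponent.sound hw.reachable).symm
      rw [SimpleGraph.ConnectedComponent.mem_supp_iff, this, hv]
    exact Or.inr ⟨⟨w, hwK⟩, hw, hc⟩

/-- vertices of a graph with a dominating `(5q:2q)`-colouring have degree at least 2 -/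
theorem deg_of_domCol {V : Type} [Fintype V] {G : SimpleGraph V} {q : ℕ} (hq : 0 < q)
    (h : DomCol G (5 * q) (2 * q)) (v : V) : 2 ≤ (nb G v).card := by
  obtain ⟨φ, h1, h2⟩ := h
  have hcov : (univ : Finset (Fin (5 * q))) ⊆ (insert v (nb G v)).biUnion φ := by
    intro c _
    rw [Finset.mem_biUnion]
    rcases h2 c v with h | ⟨w, hw, hc⟩
    · exact ⟨v, Finset.mem_insert_self _ _, h⟩
    · exact ⟨w, Finset.mem_insert_of_mem (mem_nb.2 hw), hc⟩
  have h3 := Finset.card_le_card hcov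
  have h4 : ((insert v (nb G v)).biUnion φ).card ≤ (insert v (nb G v)).card * (2 * q) :=
    Finset.card_biUnion_le_card_mul _ _ _ fun w _ => (h1 w).le
  have h5 := Finset.card_insert_le v (nb G v)
  rw [Finset.card_univ, Fintype.card_fin] at h3
  by_contra hcon
  have h6 : (nb G v).card ≤ 1 := by omega
  have h7 : (insert v (nb G v)).card ≤ 2 := by omega
  have h8 : (insert v (nb G v)).card * (2 * q) ≤ 2 * (2 * q) := Nat.mul_le_mul_right _ h7
  omega

/-- a component is in the class -/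
theorem inG_component {V : Type} [Fintype V] {G : SimpleGraph V} (K : G.ConnectedComponent)
    (hdeg : ∀ v, 2 ≤ (nb (G.induce K.supp) v).card) : InG (G.induce K.supp) univ := by
  have hconn : (G.induce K.supp).Connected := K.connected_toSimpleGraph
  refine ⟨fun _ _ _ => Finset.mem_univ _, ?_, ?_, fun v _ => hdeg v⟩
  · obtain ⟨v⟩ := hconn.nonempty
    exact ⟨v, Finset.mem_univ _⟩
  · intro A _ hA hne
    obtain ⟨a, ha⟩ := hA
    obtain ⟨b, hb⟩ : ∃ b, b ∉ A := by
      by_contra hcon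
      push Not at hcon
      exact hne (Finset.eq_univ_iff_forall.2 hcon)
    obtain ⟨p⟩ := hconn.preconnected a b
    obtain ⟨d, -, hd1, hd2⟩ := p.exists_boundary_dart (A : Set K.supp) (by simpa using ha)
      (by simpa using hb)
    exact ⟨d.fst, by simpa using hd1, d.snd,
      (@Finset.mem_sdiff _ (fun a b => Classical.propDecidable (a = b)) _ _ _).2
        ⟨Finset.mem_univ _, by simpa using hd2⟩, d.adj⟩

/-- the upper bound: one `Q` for all graphs -/
theorem upper : ∃ Q : ℕ, 0 < Q ∧ ∀ (V : Type) [Fintype V] (G : SimpleGraph V) (j : ℕ),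
    450 * Real.sqrt (Fintype.card V : ℝ) ≤ (2 : ℝ) ^ j →
    (∃ q : ℕ, 0 < q ∧ DomCol G (5 * q) (2 * q)) →
    DomCol G (5 * (Q * 2 ^ j)) (2 * (Q * 2 ^ j)) := by
  obtain ⟨Q, hQ, hsmall⟩ := exists_small 7
  refine ⟨Q, hQ, fun V _ G j hj hcol => domCol_glue fun K => ?_⟩
  obtain ⟨q, hq, hcol⟩ := hcol
  have hK := domCol_restrict hcol K
  rcases Nat.lt_or_ge (Fintype.card K.supp) 8 with h8 | h8
  · have h := (hsmall (Fintype.card K.supp) (by omega) ((G.induce K.supp).overFin rfl)
      ⟨q, hq, hK.of_iso ((G.induce K.supp).overFinIso rfl)⟩).of_iso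
      ((G.induce K.supp).overFinIso rfl).symm
    have h' := h.blowup (2 ^ j)
    rw [show 2 ^ j * (5 * Q) = 5 * (Q * 2 ^ j) by ring,
      show 2 ^ j * (2 * Q) = 2 * (Q * 2 ^ j) by ring] at h'
    exact h'
  · have hle : (Fintype.card K.supp : ℝ) ≤ (Fintype.card V : ℝ) := by
      exact_mod_cast Fintype.card_subtype_le _
    have h := domCol_of_inG (inG_component K (deg_of_domCol hq hK)) h8 (j := j)
      (le_trans (mul_le_mul_of_nonneg_left (Real.sqrt_le_sqrt hle) (by norm_num)) hj)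
    have h' := h.blowup Q
    rw [show Q * (5 * 2 ^ j) = 5 * (Q * 2 ^ j) by ring,
      show Q * (2 * 2 ^ j) = 2 * (Q * 2 ^ j) by ring] at h'
    exact h'

end Pool.Agent.Lib.MP_db02ae_co
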