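import Mathlib

/-!
Fractional domatic number 5/2 (problem MP_db02ae_co): internal definitions.

Conventions: `V` is a fixed finite vertex type, `C` a finite type of colours with
`Fintype.card C = 5 * q`.  A graph of the induction is a pair `(G, S)` with
`G : SimpleGraph V` all of whose edges lie inside `S : Finset V`.
-/

open Finset
open scoped Classical

namespace Pool.Agent.Lib.MP_db02ae_co

variable {V : Type} [Fintype V]

/-- the neighbours of `v`, as a Finset -/
noncomputable def nb (G : SimpleGraph V) (v : V) : Finset V :=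
  univ.filter (fun w => G.Adj v w)

@[simp] lemma mem_nb {G : SimpleGraph V} {v w : V} : w ∈ nb G v ↔ G.Adj v w := by
  simp [nb]

/-- colours missing at `v`: neither in the colour set of `v` nor in that of a neighbour -/
noncomputable def miss {C : Type} [Fintype C] (G : SimpleGraph V) (φ : V → Finset C) (v : V) :
    Finset C :=
  univ.filter (fun c => c ∉ φ v ∧ ∀ w, G.Adj v w → c ∉ φ w)

lemma mem_miss {C : Type} [Fintype C] {G : SimpleGraph V} {φ : V → Finset C} {v : V} {c : C} :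
    c ∈ miss G φ v ↔ c ∉ φ v ∧ ∀ w, G.Adj v w → c ∉ φ w := by
  simp [miss]

/-- `G` restricted to the edges inside `S` -/
def restr (G : SimpleGraph V) (S : Finset V) : SimpleGraph V where
  Adj a b := G.Adj a b ∧ a ∈ S ∧ b ∈ S
  symm := ⟨fun _ _ h => ⟨h.1.symm, h.2.2, h.2.1⟩⟩
  loopless := ⟨fun _ h => G.loopless.irrefl _ h.1⟩

/-- connected graphs of minimum degree at least 2 on the vertex set `S` -/
structure InG (G : SimpleGraph V) (S : Finset V) : Prop where
  supp : ∀ a b, G.Adj a b → a ∈ S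
  ne : S.Nonempty
  conn : ∀ A ⊆ S, A.Nonempty → A ≠ S → ∃ a ∈ A, ∃ b ∈ S \ A, G.Adj a b
  deg : ∀ v ∈ S, 2 ≤ (nb G v).card

/-- the hubs (vertices of degree at least 3) are pairwise non-adjacent -/
def HubInd (G : SimpleGraph V) : Prop :=
  ∀ a b, G.Adj a b → (nb G a).card ≤ 2 ∨ (nb G b).card ≤ 2

/-- the class on which the main induction runs -/
def InI (G : SimpleGraph V) (S : Finset V) : Prop := InG G S ∧ HubInd G

/-- all colour sets have exactly `2 q` elements -/
def IsCol {C : Type} (q : ℕ) (φ : V → Finset C) : Prop := ∀ v, (φ v).card = 2 * q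

/-- `(G,S)` has a dominating colouring -/
def Good (q : ℕ) (C : Type) [Fintype C] (G : SimpleGraph V) (S : Finset V) : Prop :=
  ∃ φ : V → Finset C, IsCol q φ ∧ ∀ v ∈ S, miss G φ v = ∅

/-- a colouring in which all vertices of `S` but `r` are dominated, and `r` misses at most
`m` colours -/
def RootAt (q m : ℕ) (C : Type) [Fintype C] (G : SimpleGraph V) (S : Finset V) (r : V) : Prop :=
  ∃ φ : V → Finset C, IsCol q φ ∧ (∀ v ∈ S, v ≠ r → miss G φ v = ∅) ∧ (miss G φ r).card ≤ m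

/-- a colouring in which all vertices of `S` but `r` are dominated, `r` misses at most
`q` colours, and shares at most `q` colours with each neighbour -/
def SemiAt (q : ℕ) (C : Type) [Fintype C] (G : SimpleGraph V) (S : Finset V) (r : V) : Prop :=
  ∃ φ : V → Finset C, IsCol q φ ∧ (∀ v ∈ S, v ≠ r → miss G φ v = ∅) ∧
    (miss G φ r).card ≤ q ∧ ∀ z, G.Adj r z → (φ r ∩ φ z).card ≤ q

/-- a colouring in which all vertices of `S` but `x` are dominated and the neighbours of `x`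
have pairwise disjoint colour sets -/
def TwAt (q : ℕ) (C : Type) [Fintype C] (G : SimpleGraph V) (S : Finset V) (x : V) : Prop :=
  ∃ φ : V → Finset C, IsCol q φ ∧ (∀ v ∈ S, v ≠ x → miss G φ v = ∅) ∧
    ∀ a b, a ≠ b → G.Adj x a → G.Adj x b → Disjoint (φ a) (φ b)

/-- two different vertices of degree 2 with the same neighbours -/
def Twins (G : SimpleGraph V) (S : Finset V) : Prop :=
  ∃ x ∈ S, ∃ y ∈ S, x ≠ y ∧ (nb G x).card = 2 ∧ nb G x = nb G y

/-- a cut vertex -/
def HasCut (G : SimpleGraph V) (S : Finset V) : Prop :=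
  ∃ u ∈ S, ∃ A ⊆ S.erase u, A.Nonempty ∧ A ≠ S.erase u ∧
    ∀ a ∈ A, ∀ b ∈ (S.erase u) \ A, ¬ G.Adj a b

/-- a bridge -/
def HasBridge (G : SimpleGraph V) (S : Finset V) : Prop :=
  ∃ A ⊆ S, ∃ a ∈ A, ∃ b ∈ S \ A, G.Adj a b ∧
    ∀ a' ∈ A, ∀ b' ∈ S \ A, G.Adj a' b' → a' = a ∧ b' = b

/-- four consecutive vertices of degree 2 (not forming a 4-cycle) -/
def Run4 (G : SimpleGraph V) (x₁ x₂ x₃ x₄ : V) : Prop :=
  G.Adj x₁ x₂ ∧ G.Adj x₂ x₃ ∧ G.Adj x₃ x₄ ∧ x₁ ≠ x₃ ∧ x₂ ≠ x₄ ∧ x₁ ≠ x₄ ∧ ¬ G.Adj x₁ x₄ ∧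
    (nb G x₁).card = 2 ∧ (nb G x₂).card = 2 ∧ (nb G x₃).card = 2 ∧ (nb G x₄).card = 2

/-- three consecutive vertices of degree 2 -/
def Run3 (G : SimpleGraph V) (x y z : V) : Prop :=
  G.Adj x y ∧ G.Adj y z ∧ x ≠ z ∧
    (nb G x).card = 2 ∧ (nb G y).card = 2 ∧ (nb G z).card = 2

/-- an ear of length 3 from `a` to `b` through the degree 2 vertices `x`, `y`;
`a = b` is allowed -/
def Ear3 (G : SimpleGraph V) (a x y b : V) : Prop :=
  G.Adj a x ∧ G.Adj x y ∧ G.Adj y b ∧ a ≠ y ∧ b ≠ x ∧ (nb G x).card = 2 ∧ (nb G y).card = 2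

/-- a hub all of whose neighbours lead to another hub -/
def KHub (G : SimpleGraph V) (u : V) : Prop :=
  3 ≤ (nb G u).card ∧ ∀ x y, G.Adj u x → G.Adj x y → y ≠ u → 3 ≤ (nb G y).card

/-- the statement proved by induction for all `(G,S)` with `InI G S` -/
def TT (q : ℕ) (C : Type) [Fintype C] (G : SimpleGraph V) (S : Finset V) : Prop :=
  Good q C G S ∨
  ((∀ r ∈ S, SemiAt q C G S r) ∧ S.card ≤ 7 ∧
    (Twins G S ∨ (S.card = 7 ∧ ∀ v ∈ S, (nb G v).card = 2)) ∧
    ((∀ x ∈ S, (nb G x).card = 2 → TwAt q C G S x) ∨ HasCut G S)) ∨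
  (S.card = 4 ∧ Twins G S ∧ ∀ r ∈ S, RootAt q (2 * q) C G S r)

/-- induction hypothesis for the class `InI` (vertex type `V`) -/
def IH (V : Type) [Fintype V] (q : ℕ) (C : Type) [Fintype C] (n : ℕ) : Prop :=
  ∀ (G : SimpleGraph V) (S : Finset V), InI G S → S.card < n → TT q C G S

/-- extension property used to delete a hub all of whose ears have length 2 -/
def KHubProp (q : ℕ) (C : Type) [Fintype C] (N : ℕ) : Prop :=
  ∀ (W : Type) (I : Finset W) (F : W → Finset C), 3 ≤ I.card → I.card ≤ N →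
    (∀ i ∈ I, (F i).card = 2 * q) →
    ∃ (U : Finset C) (X : W → Finset C), U.card = 2 * q ∧
      (∀ i ∈ I, (X i).card = 2 * q ∧ U ∪ X i ∪ F i = univ) ∧ U ∪ I.biUnion X = univ

/-- many `2q`-sets pairwise meeting in exactly `q` elements -/
def HadProp (q : ℕ) (C : Type) [Fintype C] (N : ℕ) : Prop :=
  ∃ (m : ℕ) (F : Fin m → Finset C), 2 * N < m * (m + 1) ∧ (∀ i, (F i).card = 2 * q) ∧
    ∀ i j, i ≠ j → (F i ∩ F j).card = q

end Pool.Agent.Lib.MP_db02ae_co
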