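import Mathlib

/-!
Definitions for the statement of the result on MP_db02ae_co.
-/

namespace Pool.Agent.Lib.MP_db02ae_co

/-- `G` admits a dominating `(a:b)`-colouring: a map `φ` assigning to each vertex a set of `b`
of the `a` colours such that each colour class is a dominating set, i.e. each colour `c` occurs
in the closed neighbourhood of each vertex `v`. -/
def DomCol {V : Type} (G : SimpleGraph V) (a b : ℕ) : Prop :=
  ∃ φ : V → Finset (Fin a), (∀ v, (φ v).card = b) ∧
    ∀ (c : Fin a) (v : V), c ∈ φ v ∨ ∃ w, G.Adj v w ∧ c ∈ φ w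

/-- the fractional domatic number: the supremum of `a / b` over all dominating
`(a:b)`-colourings, `a ≥ b ≥ 1` -/
noncomputable def FD {V : Type} (G : SimpleGraph V) : ℝ :=
  sSup {x : ℝ | ∃ a b : ℕ, 1 ≤ b ∧ b ≤ a ∧ DomCol G a b ∧ x = (a : ℝ) / (b : ℝ)}

/-- `q` is admissible for `n`: each graph on `n` vertices with fractional domatic number at
least `5/2` has a dominating `(5q:2q)`-colouring -/
def Admissible (n q : ℕ) : Prop :=
  0 < q ∧ ∀ G : SimpleGraph (Fin n), (5 / 2 : ℝ) ≤ FD G → DomCol G (5 * q) (2 * q)

/-- the least admissible positive integer -/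
noncomputable def qmin (n : ℕ) : ℕ := sInf {q : ℕ | Admissible n q}

end Pool.Agent.Lib.MP_db02ae_co
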