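import Pool.Agent.Lib.MP_db02ae_co.Main

open Finset
open scoped Classical

namespace Pool.Agent.Lib.MP_db02ae_co

variable {V : Type} [Fintype V] {C : Type} [Fintype C] {q : ℕ}

theorem miss_mono {G G' : SimpleGraph V} (h : G' ≤ G) (φ : V → Finset C) (v : V) :
    miss G φ v ⊆ miss G' φ v := by
  intro c hc
  rw [mem_miss] at hc ⊢
  exact ⟨hc.1, fun w hw => hc.2 w (h hw)⟩

theorem Good.mono {G G' : SimpleGraph V} (h : G' ≤ G) {S : Finset V} (hg : Good q C G' S) :
    Good q C G S := by
  obtain ⟨φ, h1, h2⟩ := hg
  refine ⟨φ, h1, fun v hv => ?_⟩
  have := miss_mono h φ v
  rw [h2 v hv] at this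
  exact subset_empty.1 this

theorem RootAt.mono {G G' : SimpleGraph V} (h : G' ≤ G) {S : Finset V} {m : ℕ} {r : V}
    (hg : RootAt q m C G' S r) : RootAt q m C G S r := by
  obtain ⟨φ, h1, h2, h3⟩ := hg
  refine ⟨φ, h1, fun v hv hr => ?_, (card_le_card (miss_mono h φ r)).trans h3⟩
  have := miss_mono h φ v
  rw [h2 v hv hr] at this
  exact subset_empty.1 this

theorem Good.rootAt {G : SimpleGraph V} {S : Finset V} (hg : Good q C G S) {m : ℕ} {r : V}
    (hr : r ∈ S) : RootAt q m C G S r := by
  obtain ⟨φ, h1, h2⟩ := hg
  exact ⟨φ, h1, fun v hv _ => h2 v hv, by rw [h2 r hr]; simp⟩

/-- connected graphs of minimum degree at least 2 with at least 8 vertices have a dominating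
`(5q:2q)`-colouring -/
theorem good_or_small (hC : Fintype.card C = 5 * q) (hK : KHubProp q C (Fintype.card V))
    (hH : HadProp q C (Fintype.card V)) (G : SimpleGraph V) (S : Finset V) (hI : InG G S) :
    Good q C G S ∨ (S.card ≤ 7 ∧ ∀ r ∈ S, RootAt q (2 * q) C G S r) := by
  have main : ∀ n : ℕ, ∀ (G : SimpleGraph V) (S : Finset V), InG G S → S.card = n →
      Good q C G S ∨ (S.card ≤ 7 ∧ ∀ r ∈ S, RootAt q (2 * q) C G S r) := by
    intro n
    induction n using Nat.strong_induction_on with
    | _ n ihn =>
      have inner : ∀ e : ℕ, ∀ (G : SimpleGraph V) (S : Finset V), G.edgeSet.ncard = e →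
          InG G S → S.card = n →
          Good q C G S ∨ (S.card ≤ 7 ∧ ∀ r ∈ S, RootAt q (2 * q) C G S r) := by
        intro e
        induction e using Nat.strong_induction_on with
        | _ e ihe =>
          intro G S he hI hS
          by_cases hh : HubInd G
          · have hT : TT q C G S := tt_all hC hK hH (S.card + 1) G S ⟨hI, hh⟩ (Nat.lt_succ_self _)
            rcases hT with h | h | h
            · exact Or.inl h
            · exact Or.inr ⟨h.2.1, fun r hr => TT.rootAt (Or.inr (Or.inl h)) hr⟩
            · exact Or.inr ⟨by omega, fun r hr => TT.rootAt (Or.inr (Or.inr h)) hr⟩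
          · unfold HubInd at hh
            push Not at hh
            obtain ⟨a, b, hab, ha, hb⟩ := hh
            set G' : SimpleGraph V := G.deleteEdges {s(a, b)} with hG'
            have hle : G' ≤ G := SimpleGraph.deleteEdges_le _
            have hadj : ∀ x y, G'.Adj x y ↔ G.Adj x y ∧ s(x, y) ≠ s(a, b) := by
              intro x y
              rw [hG', SimpleGraph.deleteEdges_adj]
              simp
            by_cases hconn : ∀ A ⊆ S, A.Nonempty → A ≠ S → ∃ x ∈ A, ∃ y ∈ S \ A, G'.Adj x y
            · have hI' : InG G' S := by
                refine ⟨fun x y h => hI.supp x y (hle h), hI.ne, hconn, ?_⟩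
                intro v hv
                have hsub : ∀ w, (nb G v).erase w ⊆ nb G' v ∨ w ∉ nb G v ∨ s(v, w) ≠ s(a, b) := by
                  intro w
                  by_cases hw : s(v, w) = s(a, b)
                  · left
                    intro z hz
                    rw [mem_erase, mem_nb] at hz
                    rw [mem_nb, hadj]
                    refine ⟨hz.2, fun h => hz.1 ?_⟩
                    rw [← hw] at h
                    exact Sym2.congr_right.1 h
                  · right; right; exact hw
                by_cases hva : v = a
                · subst hva
                  rcases hsub b with h | h | h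
                  · have h1 := card_le_card h
                    have h2 : (nb G v).card - 1 ≤ ((nb G v).erase b).card :=
                      pred_card_le_card_erase
                    omega
                  · exact absurd (mem_nb.2 hab) h
                  · exact absurd rfl h
                by_cases hvb : v = b
                · subst hvb
                  rcases hsub a with h | h | h
                  · have h1 := card_le_card h
                    have h2 : (nb G v).card - 1 ≤ ((nb G v).erase a).card :=
                      pred_card_le_card_erase
                    omega
                  · exact absurd (mem_nb.2 hab.symm) h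
                  · exact absurd Sym2.eq_swap h
                have : nb G' v = nb G v := by
                  ext z
                  rw [mem_nb, mem_nb, hadj]
                  refine ⟨fun h => h.1, fun h => ⟨h, fun h' => ?_⟩⟩
                  rw [Sym2.eq_iff] at h'
                  rcases h' with h' | h'
                  · exact hva h'.1
                  · exact hvb h'.1
                rw [this]
                exact hI.deg v hv
              have hlt : G'.edgeSet.ncard < e := by
                rw [← he]
                apply Set.ncard_lt_ncard _ (Set.toFinite _)
                rw [Set.ssubset_iff_of_subset (SimpleGraph.edgeSet_mono hle)]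
                refine ⟨s(a, b), hab, ?_⟩
                rw [SimpleGraph.mem_edgeSet, hadj]
                simp
              rcases ihe _ hlt G' S rfl hI' hS with h | h
              · exact Or.inl (h.mono hle)
              · exact Or.inr ⟨h.1, fun r hr => (h.2 r hr).mono hle⟩
            · push Not at hconn
              obtain ⟨A, hAS, hAne, hAS', hno⟩ := hconn
              obtain ⟨x, hx, y, hy, hxy⟩ := hI.conn A hAS hAne hAS'
              have key : ∀ x' ∈ A, ∀ y' ∈ S \ A, G.Adj x' y' → s(x', y') = s(a, b) := by
                intro x' hx' y' hy' h'
                by_contra hne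
                exact hno x' hx' y' hy' ((hadj _ _).2 ⟨h', hne⟩)
              have hbr : HasBridge G S := by
                refine ⟨A, hAS, x, hx, y, hy, hxy, ?_⟩
                intro x' hx' y' hy' h'
                have h1 := key x' hx' y' hy' h'
                have h2 := key x hx y hy hxy
                rw [← h2, Sym2.eq_iff] at h1
                rcases h1 with h1 | h1
                · exact h1
                · exfalso
                  rw [h1.1] at hx'
                  exact (mem_sdiff.1 hy).2 hx'
              refine Or.inl (step_bridge_gen hC (fun _ => True) (fun _ _ _ => trivial) trivial hI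
                hbr ?_)
              intro G'' S'' _ hI'' hlt r hr
              rcases ihn S''.card (by omega) G'' S'' hI'' rfl with h | h
              · exact h.rootAt hr
              · exact h.2 r hr
      intro G S hI hS
      exact inner _ G S rfl hI hS
  exact main _ G S hI rfl

end Pool.Agent.Lib.MP_db02ae_co
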