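import Pool.Agent.Lib.MP_db02ae_co.Defs
import Pool.Agent.Lib.MP_db02ae_co.FDDefs

open Finset
open scoped Classical

namespace Pool.Agent.Lib.MP_db02ae_co

/-- `m` sets of size `2k` among `5k` colours, pairwise meeting in exactly `k` colours: `m ≤ 5k` -/
theorem fisher {m k : ℕ} (hk : 0 < k) (F : Fin m → Finset (Fin (5 * k)))
    (h1 : ∀ i, (F i).card = 2 * k) (h2 : ∀ i j, i ≠ j → (F i ∩ F j).card = k) : m ≤ 5 * k := by
  have hk' : (0 : ℝ) < k := by exact_mod_cast hk
  set v : Fin m → (Fin (5 * k) → ℝ) := fun i c => if c ∈ F i then 1 else 0 with hv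
  have hgram : ∀ i j, ∑ c, v i c * v j c = (k : ℝ) * ((if i = j then 1 else 0) + 1) := by
    intro i j
    have e1 : ∑ c, v i c * v j c = ((F i ∩ F j).card : ℝ) := by
      have : ∀ c, v i c * v j c = if c ∈ F i ∩ F j then (1 : ℝ) else 0 := by
        intro c
        simp only [hv, Finset.mem_inter]
        by_cases h : c ∈ F i <;> by_cases h' : c ∈ F j <;> simp [h, h']
      rw [Finset.sum_congr rfl fun c _ => this c, Finset.sum_ite_mem, Finset.univ_inter,
        Finset.sum_const, nsmul_eq_mul, mul_one]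
    rw [e1]
    by_cases hij : i = j
    · subst hij
      rw [Finset.inter_self, h1, if_pos rfl]
      push_cast
      ring
    · rw [h2 i j hij, if_neg hij]
      ring
  have hli : LinearIndependent ℝ v := by
    rw [Fintype.linearIndependent_iff]
    intro c hc i
    have h0 : ∑ x, (∑ i, c i * v i x) * (∑ j, c j * v j x) = 0 := by
      refine Finset.sum_eq_zero fun x _ => ?_
      have := congrFun hc x
      simp only [Finset.sum_apply, Pi.smul_apply, smul_eq_mul, Pi.zero_apply] at this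
      rw [this, zero_mul]
    have h3 : ∑ x, (∑ i, c i * v i x) * (∑ j, c j * v j x) =
        (k : ℝ) * (∑ i, c i ^ 2 + (∑ i, c i) ^ 2) := by
      calc ∑ x, (∑ i, c i * v i x) * (∑ j, c j * v j x)
          = ∑ x, ∑ i, ∑ j, (c i * v i x) * (c j * v j x) := by
            refine Finset.sum_congr rfl fun x _ => ?_
            rw [Finset.sum_mul_sum]
        _ = ∑ i, ∑ j, c i * c j * ∑ x, v i x * v j x := by
            rw [Finset.sum_comm]
            refine Finset.sum_congr rfl fun i _ => ?_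
            rw [Finset.sum_comm]
            refine Finset.sum_congr rfl fun j _ => ?_
            rw [Finset.mul_sum]
            refine Finset.sum_congr rfl fun x _ => ?_
            ring
        _ = ∑ i, ∑ j, ((k : ℝ) * (if i = j then c i * c j else 0) + (k : ℝ) * (c i * c j)) := by
            refine Finset.sum_congr rfl fun i _ => Finset.sum_congr rfl fun j _ => ?_
            rw [hgram]
            split_ifs <;> ring
        _ = (k : ℝ) * (∑ i, c i ^ 2 + (∑ i, c i) ^ 2) := by
            simp only [Finset.sum_add_distrib, ← Finset.mul_sum]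
            rw [← mul_add]
            congr 2
            · refine Finset.sum_congr rfl fun i _ => ?_
              rw [Finset.sum_ite_eq, if_pos (Finset.mem_univ _), sq]
            · rw [sq, Finset.sum_mul]
    rw [h3] at h0
    have h4 : ∑ i, c i ^ 2 + (∑ i, c i) ^ 2 = 0 := by
      rcases mul_eq_zero.1 h0 with h | h
      · exact absurd h hk'.ne'
      · exact h
    have h5 : ∑ i, c i ^ 2 = 0 := by
      have a1 : 0 ≤ ∑ i, c i ^ 2 := Finset.sum_nonneg fun i _ => sq_nonneg _
      have a2 : 0 ≤ (∑ i, c i) ^ 2 := sq_nonneg _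
      linarith
    have h6 := (Finset.sum_eq_zero_iff_of_nonneg fun i _ => sq_nonneg (c i)).1 h5 i
      (Finset.mem_univ i)
    exact pow_eq_zero_iff (two_ne_zero) |>.1 h6
  have := hli.fintype_card_le_finrank
  simpa using this

/-- adjacency of the lower bound graph: `(i,i)` are the hubs, `(i,i) - (i,j) - (j,i) - (j,j)`
the ears of length 3, `inr e` the middle vertices of the ears of length 2 -/
def lowAdj {m r : ℕ} (f : Fin r → Fin m × Fin m) :
    (Fin m × Fin m) ⊕ Fin r → (Fin m × Fin m) ⊕ Fin r → Prop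
  | .inl p, .inl q => p ≠ q ∧ ((p.1 = q.2 ∧ p.2 = q.1) ∨ (p.1 = q.1 ∧ (p.1 = p.2 ∨ q.1 = q.2)))
  | .inl p, .inr e => p.1 = p.2 ∧ (p.1 = (f e).1 ∨ p.1 = (f e).2)
  | .inr e, .inl p => p.1 = p.2 ∧ (p.1 = (f e).1 ∨ p.1 = (f e).2)
  | .inr _, .inr _ => False

/-- the lower bound graph -/
def lowG {m r : ℕ} (f : Fin r → Fin m × Fin m) : SimpleGraph ((Fin m × Fin m) ⊕ Fin r) where
  Adj := lowAdj f
  symm := ⟨by
    rintro (p | e) (q | e') h
    · simp only [lowAdj] at h ⊢
      refine ⟨h.1.symm, ?_⟩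
      rcases h.2 with ⟨a, b⟩ | ⟨a, b⟩
      · exact Or.inl ⟨b.symm, a.symm⟩
      · exact Or.inr ⟨a.symm, b.symm⟩
    · exact h
    · exact h
    · exact h⟩
  loopless := ⟨by
    rintro (p | e) h
    · exact h.1 rfl
    · exact h⟩

theorem low_adj_ll {m r : ℕ} (f : Fin r → Fin m × Fin m) (p q : Fin m × Fin m) :
    (lowG f).Adj (.inl p) (.inl q) ↔
      p ≠ q ∧ ((p.1 = q.2 ∧ p.2 = q.1) ∨ (p.1 = q.1 ∧ (p.1 = p.2 ∨ q.1 = q.2))) := Iff.rfl

theorem low_adj_rl {m r : ℕ} (f : Fin r → Fin m × Fin m) (e : Fin r) (p : Fin m × Fin m) :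
    (lowG f).Adj (.inr e) (.inl p) ↔ p.1 = p.2 ∧ (p.1 = (f e).1 ∨ p.1 = (f e).2) := Iff.rfl

theorem low_adj_rr {m r : ℕ} (f : Fin r → Fin m × Fin m) (e e' : Fin r) :
    ¬ (lowG f).Adj (.inr e) (.inr e') := fun h => h

theorem low_hub_pair {m r : ℕ} (f : Fin r → Fin m × Fin m) {i j : Fin m} (h : i ≠ j) :
    (lowG f).Adj (.inl (i, i)) (.inl (i, j)) := by
  rw [low_adj_ll]
  exact ⟨fun h' => h (congrArg Prod.snd h'), Or.inr ⟨rfl, Or.inl rfl⟩⟩

theorem low_pair_pair {m r : ℕ} (f : Fin r → Fin m × Fin m) {i j : Fin m} (h : i ≠ j) :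
    (lowG f).Adj (.inl (i, j)) (.inl (j, i)) := by
  rw [low_adj_ll]
  exact ⟨fun h' => h (congrArg Prod.fst h'), Or.inl ⟨rfl, rfl⟩⟩

/-- closed sets of vertices -/
theorem low_conn {m r : ℕ} (f : Fin r → Fin m × Fin m) (P : (Fin m × Fin m) ⊕ Fin r → Prop)
    (hP : ∀ a b, (lowG f).Adj a b → P a → P b) (a : (Fin m × Fin m) ⊕ Fin r) (ha : P a)
    (b : (Fin m × Fin m) ⊕ Fin r) : P b := by
  have h1 : ∀ i j : Fin m, P (.inl (i, j)) → P (.inl (i, i)) := by
    intro i j h
    by_cases hij : i = j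
    · subst hij; exact h
    · exact hP _ _ (low_hub_pair f hij).symm h
  have h2 : ∀ i j : Fin m, P (.inl (i, i)) → P (.inl (j, j)) := by
    intro i j h
    by_cases hij : i = j
    · subst hij; exact h
    · exact h1 j i (hP _ _ (low_pair_pair f hij) (hP _ _ (low_hub_pair f hij) h))
  have h3 : ∃ i : Fin m, P (.inl (i, i)) := by
    rcases a with ⟨i, j⟩ | e
    · exact ⟨i, h1 i j ha⟩
    · refine ⟨(f e).1, hP (.inr e) _ ?_ ha⟩
      rw [low_adj_rl]
      exact ⟨rfl, Or.inl rfl⟩
  obtain ⟨i₀, h0⟩ := h3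
  rcases b with ⟨i, j⟩ | e
  · by_cases hij : i = j
    · subst hij; exact h2 _ _ h0
    · exact hP _ _ (low_hub_pair f hij) (h2 _ _ h0)
  · refine hP (.inl ((f e).1, (f e).1)) _ ?_ (h2 _ _ h0)
    refine SimpleGraph.Adj.symm ?_
    rw [low_adj_rl]
    exact ⟨rfl, Or.inl rfl⟩

theorem low_deg {m r : ℕ} (hm : 2 ≤ m) (f : Fin r → Fin m × Fin m)
    (hf : ∀ e, (f e).1 < (f e).2) (hs : ∀ i j : Fin m, i < j → ∃ e, f e = (i, j))
    (a : (Fin m × Fin m) ⊕ Fin r) :
    ∃ b c, b ≠ c ∧ (lowG f).Adj a b ∧ (lowG f).Adj a c := by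
  rcases a with ⟨i, j⟩ | e
  · by_cases hij : i = j
    · subst hij
      obtain ⟨j, hj⟩ : ∃ j : Fin m, j ≠ i := by
        have : Nontrivial (Fin m) := Fin.nontrivial_iff_two_le.2 hm
        exact exists_ne i
      obtain ⟨e, he⟩ : ∃ e, (f e).1 = i ∨ (f e).2 = i := by
        rcases lt_or_gt_of_ne hj with h | h
        · obtain ⟨e, he⟩ := hs j i h
          exact ⟨e, Or.inr (by rw [he])⟩
        · obtain ⟨e, he⟩ := hs i j h
          exact ⟨e, Or.inl (by rw [he])⟩
      refine ⟨.inl (i, j), .inr e, by simp, low_hub_pair f hj.symm, SimpleGraph.Adj.symm ?_⟩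
      rw [low_adj_rl]
      exact ⟨rfl, by rcases he with h | h <;> simp [h]⟩
    · refine ⟨.inl (i, i), .inl (j, i), ?_, (low_hub_pair f hij).symm, low_pair_pair f hij⟩
      intro h
      exact hij (congrArg Prod.fst (Sum.inl.inj h))
  · refine ⟨.inl ((f e).1, (f e).1), .inl ((f e).2, (f e).2), ?_, ?_, ?_⟩
    · intro h
      exact (hf e).ne (congrArg Prod.fst (Sum.inl.inj h))
    · rw [low_adj_rl]; exact ⟨rfl, Or.inl rfl⟩
    · rw [low_adj_rl]; exact ⟨rfl, Or.inr rfl⟩

theorem low_inter {m r k : ℕ} (f : Fin r → Fin m × Fin m)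
    (hs : ∀ i j : Fin m, i < j → ∃ e, f e = (i, j))
    (φ : (Fin m × Fin m) ⊕ Fin r → Finset (Fin (5 * k))) (hc : ∀ v, (φ v).card = 2 * k)
    (hd : ∀ (c : Fin (5 * k)) v, c ∈ φ v ∨ ∃ w, (lowG f).Adj v w ∧ c ∈ φ w)
    (i j : Fin m) (hij : i < j) : (φ (.inl (i, i)) ∩ φ (.inl (j, j))).card = k := by
  have hcard : (univ : Finset (Fin (5 * k))).card = 5 * k := by simp
  have hui := Finset.card_union_add_card_inter (φ (.inl (i, i))) (φ (.inl (j, j)))
  rw [hc, hc] at hui
  refine le_antisymm ?_ ?_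
  · obtain ⟨e, he⟩ := hs i j hij
    have hcov : (univ : Finset (Fin (5 * k))) ⊆
        (φ (.inl (i, i)) ∪ φ (.inl (j, j))) ∪ φ (.inr e) := by
      intro c _
      rcases hd c (.inr e) with h | ⟨w, hw, h⟩
      · exact Finset.mem_union_right _ h
      · refine Finset.mem_union_left _ ?_
        rcases w with ⟨a, b⟩ | e'
        · rw [low_adj_rl, he] at hw
          obtain ⟨h1, h2⟩ := hw
          simp only at h1 h2
          subst h1
          rcases h2 with h2 | h2
          · subst h2; exact Finset.mem_union_left _ h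
          · subst h2; exact Finset.mem_union_right _ h
        · exact absurd hw (low_adj_rr f e e')
    have h1 := Finset.card_le_card hcov
    have h2 := Finset.card_union_le (φ (.inl (i, i)) ∪ φ (.inl (j, j))) (φ (.inr e))
    rw [hc (.inr e)] at h2
    omega
  · have key : ∀ a b : Fin m, a ≠ b → ∀ c, c ∉ φ (.inl (a, b)) → c ∉ φ (.inl (b, a)) →
        c ∈ φ (.inl (a, a)) := by
      intro a b hab c h1 h2
      rcases hd c (.inl (a, b)) with h | ⟨w, hw, h⟩
      · exact absurd h h1
      · rcases w with ⟨x, y⟩ | e'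
        · rw [low_adj_ll] at hw
          obtain ⟨-, h3⟩ := hw
          simp only at h3
          rcases h3 with ⟨h3, h4⟩ | ⟨h3, h4⟩
          · subst h3; subst h4; exact absurd h h2
          · rcases h4 with h4 | h4
            · exact absurd h4 hab
            · subst h3; subst h4; exact h
        · exact absurd hw.1 hab
    have hcov : (univ : Finset (Fin (5 * k))) ⊆
        (φ (.inl (i, i)) ∩ φ (.inl (j, j))) ∪ (φ (.inl (i, j)) ∪ φ (.inl (j, i))) := by
      intro c _
      by_cases h1 : c ∈ φ (.inl (i, j))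
      · exact Finset.mem_union_right _ (Finset.mem_union_left _ h1)
      by_cases h2 : c ∈ φ (.inl (j, i))
      · exact Finset.mem_union_right _ (Finset.mem_union_right _ h2)
      exact Finset.mem_union_left _ (Finset.mem_inter.2
        ⟨key i j hij.ne c h1 h2, key j i hij.ne' c h2 h1⟩)
    have h1 := Finset.card_le_card hcov
    have h2 := Finset.card_union_le (φ (.inl (i, i)) ∩ φ (.inl (j, j)))
      (φ (.inl (i, j)) ∪ φ (.inl (j, i)))
    have h3 := Finset.card_union_le (φ (.inl (i, j))) (φ (.inl (j, i)))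
    rw [hc, hc] at h3
    omega

/-- the size parameter -/
theorem low_size (n : ℕ) (hn : 8 ≤ n) : ∃ m : ℕ, 2 ≤ m ∧ 2 * (m * m) + m * (m - 1) ≤ 2 * n ∧
    2 * n ≤ 3 * (m * m) + 5 * m + 1 := by
  let P : ℕ → Prop := fun m => 2 * (m * m) + m * (m - 1) ≤ 2 * n
  have hP2 : P 2 := by show 2 * (2 * 2) + 2 * (2 - 1) ≤ 2 * n; omega
  have hm2 : 2 ≤ Nat.findGreatest P n := Nat.le_findGreatest (by omega) hP2
  have hPm : P (Nat.findGreatest P n) := Nat.findGreatest_spec (m := 2) (by omega) hP2
  refine ⟨Nat.findGreatest P n, hm2, hPm, ?_⟩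
  set m := Nat.findGreatest P n with hm
  have hmn : m + 1 ≤ n := by
    have h1 : 2 * (m * m) + m * (m - 1) ≤ 2 * n := hPm
    nlinarith
  have hnot : ¬ P (m + 1) := Nat.findGreatest_is_greatest (hm ▸ Nat.lt_succ_self _) hmn
  have h2 : 2 * n < 2 * ((m + 1) * (m + 1)) + (m + 1) * (m + 1 - 1) := not_le.1 hnot
  rw [Nat.add_sub_cancel] at h2
  nlinarith

/-- a surjective enumeration of the pairs -/
theorem low_pairs (m r : ℕ) (hm : 2 ≤ m) (hr : m * (m - 1) ≤ 2 * r) :
    ∃ f : Fin r → Fin m × Fin m, (∀ e, (f e).1 < (f e).2) ∧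
      ∀ i j : Fin m, i < j → ∃ e, f e = (i, j) := by
  let T := {p : Fin m × Fin m // p.1 < p.2}
  have hcard : 2 * Fintype.card T ≤ m * (m - 1) := by
    have h1 : Fintype.card T = ((univ : Finset (Fin m × Fin m)).filter fun p => p.1 < p.2).card :=
      Fintype.card_subtype _
    have h2 : ((univ : Finset (Fin m × Fin m)).filter fun p => p.1 < p.2).card =
        ((univ : Finset (Fin m × Fin m)).filter fun p => p.2 < p.1).card := by
      refine Finset.card_bij' (fun p _ => p.swap) (fun p _ => p.swap) ?_ ?_ ?_ ?_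
      · intro p hp; simpa using hp
      · intro p hp; simpa using hp
      · intro p _; simp
      · intro p _; simp
    have h3 : ((univ : Finset (Fin m × Fin m)).filter fun p => p.1 < p.2).card +
        ((univ : Finset (Fin m × Fin m)).filter fun p => p.2 < p.1).card ≤
        (univ : Finset (Fin m)).offDiag.card := by
      rw [← Finset.card_union_of_disjoint]
      · refine Finset.card_le_card fun p hp => ?_
        simp only [Finset.mem_union, Finset.mem_filter, Finset.mem_univ, true_and] at hp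
        rw [Finset.mem_offDiag]
        exact ⟨Finset.mem_univ _, Finset.mem_univ _, by rcases hp with h | h
                                                        · exact h.ne
                                                        · exact h.ne'⟩
      · rw [Finset.disjoint_filter]
        intro p _ h1 h2
        exact absurd (h1.trans h2) (lt_irrefl _)
    rw [Finset.offDiag_card, Finset.card_univ, Fintype.card_fin] at h3
    rw [h1]
    have h4 : m * m - m = m * (m - 1) := by rw [Nat.mul_sub_one]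
    omega
  have hle : Fintype.card T ≤ Fintype.card (Fin r) := by
    rw [Fintype.card_fin]; omega
  obtain ⟨g⟩ := Function.Embedding.nonempty_of_card_le hle
  have hne : Nonempty T := ⟨⟨(⟨0, by omega⟩, ⟨1, by omega⟩), by simp [Fin.lt_def]⟩⟩
  refine ⟨fun e => (Function.invFun g e).1, fun e => (Function.invFun g e).2, fun i j hij => ?_⟩
  refine ⟨g ⟨(i, j), hij⟩, ?_⟩
  simp only
  rw [Function.leftInverse_invFun g.injective]

/-- the graphs `H_m` (each edge of `K_m` replaced by paths of lengths 2 and 3), with extra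
twins of one vertex of degree 2 to reach exactly `n` vertices -/
theorem exists_lower_graph (n : ℕ) (hn : 8 ≤ n) : ∃ G : SimpleGraph (Fin n), InG G univ ∧
    ∀ k : ℕ, 0 < k → DomCol G (5 * k) (2 * k) → (n : ℝ) ≤ 64 * (k : ℝ) ^ 2 := by
  obtain ⟨m, hm2, hm1, hm3⟩ := low_size n hn
  have hmm : m * m ≤ n := by omega
  obtain ⟨f, hf, hs⟩ := low_pairs m (n - m * m) hm2 (by omega)
  have hcard : Fintype.card (Fin n) = Fintype.card ((Fin m × Fin m) ⊕ Fin (n - m * m)) := by
    simp only [Fintype.card_fin, Fintype.card_sum, Fintype.card_prod]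
    omega
  let e : Fin n ≃ (Fin m × Fin m) ⊕ Fin (n - m * m) := Fintype.equivOfCardEq hcard
  let G : SimpleGraph (Fin n) := (lowG f).comap e
  have hG : ∀ a b, G.Adj a b ↔ (lowG f).Adj (e a) (e b) := fun a b => Iff.rfl
  refine ⟨G, ⟨fun a b _ => Finset.mem_univ _, ⟨⟨0, by omega⟩, Finset.mem_univ _⟩, ?_, ?_⟩, ?_⟩
  · intro A _ hA hne
    by_contra hcon
    push Not at hcon
    obtain ⟨a, ha⟩ := hA
    apply hne
    refine Finset.eq_univ_iff_forall.2 fun b => ?_
    have := low_conn f (fun w => e.symm w ∈ A) (fun x y hxy hx => by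
      by_contra hy
      exact hcon _ hx (e.symm y) ((@Finset.mem_sdiff _ (fun a b => Classical.propDecidable (a = b)) _ _ _).2 ⟨Finset.mem_univ _, hy⟩)
        ((hG _ _).2 (by rwa [e.apply_symm_apply, e.apply_symm_apply]))) (e a)
      (by simpa using ha) (e b)
    simpa using this
  · intro v _
    obtain ⟨b, c, hbc, hb, hc⟩ := low_deg hm2 f hf hs (e v)
    rw [← Nat.succ_le_iff.symm, Finset.one_lt_card]
    refine ⟨e.symm b, ?_, e.symm c, ?_, fun h => hbc (e.symm.injective h)⟩
    · rw [mem_nb, hG, e.apply_symm_apply]; exact hb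
    · rw [mem_nb, hG, e.apply_symm_apply]; exact hc
  · intro k hk hdom
    obtain ⟨φ, hφ1, hφ2⟩ := hdom
    have hint := low_inter f hs (fun w => φ (e.symm w)) (fun w => hφ1 _) (fun c w => by
      rcases hφ2 c (e.symm w) with h | ⟨x, hx, h⟩
      · exact Or.inl h
      · refine Or.inr ⟨e x, ?_, by simpa using h⟩
        rw [hG, e.apply_symm_apply] at hx
        exact hx)
    have hm5 : m ≤ 5 * k := by
      refine fisher hk (fun i => φ (e.symm (.inl (i, i)))) (fun i => hφ1 _) fun i j hij => ?_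
      rcases lt_or_gt_of_ne hij with h | h
      · exact hint i j h
      · rw [Finset.inter_comm]; exact hint j i h
    have h1 : n ≤ 64 * k ^ 2 := by nlinarith
    exact_mod_cast h1

end Pool.Agent.Lib.MP_db02ae_co
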