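import Pool.Agent.Lib.MP_db02ae_co.SetLemmas
import Pool.Agent.Lib.MP_db02ae_co.Base

open Finset
open scoped Classical

namespace Pool.Agent.Lib.MP_db02ae_co

variable {V : Type} [Fintype V] {C : Type} [Fintype C] {q : ℕ}

namespace StepCut

theorem restr_le (G : SimpleGraph V) (S : Finset V) : restr G S ≤ G := fun _ _ h => h.1

theorem nb_mono {G G' : SimpleGraph V} (h : G' ≤ G) (v : V) : nb G' v ⊆ nb G v := by
  intro w hw
  rw [mem_nb] at hw ⊢
  exact h hw

theorem hubInd_mono {G G' : SimpleGraph V} (h : G' ≤ G) (hG : HubInd G) : HubInd G' := by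
  intro a b hab
  rcases hG a b (h hab) with h1 | h1
  · exact Or.inl ((card_le_card (nb_mono h a)).trans h1)
  · exact Or.inr ((card_le_card (nb_mono h b)).trans h1)

/-- one side of a cut vertex -/
structure Side (G : SimpleGraph V) (S : Finset V) (u : V) (A : Finset V) : Prop where
  hu : u ∈ S
  sub : A ⊆ S.erase u
  ne : A.Nonempty
  no : ∀ a ∈ A, ∀ b ∈ (S.erase u) \ A, ¬ G.Adj a b

theorem Side.nbr {G : SimpleGraph V} {S : Finset V} {u : V} {A : Finset V}
    (h : Side G S u A) (hI : InG G S) {a b : V} (ha : a ∈ A) (hab : G.Adj a b) :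
    b ∈ insert u A := by
  by_contra hb
  rw [mem_insert, not_or] at hb
  refine h.no a ha b ?_ hab
  rw [mem_sdiff, mem_erase]
  exact ⟨⟨hb.1, hI.supp b a hab.symm⟩, hb.2⟩

theorem Side.u_notMem {G : SimpleGraph V} {S : Finset V} {u : V} {A : Finset V}
    (h : Side G S u A) : u ∉ A := fun hu => by
  have := h.sub hu
  simp at this

theorem Side.sub' {G : SimpleGraph V} {S : Finset V} {u : V} {A : Finset V}
    (h : Side G S u A) : A ⊆ S := h.sub.trans (erase_subset _ _)

theorem Side.inI {G : SimpleGraph V} {S : Finset V} {u : V} {A : Finset V}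
    (h : Side G S u A) (hI : InI G S) (hb : ¬ HasBridge G S) :
    InI (restr G (insert u A)) (insert u A) := by
  refine ⟨⟨fun a b hab => hab.2.1, ⟨u, mem_insert_self _ _⟩, ?_, ?_⟩,
    hubInd_mono (restr_le _ _) hI.2⟩
  · intro T hT hTne hTne'
    have hmem : ∀ v ∈ insert u A, v ∈ S := by
      intro v hv
      rcases mem_insert.1 hv with rfl | hv
      · exact h.hu
      · exact h.sub' hv
    by_cases huT : u ∈ T
    · set T' := (insert u A) \ T with hT'
      have hT'A : T' ⊆ A := by
        intro v hv
        rw [hT', mem_sdiff, mem_insert] at hv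
        rcases hv.1 with rfl | h1
        · exact absurd huT hv.2
        · exact h1
      have hT'ne : T'.Nonempty := by
        rw [hT', sdiff_nonempty]
        intro h'
        exact hTne' (subset_antisymm hT h')
      obtain ⟨a, ha, b, hb', hab⟩ := hI.1.conn T' (hT'A.trans h.sub') hT'ne (by
        rintro h'
        have : u ∈ T' := by rw [h']; exact h.hu
        rw [hT', mem_sdiff] at this
        exact this.2 huT)
      have hbS : b ∈ insert u A := h.nbr hI.1 (hT'A ha) hab
      have haS : a ∈ insert u A := mem_insert_of_mem (hT'A ha)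
      refine ⟨b, ?_, a, ha, ⟨hab.symm, hbS, haS⟩⟩
      by_contra hbT
      exact (mem_sdiff.1 hb').2 (by rw [hT', mem_sdiff]; exact ⟨hbS, hbT⟩)
    · have hTA : T ⊆ A := by
        intro v hv
        rcases mem_insert.1 (hT hv) with rfl | h1
        · exact absurd hv huT
        · exact h1
      obtain ⟨a, ha, b, hb', hab⟩ := hI.1.conn T (hTA.trans h.sub') hTne (by
        rintro h'
        exact huT (by rw [h']; exact h.hu))
      have hbS : b ∈ insert u A := h.nbr hI.1 (hTA ha) hab
      exact ⟨a, ha, b, mem_sdiff.2 ⟨hbS, (mem_sdiff.1 hb').2⟩, hab, hT ha, hbS⟩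
  · intro v hv
    rcases mem_insert.1 hv with rfl | hvA
    · -- the cut vertex
      by_contra hlt
      push Not at hlt
      obtain ⟨a, ha, b, hb', hab⟩ := hI.1.conn A h.sub' h.ne (by
        rintro h'
        exact h.u_notMem (by rw [h']; exact h.hu))
      have hcross : ∀ a ∈ A, ∀ b ∈ S \ A, G.Adj a b → b = v := by
        intro a ha b hb hab
        rcases mem_insert.1 (h.nbr hI.1 ha hab) with h1 | h1
        · exact h1
        · exact absurd h1 (mem_sdiff.1 hb).2
      have hb2 := hcross a ha b hb' hab
      subst hb2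
      have ha' : a ∈ nb (restr G (insert b A)) b := by
        rw [mem_nb]
        exact ⟨hab.symm, mem_insert_self _ _, mem_insert_of_mem ha⟩
      have h1 : (nb (restr G (insert b A)) b).card = 1 := by
        have : 0 < (nb (restr G (insert b A)) b).card := card_pos.2 ⟨a, ha'⟩
        omega
      obtain ⟨a0, ha0⟩ := card_eq_one.1 h1
      refine hb ⟨A, h.sub', a, ha, b, hb', hab, ?_⟩
      intro a' ha'' b' hb'' hab'
      have hb3 := hcross a' ha'' b' hb'' hab'
      subst hb3
      have h2 : a' ∈ nb (restr G (insert b' A)) b' := by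
        rw [mem_nb]
        exact ⟨hab'.symm, mem_insert_self _ _, mem_insert_of_mem ha''⟩
      rw [ha0, mem_singleton] at h2 ha'
      exact ⟨h2.trans ha'.symm, rfl⟩
    · have : nb (restr G (insert u A)) v = nb G v := by
        ext w
        rw [mem_nb, mem_nb]
        exact ⟨fun h' => h'.1, fun h' => ⟨h', hv, h.nbr hI.1 hvA h'⟩⟩
      rw [this]
      exact hI.1.deg v (h.sub' hvA)

/-- gluing of two colourings along `u` -/
theorem glue (hC : Fintype.card C = 5 * q) {G : SimpleGraph V} {S : Finset V} {u : V}
    {A B : Finset V} (hI : InG G S) (hA : Side G S u A) (hB : Side G S u B)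
    (hAB : Disjoint A B) (hS : S = insert u (A ∪ B))
    (h0 : RootAt q q C (restr G (insert u A)) (insert u A) u)
    (h1 : RootAt q (2 * q) C (restr G (insert u B)) (insert u B) u) : Good q C G S := by
  obtain ⟨φ0, hc0, hd0, hm0⟩ := h0
  obtain ⟨φ1', hc1', hd1', hm1'⟩ := h1
  have hmd : ∀ (G' : SimpleGraph V) (φ : V → Finset C) (v : V), Disjoint (miss G' φ v) (φ v) := by
    intro G' φ v
    rw [disjoint_left]
    intro c hc
    exact (mem_miss.1 hc).1
  obtain ⟨π, hπ1, hπ2⟩ := exists_perm_glue (φ0 u) (φ1' u) (miss (restr G (insert u A)) φ0 u)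
    (miss (restr G (insert u B)) φ1' u) (by rw [hc0, hc1']) (hmd _ _ _) (hmd _ _ _) (by
      rw [hc0 u]; omega)
  set φ1 : V → Finset C := fun v => (φ1' v).map π.toEmbedding with hφ1
  have hc1 : IsCol q φ1 := isCol_perm hc1' π
  have hd1 : ∀ v ∈ insert u B, v ≠ u → miss (restr G (insert u B)) φ1 v = ∅ := by
    intro v hv hvu
    rw [hφ1, miss_perm, hd1' v hv hvu]
    simp
  have hdis : Disjoint (miss (restr G (insert u B)) φ1 u) (miss (restr G (insert u A)) φ0 u) := by
    rw [hφ1, miss_perm]
    exact hπ2
  have hu : φ1 u = φ0 u := hπ1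
  refine ⟨fun v => if v ∈ insert u A then φ0 v else φ1 v, ?_, ?_⟩
  · intro v
    dsimp only
    split_ifs
    · exact hc0 v
    · exact hc1 v
  · have e0 : ∀ v ∈ insert u A, (fun v => if v ∈ insert u A then φ0 v else φ1 v) v = φ0 v := by
      intro v hv
      dsimp only
      rw [if_pos hv]
    have e1 : ∀ v ∈ insert u B, (fun v => if v ∈ insert u A then φ0 v else φ1 v) v = φ1 v := by
      intro v hv
      dsimp only
      split_ifs with h
      · rcases mem_insert.1 h with rfl | h
        · exact hu.symm
        · rcases mem_insert.1 hv with rfl | hv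
          · exact hu.symm
          · exact absurd hv (disjoint_left.1 hAB h)
      · rfl
    generalize (fun v => if v ∈ insert u A then φ0 v else φ1 v) = φ at e0 e1
    intro v hv
    rw [eq_empty_iff_forall_notMem]
    intro c hc
    rw [mem_miss] at hc
    have k0 : v ∈ insert u A → c ∈ miss (restr G (insert u A)) φ0 v := by
      intro hvA
      rw [mem_miss]
      refine ⟨by rw [← e0 v hvA]; exact hc.1, fun w hw => ?_⟩
      rw [← e0 w hw.2.2]
      exact hc.2 w hw.1
    have k1 : v ∈ insert u B → c ∈ miss (restr G (insert u B)) φ1 v := by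
      intro hvB
      rw [mem_miss]
      refine ⟨by rw [← e1 v hvB]; exact hc.1, fun w hw => ?_⟩
      rw [← e1 w hw.2.2]
      exact hc.2 w hw.1
    by_cases hvu : v = u
    · subst hvu
      exact disjoint_left.1 hdis (k1 (mem_insert_self _ _)) (k0 (mem_insert_self _ _))
    · rw [hS, mem_insert, mem_union] at hv
      rcases hv with hv | hv | hv
      · exact hvu hv
      · have := k0 (mem_insert_of_mem hv)
        rw [hd0 v (mem_insert_of_mem hv) hvu] at this
        simp at this
      · have := k1 (mem_insert_of_mem hv)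
        rw [hd1 v (mem_insert_of_mem hv) hvu] at this
        simp at this

theorem rootAt_of_TT {G : SimpleGraph V} {S : Finset V} (h : TT q C G S) {r : V} (hr : r ∈ S) :
    RootAt q q C G S r ∨ S.card = 4 := by
  rcases h with ⟨φ, h1, h2⟩ | h | h
  · exact Or.inl ⟨φ, h1, fun v hv _ => h2 v hv, by rw [h2 r hr]; simp⟩
  · obtain ⟨φ, h1, h2, h3, h4⟩ := h.1 r hr
    exact Or.inl ⟨φ, h1, h2, h3⟩
  · exact Or.inr h.1

omit [Fintype V] in
theorem four_cycle_nbrs {H : SimpleGraph V} {u b c d : V} (hn : [u, b, c, d].Nodup)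
    (hE : H.edgeSet = {s(u, b), s(b, c), s(c, d), s(d, u)}) :
    (∀ x, H.Adj b x ↔ x = u ∨ x = c) ∧ (∀ x, H.Adj d x ↔ x = u ∨ x = c) := by
  simp only [List.nodup_cons, List.mem_cons, List.not_mem_nil, or_false, not_or,
      not_false_eq_true, List.nodup_nil, and_true] at hn
  obtain ⟨⟨h1, h2, h3⟩, ⟨h4, h5⟩, h6⟩ := hn
  have hadj : ∀ x y, H.Adj x y ↔ s(x, y) ∈ H.edgeSet := fun x y => Iff.rfl
  constructor
  · intro x
    rw [hadj, hE]
    simp only [Set.mem_insert_iff, Set.mem_singleton_iff, Sym2.eq_iff]
    constructor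
    · rintro ((⟨h, _⟩ | ⟨_, h⟩) | (⟨_, h⟩ | ⟨h, _⟩) | (⟨h, _⟩ | ⟨h, _⟩) | (⟨h, _⟩ | ⟨h, _⟩))
      · exact absurd h.symm h1
      · exact Or.inl h
      · exact Or.inr h
      · exact absurd h h4
      · exact absurd h h4
      · exact absurd h h5
      · exact absurd h h5
      · exact absurd h.symm h1
    · rintro (rfl | rfl)
      · left; right; simp
      · right; left; left; simp
  · intro x
    rw [hadj, hE]
    simp only [Set.mem_insert_iff, Set.mem_singleton_iff, Sym2.eq_iff]
    constructor
    · rintro ((⟨h, _⟩ | ⟨h, _⟩) | (⟨h, _⟩ | ⟨h, _⟩) | (⟨h, _⟩ | ⟨_, h⟩) | (⟨_, h⟩ | ⟨h, _⟩))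
      · exact absurd h.symm h3
      · exact absurd h.symm h5
      · exact absurd h.symm h5
      · exact absurd h.symm h6
      · exact absurd h.symm h6
      · exact Or.inr h
      · exact Or.inl h
      · exact absurd h.symm h3
    · rintro (rfl | rfl)
      · right; right; right; left; simp
      · right; right; left; right; simp

end StepCut

open StepCut

theorem step_cut (hC : Fintype.card C = 5 * q) {G : SimpleGraph V} {S : Finset V}
    (hI : InI G S) (hb : ¬ HasBridge G S) (hc : HasCut G S) (ih : IH V q C S.card) :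
    TT q C G S := by
  have hcut := hc
  obtain ⟨u, hu, A, hAS, hAne, hAne', hno⟩ := hc
  set B := (S.erase u) \ A with hB
  have hBne : B.Nonempty := by
    rw [hB, sdiff_nonempty]
    intro h'
    exact hAne' (subset_antisymm hAS h')
  have sA : Side G S u A := ⟨hu, hAS, hAne, hno⟩
  have sB : Side G S u B := by
    refine ⟨hu, sdiff_subset, hBne, ?_⟩
    intro a ha b hb' hab
    have hbA : b ∈ A := by
      rw [hB] at hb'
      simp only [mem_sdiff, mem_erase, not_and, not_not] at hb'
      exact hb'.2 hb'.1
    exact hno b hbA a ha hab.symm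
  have hAB : Disjoint A B := disjoint_sdiff
  have hS : S = insert u (A ∪ B) := by
    rw [hB, union_sdiff_of_subset hAS, insert_erase hu]
  have hS' : S = insert u (B ∪ A) := by rw [union_comm]; exact hS
  have cS : S.card = A.card + B.card + 1 := by
    rw [hS, card_insert_of_notMem, card_union_of_disjoint hAB]
    rw [mem_union, not_or]
    exact ⟨sA.u_notMem, sB.u_notMem⟩
  have cA : (insert u A).card = A.card + 1 := card_insert_of_notMem sA.u_notMem
  have cB : (insert u B).card = B.card + 1 := card_insert_of_notMem sB.u_notMem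
  have pA := card_pos.2 hAne
  have pB := card_pos.2 hBne
  have iA := sA.inI hI hb
  have iB := sB.inI hI hb
  have tA : TT q C _ _ := ih _ _ iA (by omega)
  have tB : TT q C _ _ := ih _ _ iB (by omega)
  rcases rootAt_of_TT tA (mem_insert_self u A) with rA | c4A
  · exact Or.inl (glue hC hI.1 sA sB hAB hS rA (tB.rootAt (mem_insert_self u B)))
  rcases rootAt_of_TT tB (mem_insert_self u B) with rB | c4B
  · exact Or.inl (glue hC hI.1 sB sA hAB.symm hS' rB (tA.rootAt (mem_insert_self u A)))
  -- both sides are 4-cycles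
  obtain ⟨b, c, d, hn, hSA, hEA⟩ := four_cycle_of_card iA c4A (mem_insert_self u A)
  obtain ⟨e, f, g, hn', hSB, hEB⟩ := four_cycle_of_card iB c4B (mem_insert_self u B)
  have hAeq : ∀ x, x ∈ A ↔ x = b ∨ x = c ∨ x = d := by
    intro x
    constructor
    · intro hx
      have : x ∈ insert u A := mem_insert_of_mem hx
      rw [hSA] at this
      simp only [mem_insert, mem_singleton] at this
      rcases this with rfl | h
      · exact absurd hx sA.u_notMem
      · exact h
    · intro hx
      have : x ∈ insert u A := by rw [hSA]; simp only [mem_insert, mem_singleton]; tauto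
      rcases mem_insert.1 this with rfl | h
      · simp at hn
        tauto
      · exact h
  have hBeq : ∀ x, x ∈ B ↔ x = e ∨ x = f ∨ x = g := by
    intro x
    constructor
    · intro hx
      have : x ∈ insert u B := mem_insert_of_mem hx
      rw [hSB] at this
      simp only [mem_insert, mem_singleton] at this
      rcases this with rfl | h
      · exact absurd hx sB.u_notMem
      · exact h
    · intro hx
      have : x ∈ insert u B := by rw [hSB]; simp only [mem_insert, mem_singleton]; tauto
      rcases mem_insert.1 this with rfl | h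
      · simp at hn'
        tauto
      · exact h
  have hdisj : ∀ x, x ∈ A → x ∉ B := fun x h1 h2 => disjoint_left.1 hAB h1 h2
  have hbA := (hAeq b).2 (by tauto)
  have hcA := (hAeq c).2 (by tauto)
  have hdA := (hAeq d).2 (by tauto)
  have heB := (hBeq e).2 (by tauto)
  have hfB := (hBeq f).2 (by tauto)
  have hgB := (hBeq g).2 (by tauto)
  have hnod : [u, b, c, d, e, f, g].Nodup := by
    have aux : ∀ x ∈ A, ∀ y ∈ B, x ≠ y := by
      rintro x hx y hy rfl
      exact hdisj x hx hy
    have h1 := aux b hbA e heB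
    have h2 := aux b hbA f hfB
    have h3 := aux b hbA g hgB
    have h4 := aux c hcA e heB
    have h5 := aux c hcA f hfB
    have h6 := aux c hcA g hgB
    have h7 := aux d hdA e heB
    have h8 := aux d hdA f hfB
    have h9 := aux d hdA g hgB
    simp only [List.nodup_cons, List.mem_cons, List.not_mem_nil, or_false, not_or,
      not_false_eq_true, List.nodup_nil, and_true] at hn hn' ⊢
    tauto
  have hSeq : S = {u, b, c, d, e, f, g} := by
    ext x
    rw [hS, mem_insert, mem_union, hAeq, hBeq]
    simp only [mem_insert, mem_singleton]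
    tauto
  have hadj : ∀ x y, G.Adj x y ↔ (restr G (insert u A)).Adj x y ∨ (restr G (insert u B)).Adj x y := by
    intro x y
    constructor
    · intro h
      have hx := hI.1.supp x y h
      have hy := hI.1.supp y x h.symm
      rw [hS, mem_insert, mem_union] at hx hy
      rcases hx with rfl | hx | hx
      · rcases hy with rfl | hy | hy
        · exact absurd rfl h.ne
        · exact Or.inl ⟨h, mem_insert_self _ _, mem_insert_of_mem hy⟩
        · exact Or.inr ⟨h, mem_insert_self _ _, mem_insert_of_mem hy⟩
      · exact Or.inl ⟨h, mem_insert_of_mem hx, sA.nbr hI.1 hx h⟩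
      · exact Or.inr ⟨h, mem_insert_of_mem hx, sB.nbr hI.1 hx h⟩
    · rintro (h | h)
      · exact h.1
      · exact h.1
  have hE : G.edgeSet = {s(u, b), s(b, c), s(c, d), s(d, u), s(u, e), s(e, f), s(f, g), s(g, u)} := by
    have : G.edgeSet = (restr G (insert u A)).edgeSet ∪ (restr G (insert u B)).edgeSet := by
      ext p
      induction p with
      | _ x y =>
        rw [Set.mem_union, SimpleGraph.mem_edgeSet, SimpleGraph.mem_edgeSet,
          SimpleGraph.mem_edgeSet]
        exact hadj x y
    rw [this, hEA, hEB]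
    ext p
    simp only [Set.mem_union, Set.mem_insert_iff, Set.mem_singleton_iff]
    tauto
  refine Or.inr (Or.inl ⟨base_C44 hC G S u b c d e f g hnod hSeq hE, by omega, Or.inl ?_,
    Or.inr hcut⟩)
  have hbS : b ∈ S := by rw [hSeq]; simp
  have hdS : d ∈ S := by rw [hSeq]; simp
  have nbA : ∀ v ∈ A, ∀ x, G.Adj v x ↔ (restr G (insert u A)).Adj v x := by
    intro v hv x
    exact ⟨fun h' => ⟨h', mem_insert_of_mem hv, sA.nbr hI.1 hv h'⟩, fun h' => h'.1⟩
  obtain ⟨k1, k2⟩ := four_cycle_nbrs hn hEA
  have nbb : nb G b = {u, c} := by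
    ext x
    rw [mem_nb, nbA b hbA, k1]
    simp
  have nbd : nb G d = {u, c} := by
    ext x
    rw [mem_nb, nbA d hdA, k2]
    simp
  simp only [List.nodup_cons, List.mem_cons, List.not_mem_nil, or_false, not_or,
      not_false_eq_true, List.nodup_nil, and_true] at hn
  refine ⟨b, hbS, d, hdS, hn.2.1.2, ?_, by rw [nbb, nbd]⟩
  rw [nbb, card_pair hn.1.2.1]

end Pool.Agent.Lib.MP_db02ae_co
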