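import Pool.Agent.Lib.MP_db02ae_co.SetLemmas

open Finset
open scoped Classical

namespace Pool.Agent.Lib.MP_db02ae_co

variable {V : Type} [Fintype V] {C : Type} [Fintype C] {q : ℕ}

/-- a graph with few edges has a proper colouring with few colours -/
theorem exists_proper_colouring (H : SimpleGraph V) (m : ℕ)
    (h : 2 * H.edgeFinset.card < m * (m + 1)) : ∃ c : V → Fin m, ∀ a b, H.Adj a b → c a ≠ c b := by
  have hm : 0 < m := by
    rcases Nat.eq_zero_or_pos m with rfl | hm
    · simp at h
    · exact hm
  have key : ∀ S : Finset V, ∃ c : V → Fin m, ∀ a ∈ S, ∀ b ∈ S, H.Adj a b → c a ≠ c b := by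
    intro S
    induction hS : S.card using Nat.strong_induction_on generalizing S with
    | _ n ih =>
      rcases S.eq_empty_or_nonempty with rfl | hne
      · exact ⟨fun _ => ⟨0, hm⟩, by simp⟩
      · obtain ⟨v, hv, hlt⟩ : ∃ v ∈ S, (S.filter fun w => H.Adj v w).card < m := by
          by_contra hcon
          push Not at hcon
          obtain ⟨v₀, hv₀⟩ := hne
          have h1 : m + 1 ≤ S.card := by
            have h2 := hcon v₀ hv₀
            have h3 : (S.filter fun w => H.Adj v₀ w) ⊆ S.erase v₀ := by
              intro w hw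
              rw [Finset.mem_filter] at hw
              rw [Finset.mem_erase]
              exact ⟨fun he => H.loopless.irrefl _ (he ▸ hw.2), hw.1⟩
            have h4 := Finset.card_le_card h3
            have h5 : 0 < S.card := Finset.card_pos.mpr ⟨v₀, hv₀⟩
            rw [Finset.card_erase_of_mem hv₀] at h4
            omega
          have h2 : S.card * m ≤ ∑ v ∈ S, (S.filter fun w => H.Adj v w).card := by
            rw [← smul_eq_mul]
            exact Finset.card_nsmul_le_sum _ _ _ hcon
          have h3 : ∑ v ∈ S, (S.filter fun w => H.Adj v w).card ≤ ∑ v : V, H.degree v := by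
            refine (Finset.sum_le_sum (g := fun v => H.degree v) fun v _ => ?_).trans
              (Finset.sum_le_sum_of_subset (Finset.subset_univ S))
            rw [← SimpleGraph.card_neighborFinset_eq_degree]
            apply Finset.card_le_card
            intro w hw
            rw [Finset.mem_filter] at hw
            rw [SimpleGraph.mem_neighborFinset]
            exact hw.2
          rw [SimpleGraph.sum_degrees_eq_twice_card_edges] at h3
          have h4 : (m + 1) * m ≤ S.card * m := Nat.mul_le_mul_right _ h1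
          have h5 : (m + 1) * m = m * (m + 1) := by ring
          omega
        obtain ⟨c, hc⟩ := ih (S.erase v).card (by
          rw [Finset.card_erase_of_mem hv]
          have : 0 < S.card := Finset.card_pos.mpr ⟨v, hv⟩
          omega) (S.erase v) rfl
        obtain ⟨k, hk⟩ : ∃ k : Fin m, k ∉ (S.filter fun w => H.Adj v w).image c := by
          by_contra hcon
          push Not at hcon
          have h1 : (univ : Finset (Fin m)) ⊆ (S.filter fun w => H.Adj v w).image c :=
            fun k _ => hcon k
          have h2 := (Finset.card_le_card h1).trans Finset.card_image_le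
          simp at h2
          omega
        refine ⟨Function.update c v k, ?_⟩
        intro a ha b hb hab
        by_cases hav : a = v
        · subst hav
          have hba : b ≠ a := fun he => H.loopless.irrefl _ (he ▸ hab)
          rw [Function.update_self, Function.update_of_ne hba]
          intro he
          apply hk
          rw [Finset.mem_image]
          exact ⟨b, by rw [Finset.mem_filter]; exact ⟨hb, hab⟩, he.symm⟩
        · by_cases hbv : b = v
          · subst hbv
            rw [Function.update_self, Function.update_of_ne hav]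
            intro he
            apply hk
            rw [Finset.mem_image]
            exact ⟨a, by rw [Finset.mem_filter]; exact ⟨ha, hab.symm⟩, he⟩
          · rw [Function.update_of_ne hav, Function.update_of_ne hbv]
            exact hc a (Finset.mem_erase.mpr ⟨hav, ha⟩) b (Finset.mem_erase.mpr ⟨hbv, hb⟩) hab
  obtain ⟨c, hc⟩ := key univ
  exact ⟨c, fun a b hab => hc a (Finset.mem_univ _) b (Finset.mem_univ _) hab⟩

/-- the graph joining two vertices which are the two neighbours of some vertex -/
def final_graph (G : SimpleGraph V) : SimpleGraph V where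
  Adj a b := a ≠ b ∧ ∃ x, nb G x = {a, b}
  symm := ⟨fun a b h => ⟨h.1.symm, by
    obtain ⟨x, hx⟩ := h.2
    exact ⟨x, by rw [hx, Finset.pair_comm]⟩⟩⟩
  loopless := ⟨fun a h => h.1 rfl⟩

theorem final_card (G : SimpleGraph V) : (final_graph G).edgeFinset.card ≤ Fintype.card V := by
  have hx : ∀ e : Sym2 V, e ∈ (final_graph G).edgeFinset → ∃ x, ∀ z, z ∈ nb G x ↔ z ∈ e := by
    intro e
    induction e using Sym2.ind with
    | _ a b =>
      intro he
      rw [SimpleGraph.mem_edgeFinset, SimpleGraph.mem_edgeSet] at he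
      obtain ⟨_, x, hx⟩ := he
      refine ⟨x, fun z => ?_⟩
      rw [hx, Sym2.mem_iff]
      simp
  have : Nonempty V ∨ IsEmpty V := by
    rcases isEmpty_or_nonempty V with h | h
    · exact Or.inr h
    · exact Or.inl h
  rcases this with hne | hemp
  · choose! f hf using hx
    have := Finset.card_le_card_of_injOn (s := (final_graph G).edgeFinset)
      (t := (univ : Finset V)) f (fun _ _ => Finset.mem_univ _) (by
        intro e he e' he' hee
        apply Sym2.ext
        intro z
        rw [← hf e (by simpa using he) z, hee, hf e' (by simpa using he') z])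
    simpa using this
  · rw [Finset.card_eq_zero.mpr]
    · exact Nat.zero_le _
    · rw [Finset.eq_empty_iff_forall_notMem]
      intro e he
      obtain ⟨x, _⟩ := hx e he
      exact hemp.elim x

theorem final_pair {G : SimpleGraph V} {x : V} (hx : (nb G x).card = 2) {a b : V}
    (ha : G.Adj x a) (hb : G.Adj x b) (hab : a ≠ b) : nb G x = {a, b} := by
  symm
  apply Finset.eq_of_subset_of_card_le
  · intro z hz
    rw [Finset.mem_insert, Finset.mem_singleton] at hz
    rw [mem_nb]
    rcases hz with rfl | rfl
    · exact ha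
    · exact hb
  · rw [hx, Finset.card_pair hab]

/-- all hubs have an ear of length 3 parallel to an ear of length 2 -/
theorem step_final (hC : Fintype.card C = 5 * q) {G : SimpleGraph V} {S : Finset V}
    (hI : InI G S) (h3 : ∀ x y z, ¬ Run3 G x y z)
    (he : ∀ a x y b, Ear3 G a x y b → a ≠ b ∧ ∃ m, G.Adj a m ∧ G.Adj b m)
    (hk : ∀ u, ¬ KHub G u) (hH : HadProp q C (Fintype.card V)) : Good q C G S := by
  obtain ⟨m, F, hm, hF, hFF⟩ := hH
  obtain ⟨c, hc⟩ := exists_proper_colouring (final_graph G) m (by
    have := final_card G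
    omega)
  obtain ⟨hG, hhub⟩ := hI
  -- vertices of degree 2
  have hdeg2 : ∀ x ∈ S, ¬ 3 ≤ (nb G x).card → (nb G x).card = 2 := by
    intro x hx h
    have := hG.deg x hx
    omega
  have hmemS : ∀ {a b}, G.Adj a b → a ∈ S := fun {a b} h => hG.supp a b h
  have hαβ : ∀ x, x ∈ S → ¬ 3 ≤ (nb G x).card →
      ∃ a y, nb G x = {a, y} ∧ a ≠ y ∧ 3 ≤ (nb G a).card := by
    intro x hx h
    have h2 := hdeg2 x hx h
    obtain ⟨a, y, hay, hn⟩ := Finset.card_eq_two.mp h2
    have hxa : G.Adj x a := by rw [← mem_nb, hn]; simp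
    have hxy : G.Adj x y := by rw [← mem_nb, hn]; simp
    by_cases ha : 3 ≤ (nb G a).card
    · exact ⟨a, y, hn, hay, ha⟩
    · by_cases hy : 3 ≤ (nb G y).card
      · exact ⟨y, a, by rw [hn, Finset.pair_comm], hay.symm, hy⟩
      · exfalso
        exact h3 a x y ⟨hxa.symm, hxy, hay, hdeg2 a (hmemS hxa.symm) ha, h2,
          hdeg2 y (hmemS hxy.symm) hy⟩
  choose! α β hnb hne hhα using hαβ
  have hadjα : ∀ x, x ∈ S → ¬ 3 ≤ (nb G x).card → G.Adj x (α x) := by
    intro x hx h
    rw [← mem_nb, hnb x hx h]; simp
  have hadjβ : ∀ x, x ∈ S → ¬ 3 ≤ (nb G x).card → G.Adj x (β x) := by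
    intro x hx h
    rw [← mem_nb, hnb x hx h]; simp
  have hβS : ∀ x, x ∈ S → ¬ 3 ≤ (nb G x).card → β x ∈ S := fun x hx h =>
    hmemS (hadjβ x hx h).symm
  have hββ : ∀ x, x ∈ S → ¬ 3 ≤ (nb G x).card → ¬ 3 ≤ (nb G (β x)).card → β (β x) = x := by
    intro x hx h h'
    have h1 : x ∈ nb G (β x) := by rw [mem_nb]; exact (hadjβ x hx h).symm
    rw [hnb (β x) (hβS x hx h) h', Finset.mem_insert, Finset.mem_singleton] at h1
    rcases h1 with h1 | h1
    · exfalso
      have := hhα (β x) (hβS x hx h) h'
      rw [← h1] at this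
      exact h this
    · exact h1.symm
  -- ears of length 3
  have hear : ∀ x, x ∈ S → ¬ 3 ≤ (nb G x).card → ¬ 3 ≤ (nb G (β x)).card →
      Ear3 G (α x) x (β x) (α (β x)) := by
    intro x hx h h'
    refine ⟨(hadjα x hx h).symm, hadjβ x hx h, hadjα (β x) (hβS x hx h) h', hne x hx h, ?_,
      hdeg2 x hx h, hdeg2 _ (hβS x hx h) h'⟩
    intro heq
    have := hhα (β x) (hβS x hx h) h'
    rw [heq] at this
    exact h this
  -- a common neighbour of two hubs
  have hcommon : ∀ a b z, 3 ≤ (nb G a).card → a ≠ b → G.Adj a z → G.Adj b z →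
      ¬ 3 ≤ (nb G z).card ∧ z ∈ S ∧ nb G z = {a, b} := by
    intro a b z ha hab haz hbz
    have hz : ¬ 3 ≤ (nb G z).card := by
      rcases hhub a z haz with h | h <;> omega
    have hzS : z ∈ S := hmemS haz.symm
    exact ⟨hz, hzS, final_pair (hdeg2 z hzS hz) haz.symm hbz.symm hab⟩
  have hcol2 : ∀ x, x ∈ S → ¬ 3 ≤ (nb G x).card → c (α x) ≠ c (β x) := by
    intro x hx h
    exact hc _ _ ⟨hne x hx h, x, hnb x hx h⟩
  have hcol3 : ∀ x, x ∈ S → ¬ 3 ≤ (nb G x).card → ¬ 3 ≤ (nb G (β x)).card →
      c (α x) ≠ c (α (β x)) := by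
    intro x hx h h'
    obtain ⟨hab, z, haz, hbz⟩ := he _ _ _ _ (hear x hx h h')
    obtain ⟨_, _, hnz⟩ := hcommon _ _ z (hhα x hx h) hab haz hbz
    exact hc _ _ ⟨hab, z, hnz⟩
  -- halves
  have hhalf : ∀ R : Finset C, ∃ R' ⊆ R, R'.card = R.card / 2 := fun R =>
    Finset.exists_subset_card_eq (Nat.div_le_self _ _)
  choose half hhalf_sub hhalf_card using hhalf
  set ι : V → ℕ := fun v => (Fintype.equivFin V v : ℕ) with hι
  have hιinj : ∀ a b, ι a = ι b → a = b := by
    intro a b hab
    exact (Fintype.equivFin V).injective (Fin.ext hab)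
  set A : V → Finset C := fun v => F (c v) with hA
  set R : V → Finset C := fun x => univ \ (A (α x) ∪ A (α (β x))) with hR
  set φ : V → Finset C := fun x =>
    if 3 ≤ (nb G x).card then A x
    else if x ∈ S then
      (if 3 ≤ (nb G (β x)).card then univ \ (A (α x) ∪ A (β x))
        else (A (α (β x)) \ A (α x)) ∪ (if ι x < ι (β x) then half (R x) else R x \ half (R x)))
    else A x with hφ
  have hcardA : ∀ v, (A v).card = 2 * q := fun v => hF _
  have hcardAA : ∀ a b, c a ≠ c b → (univ \ (A a ∪ A b)).card = 2 * q := by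
    intro a b hab
    have h1 := Finset.card_union_add_card_inter (A a) (A b)
    have h2 : (A a ∩ A b).card = q := hFF _ _ hab
    rw [Finset.card_sdiff_of_subset (Finset.subset_univ _), Finset.card_univ, hC]
    rw [h2, hcardA, hcardA] at h1
    omega
  have hcardsd : ∀ a b, c a ≠ c b → (A b \ A a).card = q := by
    intro a b hab
    have h2 : (A a ∩ A b).card = q := hFF _ _ hab
    have h3 := Finset.card_sdiff_add_card_inter (A b) (A a)
    rw [Finset.inter_comm, h2, hcardA] at h3
    omega
  have hcol : IsCol q φ := by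
    intro v
    simp only [hφ]
    split_ifs with h1 h2 h3' h4
    · exact hcardA v
    · exact hcardAA _ _ (hcol2 v h2 h1)
    · have h5 := hcardAA _ _ (hcol3 v h2 h1 h3')
      rw [Finset.card_union_of_disjoint, hcardsd _ _ (hcol3 v h2 h1 h3'), hhalf_card]
      · have : (R v).card = 2 * q := h5
        omega
      · rw [Finset.disjoint_left]
        intro z hz hz'
        have hz2 := hhalf_sub _ hz'
        simp only [hR, Finset.mem_sdiff, Finset.mem_union, Finset.mem_univ, true_and] at hz2
        rw [Finset.mem_sdiff] at hz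
        exact hz2 (Or.inr hz.1)
    · have h5 := hcardAA _ _ (hcol3 v h2 h1 h3')
      rw [Finset.card_union_of_disjoint, hcardsd _ _ (hcol3 v h2 h1 h3'),
        Finset.card_sdiff_of_subset (hhalf_sub _), hhalf_card]
      · have : (R v).card = 2 * q := h5
        omega
      · rw [Finset.disjoint_left]
        intro z hz hz'
        rw [Finset.mem_sdiff] at hz'
        have hz2 := hz'.1
        simp only [hR, Finset.mem_sdiff, Finset.mem_union, Finset.mem_univ, true_and] at hz2
        rw [Finset.mem_sdiff] at hz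
        exact hz2 (Or.inr hz.1)
    · exact hcardA v
  have hφhub : ∀ v, 3 ≤ (nb G v).card → φ v = A v := by
    intro v hv
    simp only [hφ]
    rw [if_pos hv]
  have hφ2 : ∀ v, v ∈ S → ¬ 3 ≤ (nb G v).card → 3 ≤ (nb G (β v)).card →
      φ v = univ \ (A (α v) ∪ A (β v)) := by
    intro v hv h h'
    simp only [hφ]
    rw [if_neg h, if_pos hv, if_pos h']
  have hφ3 : ∀ v, v ∈ S → ¬ 3 ≤ (nb G v).card → ¬ 3 ≤ (nb G (β v)).card →
      φ v = (A (α (β v)) \ A (α v)) ∪
        (if ι v < ι (β v) then half (R v) else R v \ half (R v)) := by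
    intro v hv h h'
    simp only [hφ]
    rw [if_neg h, if_pos hv, if_neg h']
  refine ⟨φ, hcol, fun v hv => ?_⟩
  rw [Finset.eq_empty_iff_forall_notMem]
  intro z hz
  rw [mem_miss] at hz
  obtain ⟨hz1, hz2⟩ := hz
  by_cases hv3 : 3 ≤ (nb G v).card
  · -- hub
    have hkv := hk v
    rw [KHub] at hkv
    push Not at hkv
    obtain ⟨x, y, hvx, hxy, hyv, hy⟩ := hkv hv3
    have hxS : x ∈ S := hmemS hvx.symm
    have hx3 : ¬ 3 ≤ (nb G x).card := by
      rcases hhub v x hvx with h | h <;> omega
    have hy3 : ¬ 3 ≤ (nb G y).card := by omega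
    have hnx : nb G x = {v, y} := final_pair (hdeg2 x hxS hx3) hvx.symm hxy hyv.symm
    have hαx : α x = v := by
      have h1 : α x ∈ nb G x := by rw [hnb x hxS hx3]; simp
      rw [hnx, Finset.mem_insert, Finset.mem_singleton] at h1
      rcases h1 with h1 | h1
      · exact h1
      · exfalso
        have := hhα x hxS hx3
        rw [h1] at this
        exact hy3 this
    have hβx : β x = y := by
      have h1 : β x ∈ nb G x := by rw [hnb x hxS hx3]; simp
      rw [hnx, Finset.mem_insert, Finset.mem_singleton] at h1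
      rcases h1 with h1 | h1
      · exfalso
        exact hne x hxS hx3 (by rw [hαx, h1])
      · exact h1
    have hβx3 : ¬ 3 ≤ (nb G (β x)).card := by rw [hβx]; exact hy3
    obtain ⟨hab, w, haw, hbw⟩ := he _ _ _ _ (hear x hxS hx3 hβx3)
    obtain ⟨hw3, hwS, hnw⟩ := hcommon _ _ w (hhα x hxS hx3) hab haw hbw
    have hbhub : 3 ≤ (nb G (α (β x))).card := hhα _ (hβS x hxS hx3) hβx3
    have hahub : 3 ≤ (nb G (α x)).card := hhα x hxS hx3
    have hβw : 3 ≤ (nb G (β w)).card := by
      have h1 : β w ∈ nb G w := by rw [hnb w hwS hw3]; simp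
      rw [hnw, Finset.mem_insert, Finset.mem_singleton] at h1
      rcases h1 with h1 | h1 <;> rw [h1] <;> assumption
    have hpair : A (α w) ∪ A (β w) = A (α x) ∪ A (α (β x)) := by
      have h0 : ({α w, β w} : Finset V) = {α x, α (β x)} := by rw [← hnb w hwS hw3, hnw]
      have h1 : ({α w, β w} : Finset V).biUnion A = ({α x, α (β x)} : Finset V).biUnion A := by
        rw [h0]
      simpa using h1
    have hzv : z ∉ A v := by rw [← hφhub v hv3]; exact hz1
    have hzx : z ∉ φ x := hz2 x hvx
    have hzw : z ∉ φ w := hz2 w (by rw [← hαx]; exact haw)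
    rw [hφ3 x hxS hx3 hβx3, Finset.mem_union, Finset.mem_sdiff] at hzx
    rw [hφ2 w hwS hw3 hβw, hpair, Finset.mem_sdiff, Finset.mem_union] at hzw
    rw [hαx] at hzx hzw
    push Not at hzx hzw
    have h5 := hzw (Finset.mem_univ _)
    rcases h5 with h5 | h5
    · exact hzv h5
    · exact hzv (hzx.1 h5)
  · have hvα := hadjα v hv hv3
    have hvβ := hadjβ v hv hv3
    have hzα : z ∉ A (α v) := by
      rw [← hφhub _ (hhα v hv hv3)]
      exact hz2 _ hvα
    by_cases hβ3 : 3 ≤ (nb G (β v)).card
    · have hzβ : z ∉ A (β v) := by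
        rw [← hφhub _ hβ3]
        exact hz2 _ hvβ
      rw [hφ2 v hv hv3 hβ3, Finset.mem_sdiff, Finset.mem_union] at hz1
      exact hz1 ⟨Finset.mem_univ _, by rintro (h | h) <;> contradiction⟩
    · have hβS' := hβS v hv hv3
      have hzβ := hz2 _ hvβ
      have hββv : β (β v) = v := hββ v hv hv3 hβ3
      have hRR : R (β v) = R v := by
        simp only [hR]
        rw [hββv, Finset.union_comm]
      have hββ3 : ¬ 3 ≤ (nb G (β (β v))).card := by rw [hββv]; exact hv3
      rw [hφ3 (β v) hβS' hβ3 hββ3, hββv, hRR, Finset.mem_union, Finset.mem_sdiff] at hzβ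
      rw [hφ3 v hv hv3 hβ3, Finset.mem_union, Finset.mem_sdiff] at hz1
      push Not at hzβ hz1
      have hzB : z ∉ A (α (β v)) := fun h => hzα (hz1.1 h)
      have hzR : z ∈ R v := by
        simp only [hR, Finset.mem_sdiff, Finset.mem_union, Finset.mem_univ, true_and]
        rintro (h | h) <;> contradiction
      have hne' : ι v ≠ ι (β v) := by
        intro h
        have := hιinj _ _ h
        exact hvβ.ne this
      have h6 := hz1.2
      have h7 := hzβ.2
      by_cases hlt : ι v < ι (β v)
      · rw [if_pos hlt] at h6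
        rw [if_neg (by omega), Finset.mem_sdiff] at h7
        exact h7 ⟨hzR, h6⟩
      · rw [if_neg hlt, Finset.mem_sdiff] at h6
        rw [if_pos (by omega)] at h7
        exact h6 ⟨hzR, h7⟩

end Pool.Agent.Lib.MP_db02ae_co
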