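import Pool.Agent.Lib.MP_db02ae_co.SetLemmas

open Finset
open scoped Classical

namespace Pool.Agent.Lib.MP_db02ae_co

variable {V : Type} [Fintype V] {C : Type} [Fintype C] {q : ℕ}

namespace KHubAux

lemma nb_restr {G : SimpleGraph V} {S : Finset V} {w : V} (hw : w ∈ S) :
    nb (restr G S) w = nb G w ∩ S := by
  ext a
  simp only [mem_nb, restr, mem_inter]
  tauto

lemma nb_restr_sub (G : SimpleGraph V) (S : Finset V) (w : V) :
    nb (restr G S) w ⊆ nb G w := by
  intro a
  simp only [mem_nb, restr]
  tauto

/-- the vertices of a 2-regular bipartite graph come in equal numbers -/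
lemma even_of_bip {G' : SimpleGraph V} {S' A : Finset V} (hA : A ⊆ S')
    (hsupp : ∀ a b, G'.Adj a b → a ∈ S')
    (h2 : ∀ v ∈ S', (nb G' v).card = 2)
    (hbip : ∀ a b, G'.Adj a b → (a ∈ A ↔ b ∉ A)) : Even S'.card := by
  have key := Finset.sum_card_bipartiteAbove_eq_sum_card_bipartiteBelow
    (s := A) (t := S' \ A) (fun a b => G'.Adj a b)
  have e1 : ∀ a ∈ A, ((S' \ A).bipartiteAbove (fun a b => G'.Adj a b) a).card = 2 := by
    intro a ha
    rw [← h2 a (hA ha)]
    congr 1
    ext b
    simp only [Finset.mem_bipartiteAbove, mem_sdiff, mem_nb]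
    constructor
    · exact fun h => h.2
    · intro h
      exact ⟨⟨hsupp b a h.symm, (hbip a b h).1 ha⟩, h⟩
  have e2 : ∀ b ∈ S' \ A, (A.bipartiteBelow (fun a b => G'.Adj a b) b).card = 2 := by
    intro b hb
    rw [mem_sdiff] at hb
    rw [← h2 b hb.1]
    congr 1
    ext a
    simp only [Finset.mem_bipartiteBelow, mem_nb]
    constructor
    · exact fun h => h.2.symm
    · intro h
      refine ⟨(hbip a b h.symm).2 hb.2, h.symm⟩
  rw [Finset.sum_congr rfl e1, Finset.sum_congr rfl e2] at key
  simp only [Finset.sum_const, smul_eq_mul] at key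
  have h3 : A.card = (S' \ A).card := by omega
  have h4 : (S' \ A).card + A.card = S'.card := Finset.card_sdiff_add_card_eq_card hA
  exact ⟨A.card, by omega⟩

end KHubAux

open KHubAux

/-- deletion of a hub all of whose ears have length 2 -/
theorem step_khub (hC : Fintype.card C = 5 * q) {G : SimpleGraph V} {S : Finset V}
    (hI : InI G S) (hc : ¬ HasCut G S) (ht : ¬ Twins G S)
    (h3 : ∀ x y z, ¬ Run3 G x y z)
    (he : ∀ a x y b, Ear3 G a x y b → a ≠ b ∧ ∃ m, G.Adj a m ∧ G.Adj b m)
    {u : V} (hu : KHub G u) (hK : KHubProp q C (Fintype.card V)) (ih : IH V q C S.card) :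
    Good q C G S := by
  obtain ⟨hG, hH⟩ := hI
  obtain ⟨hu3, hu'⟩ := hu
  have hsupp2 : ∀ a b, G.Adj a b → b ∈ S := fun a b h => hG.supp b a h.symm
  -- neighbours of hubs have degree two
  have hdeg2 : ∀ a x, 3 ≤ (nb G a).card → G.Adj a x → (nb G x).card = 2 := by
    intro a x ha hax
    have h1 := hG.deg x (hsupp2 a x hax)
    rcases hH a x hax with h | h <;> omega
  obtain ⟨x₀, hx₀⟩ : (nb G u).Nonempty := Finset.card_pos.1 (by omega)
  rw [mem_nb] at hx₀
  have huS : u ∈ S := hG.supp u x₀ hx₀
  -- the other end
  have hv : ∀ x, G.Adj u x → ∃ v, v ≠ u ∧ nb G x = {u, v} := by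
    intro x hx
    have h2 := hdeg2 u x hu3 hx
    rw [Finset.card_eq_two] at h2
    obtain ⟨a, b, hab, hN⟩ := h2
    have hmem : u ∈ nb G x := by rw [mem_nb]; exact hx.symm
    rw [hN] at hmem
    simp only [mem_insert, mem_singleton] at hmem
    rcases hmem with h | h
    · exact ⟨b, by rw [h]; exact hab.symm, by rw [hN, h]⟩
    · exact ⟨a, by rw [h]; exact hab, by rw [hN, h, Finset.pair_comm]⟩
  choose! v hvu hNx using hv
  have hvadj : ∀ x, G.Adj u x → G.Adj x (v x) := by
    intro x hx
    rw [← mem_nb, hNx x hx]; simp
  have hvhub : ∀ x, G.Adj u x → 3 ≤ (nb G (v x)).card :=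
    fun x hx => hu' x (v x) hx (hvadj x hx) (hvu x hx)
  have hvS : ∀ x, G.Adj u x → v x ∈ S := fun x hx => hsupp2 x _ (hvadj x hx)
  have hvnot : ∀ x, G.Adj u x → ¬ G.Adj u (v x) := by
    intro x hx h
    have := hdeg2 u (v x) hu3 h
    have := hvhub x hx
    omega
  have hvinj : ∀ x y, G.Adj u x → G.Adj u y → v x = v y → x = y := by
    intro x y hx hy hxy
    by_contra hne
    exact ht ⟨x, hsupp2 u x hx, y, hsupp2 u y hy, hne, hdeg2 u x hu3 hx, by
      rw [hNx x hx, hNx y hy, hxy]⟩
  -- the smaller graph
  set S' : Finset V := S.filter (fun w => w ≠ u ∧ ¬ G.Adj u w) with hS'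
  have memS' : ∀ w, w ∈ S' ↔ w ∈ S ∧ w ≠ u ∧ ¬ G.Adj u w := by
    intro w; rw [hS', mem_filter]
  have hS'S : ∀ w ∈ S', w ∈ S := fun w hw => ((memS' w).1 hw).1
  set G' := restr G S' with hG'
  have adjG' : ∀ a b, G'.Adj a b ↔ G.Adj a b ∧ a ∈ S' ∧ b ∈ S' := fun a b => Iff.rfl
  have hvS' : ∀ x, G.Adj u x → v x ∈ S' := fun x hx =>
    (memS' _).2 ⟨hvS x hx, hvu x hx, hvnot x hx⟩
  -- neighbours outside
  have hout : ∀ w ∈ S', ∀ b, G.Adj w b → b ∉ S' → G.Adj u b ∧ v b = w := by
    intro w hw b hwb hb
    rw [memS'] at hw
    have hbS := hsupp2 w b hwb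
    have hbu : b ≠ u := by
      rintro rfl; exact hw.2.2 hwb.symm
    have hub : G.Adj u b := by
      by_contra h
      exact hb ((memS' b).2 ⟨hbS, hbu, h⟩)
    refine ⟨hub, ?_⟩
    have hmem : w ∈ nb G b := by rw [mem_nb]; exact hwb.symm
    rw [hNx b hub] at hmem
    simp only [mem_insert, mem_singleton] at hmem
    rcases hmem with h | h
    · exact absurd h hw.2.1
    · exact h.symm
  have hdeg' : ∀ w ∈ S', 2 ≤ (nb G' w).card := by
    intro w hw
    by_cases hx : ∃ x, G.Adj u x ∧ v x = w
    · obtain ⟨x, hx, rfl⟩ := hx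
      have h1 : (nb G (v x)).erase x ⊆ nb G' (v x) := by
        intro b hb
        rw [mem_erase, mem_nb] at hb
        rw [mem_nb, adjG']
        refine ⟨hb.2, hw, ?_⟩
        by_contra hb'
        obtain ⟨h1, h2⟩ := hout _ hw b hb.2 hb'
        exact hb.1 (hvinj b x h1 hx h2)
      have h2 := Finset.card_le_card h1
      have h3 := Finset.pred_card_le_card_erase (s := nb G (v x)) (a := x)
      have h4 := hvhub x hx
      omega
    · have h1 : nb G w ⊆ nb G' w := by
        intro b hb
        rw [mem_nb] at hb
        rw [mem_nb, adjG']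
        refine ⟨hb, hw, ?_⟩
        by_contra hb'
        obtain ⟨h1, h2⟩ := hout _ hw b hb hb'
        exact hx ⟨b, h1, h2⟩
      exact (hG.deg w (hS'S w hw)).trans (Finset.card_le_card h1)
  -- vertices of degree two keep their neighbours
  have hkeep : ∀ w ∈ S', (nb G w).card = 2 → nb G' w = nb G w := by
    intro w hw h2
    apply Finset.eq_of_subset_of_card_le (nb_restr_sub G S' w)
    rw [h2]; exact hdeg' w hw
  have hInI : InI G' S' := by
    refine ⟨⟨fun a b h => h.2.1, ⟨v x₀, hvS' x₀ hx₀⟩, ?_, hdeg'⟩, ?_⟩
    · intro A hA hAne hAS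
      by_contra hcon
      push Not at hcon
      apply hc
      refine ⟨u, huS, A ∪ (nb G u).filter (fun x => v x ∈ A), ?_, ?_, ?_, ?_⟩
      · intro a ha
        rw [mem_union, mem_filter, mem_nb] at ha
        rw [mem_erase]
        rcases ha with ha | ha
        · have := (memS' a).1 (hA ha)
          exact ⟨this.2.1, this.1⟩
        · exact ⟨fun h => G.ne_of_adj ha.1 h.symm, hsupp2 u a ha.1⟩
      · obtain ⟨a, ha⟩ := hAne
        exact ⟨a, mem_union_left _ ha⟩
      · intro heq
        apply hAS
        apply Finset.Subset.antisymm hA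
        intro b hb
        have hb' := (memS' b).1 hb
        have : b ∈ S.erase u := mem_erase.2 ⟨hb'.2.1, hb'.1⟩
        rw [← heq, mem_union, mem_filter, mem_nb] at this
        rcases this with h | h
        · exact h
        · exact absurd h.1 hb'.2.2
      · intro a ha b hb hab
        rw [mem_union, mem_filter, mem_nb] at ha
        rw [mem_sdiff, mem_erase, mem_union, mem_filter, mem_nb] at hb
        obtain ⟨⟨hbu, hbS⟩, hbn⟩ := hb
        push Not at hbn
        rcases ha with ha | ⟨ha, hva⟩
        · by_cases hbS' : b ∈ S'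
          · exact hcon a ha b (mem_sdiff.2 ⟨hbS', hbn.1⟩) ⟨hab, hA ha, hbS'⟩
          · obtain ⟨h1, h2⟩ := hout a (hA ha) b hab hbS'
            exact hbn.2 h1 (h2 ▸ ha)
        · have hmem : b ∈ nb G a := by rw [mem_nb]; exact hab
          rw [hNx a ha] at hmem
          simp only [mem_insert, mem_singleton] at hmem
          rcases hmem with h | h
          · exact hbu h
          · exact hbn.1 (h ▸ hva)
    · intro a b hab
      rcases hH a b hab.1 with h | h
      · exact Or.inl ((Finset.card_le_card (nb_restr_sub G S' a)).trans h)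
      · exact Or.inr ((Finset.card_le_card (nb_restr_sub G S' b)).trans h)
  have hcard : S'.card < S.card := by
    apply Finset.card_lt_card
    rw [Finset.ssubset_iff_of_subset (Finset.filter_subset _ _)]
    exact ⟨u, huS, fun h => ((memS' u).1 h).2.1 rfl⟩
  -- no twins
  have hnt : ¬ Twins G' S' := by
    rintro ⟨p, hp, p', hp', hne, hp2, hpp⟩
    -- if one of them is a hub, its two neighbours are twins of `G`
    have aux : ∀ p ∈ S', ∀ p' ∈ S', p ≠ p' → (nb G' p).card = 2 → nb G' p = nb G' p' →
        (nb G p).card = 2 := by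
      intro p hp p' hp' hne hp2 hpp
      by_contra hcard
      have h2 := hG.deg p (hS'S p hp)
      have hp3 : 3 ≤ (nb G p).card := by omega
      rw [Finset.card_eq_two] at hp2
      obtain ⟨s, t, hst, hN⟩ := hp2
      have key : ∀ s, s ∈ nb G' p → s ∈ S ∧ (nb G s).card = 2 ∧ nb G s = {p, p'} := by
        intro s hs
        have hs' : s ∈ nb G' p' := by rw [← hpp]; exact hs
        rw [mem_nb, adjG'] at hs hs'
        have hs2 := hdeg2 p s hp3 hs.1
        refine ⟨hS'S s hs.2.2, hs2, ?_⟩
        symm
        apply Finset.eq_of_subset_of_card_le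
        · intro z hz
          simp only [mem_insert, mem_singleton] at hz
          rw [mem_nb]
          rcases hz with rfl | rfl
          · exact hs.1.symm
          · exact hs'.1.symm
        · rw [hs2, Finset.card_pair hne]
      obtain ⟨s1, s2, s3⟩ := key s (by rw [hN]; simp)
      obtain ⟨t1, t2, t3⟩ := key t (by rw [hN]; simp)
      exact ht ⟨s, s1, t, t1, hst, s2, by rw [s3, t3]⟩
    have h1 := aux p hp p' hp' hne hp2 hpp
    have h2 := aux p' hp' p hp hne.symm (by rw [← hpp]; exact hp2) hpp.symm
    exact ht ⟨p, hS'S p hp, p', hS'S p' hp', hne, h1, by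
      rw [← hkeep p hp h1, ← hkeep p' hp' h2, hpp]⟩
  -- not a 7-cycle
  have hn7 : ¬ (S'.card = 7 ∧ ∀ v ∈ S', (nb G' v).card = 2) := by
    rintro ⟨h7, hreg⟩
    -- neighbours of non-hubs are hubs
    have hnn : ∀ x ∈ S', (nb G x).card = 2 → ∀ y, G.Adj x y → 3 ≤ (nb G y).card := by
      intro x hx hx2 y hxy
      by_contra hy3
      have hyS := hsupp2 x y hxy
      have hy2 : (nb G y).card = 2 := by
        have := hG.deg y hyS; omega
      have hyS' : y ∈ S' := by
        have : y ∈ nb G' x := by rw [hkeep x hx hx2, mem_nb]; exact hxy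
        rw [mem_nb, adjG'] at this
        exact this.2.2
      have other : ∀ x y, (nb G x).card = 2 → G.Adj x y → ∃ a, a ≠ y ∧ G.Adj x a ∧
          nb G x = {y, a} := by
        intro x y hx2 hxy
        rw [Finset.card_eq_two] at hx2
        obtain ⟨a, b, hab, hN⟩ := hx2
        have hmem : y ∈ nb G x := by rw [mem_nb]; exact hxy
        rw [hN] at hmem
        simp only [mem_insert, mem_singleton] at hmem
        rcases hmem with h | h
        · exact ⟨b, by rw [h]; exact hab.symm, by rw [← mem_nb, hN]; simp, by rw [hN, h]⟩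
        · exact ⟨a, by rw [h]; exact hab, by rw [← mem_nb, hN]; simp,
            by rw [hN, h, Finset.pair_comm]⟩
      obtain ⟨a, hay, hxa, hNx'⟩ := other x y hx2 hxy
      obtain ⟨b, hbx, hyb, hNy⟩ := other y x hy2 hxy.symm
      have ha3 : 3 ≤ (nb G a).card := by
        have h1 := hG.deg a (hsupp2 x a hxa)
        have h2 : (nb G a).card ≠ 2 := fun h =>
          h3 a x y ⟨hxa.symm, hxy, hay, h, hx2, hy2⟩
        omega
      have hb3 : 3 ≤ (nb G b).card := by
        have h1 := hG.deg b (hsupp2 y b hyb)
        have h2 : (nb G b).card ≠ 2 := fun h =>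
          h3 x y b ⟨hxy, hyb, hbx.symm, hx2, hy2, h⟩
        omega
      obtain ⟨hab, m, ham, hbm⟩ := he a x y b ⟨hxa.symm, hxy, hyb, hay, hbx, hx2, hy2⟩
      have hm2 := hdeg2 a m ha3 ham
      have hNm : nb G m = {a, b} := by
        symm
        apply Finset.eq_of_subset_of_card_le
        · intro z hz
          simp only [mem_insert, mem_singleton] at hz
          rw [mem_nb]
          rcases hz with rfl | rfl
          · exact ham.symm
          · exact hbm.symm
        · rw [hm2, Finset.card_pair hab]
      have haS' : a ∈ S' := by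
        have : a ∈ nb G' x := by rw [hkeep x hx hx2, mem_nb]; exact hxa
        rw [mem_nb, adjG'] at this
        exact this.2.2
      have hbS' : b ∈ S' := by
        have : b ∈ nb G' y := by rw [hkeep y hyS' hy2, mem_nb]; exact hyb
        rw [mem_nb, adjG'] at this
        exact this.2.2
      have hmS' : m ∈ S' := by
        rw [memS']
        refine ⟨hsupp2 a m ham, ?_, ?_⟩
        · rintro rfl
          omega
        · intro hum
          have : u ∈ nb G m := by rw [mem_nb]; exact hum.symm
          rw [hNm] at this
          simp only [mem_insert, mem_singleton] at this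
          rcases this with h | h
          · exact ((memS' a).1 haS').2.1 h.symm
          · exact ((memS' b).1 hbS').2.1 h.symm
      have hxm : x ≠ m := by
        rintro rfl
        have : b ∈ nb G x := by rw [hNm]; simp
        rw [hNx'] at this
        simp only [mem_insert, mem_singleton] at this
        rcases this with h | h
        · rw [h] at hyb; exact G.loopless.irrefl _ hyb
        · exact hab h.symm
      have hym : y ≠ m := by
        rintro rfl
        have : a ∈ nb G y := by rw [hNm]; simp
        rw [hNy] at this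
        simp only [mem_insert, mem_singleton] at this
        rcases this with h | h
        · rw [h] at hxa; exact G.loopless.irrefl _ hxa
        · exact hab h
      have pairEq : ∀ z s t, z ∈ S' → s ∈ S' → t ∈ S' → s ≠ t → G.Adj z s → G.Adj z t →
          nb G' z = {s, t} := by
        intro z s t hz hs ht hst hzs hzt
        symm
        apply Finset.eq_of_subset_of_card_le
        · intro w hw
          simp only [mem_insert, mem_singleton] at hw
          rw [mem_nb, adjG']
          rcases hw with rfl | rfl
          · exact ⟨hzs, hz, hs⟩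
          · exact ⟨hzt, hz, ht⟩
        · rw [hreg z hz, Finset.card_pair hst]
      have Na := pairEq a x m haS' hx hmS' hxm hxa.symm ham
      have Nb := pairEq b y m hbS' hyS' hmS' hym hyb.symm hbm
      have Nx := pairEq x a y hx haS' hyS' hay hxa hxy
      have Ny := pairEq y x b hyS' hx hbS' hbx.symm hxy.symm hyb
      have Nm := pairEq m a b hmS' haS' hbS' hab ham.symm hbm.symm
      -- closed set
      have hcl : ({a, x, y, b, m} : Finset V) = S' := by
        by_contra hne
        obtain ⟨s, hs, t, ht', hst⟩ := hInI.1.conn {a, x, y, b, m} (by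
          intro z hz
          simp only [mem_insert, mem_singleton] at hz
          rcases hz with rfl | rfl | rfl | rfl | rfl <;> assumption) ⟨a, by simp⟩ hne
        rw [← mem_nb] at hst
        rw [mem_sdiff] at ht'
        apply ht'.2
        simp only [mem_insert, mem_singleton] at hs ⊢
        rcases hs with rfl | rfl | rfl | rfl | rfl
        · rw [Na] at hst; simp only [mem_insert, mem_singleton] at hst; tauto
        · rw [Nx] at hst; simp only [mem_insert, mem_singleton] at hst; tauto
        · rw [Ny] at hst; simp only [mem_insert, mem_singleton] at hst; tauto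
        · rw [Nb] at hst; simp only [mem_insert, mem_singleton] at hst; tauto
        · rw [Nm] at hst; simp only [mem_insert, mem_singleton] at hst; tauto
      have hle : ({a, x, y, b, m} : Finset V).card ≤ 5 := Finset.card_le_five
      rw [hcl, h7] at hle
      omega
    have hev : Even S'.card := by
      apply even_of_bip (G' := G') (A := S'.filter (fun w => 3 ≤ (nb G w).card))
        (Finset.filter_subset _ _) (fun a b h => h.2.1) hreg
      intro a b hab
      rw [adjG'] at hab
      simp only [mem_filter]
      constructor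
      · rintro ⟨_, ha3⟩ ⟨_, hb3⟩
        rcases hH a b hab.1 with h | h <;> omega
      · intro h
        refine ⟨hab.2.1, ?_⟩
        have hb3 : ¬ 3 ≤ (nb G b).card := fun h' => h ⟨hab.2.2, h'⟩
        have hb2 : (nb G b).card = 2 := by
          have := hG.deg b (hS'S b hab.2.2); omega
        exact hnn b hab.2.2 hb2 a hab.1.symm
    rw [h7] at hev
    exact absurd hev (by decide)
  -- the colouring of the smaller graph
  have hgood : Good q C G' S' := by
    rcases ih G' S' hInI hcard with h | h | h
    · exact h
    · rcases h.2.2.1 with h' | h'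
      · exact absurd h' hnt
      · exact absurd h' hn7
    · exact absurd h.2.1 hnt
  obtain ⟨φ, hφ, hdom⟩ := hgood
  obtain ⟨U, X, hU, hX, hUX⟩ := hK V (nb G u) (fun x => φ (v x)) hu3
    (Finset.card_le_univ _) (fun i _ => hφ _)
  refine ⟨fun w => if w = u then U else if G.Adj u w then X w else φ w, ?_, ?_⟩
  · intro w
    dsimp only
    split_ifs with h1 h2
    · exact hU
    · exact (hX w (by rw [mem_nb]; exact h2)).1
    · exact hφ w
  · intro w hw
    rw [Finset.eq_empty_iff_forall_notMem]
    intro c hc'
    rw [mem_miss] at hc'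
    obtain ⟨hc1, hc2⟩ := hc'
    by_cases hwu : w = u
    · subst hwu
      have hmem : c ∈ U ∪ (nb G w).biUnion X := by rw [hUX]; exact mem_univ c
      rw [mem_union, mem_biUnion] at hmem
      rcases hmem with h | ⟨x, hx, h⟩
      · apply hc1; simpa using h
      · rw [mem_nb] at hx
        have := hc2 x hx
        apply this
        have hne : x ≠ w := (G.ne_of_adj hx).symm
        simp only [if_neg hne, if_pos hx]
        exact h
    · by_cases huw : G.Adj u w
      · have hmem : c ∈ U ∪ X w ∪ φ (v w) := by
          rw [(hX w (by rw [mem_nb]; exact huw)).2]; exact mem_univ c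
        rw [mem_union, mem_union] at hmem
        rcases hmem with (h | h) | h
        · have := hc2 u huw.symm
          apply this
          simpa using h
        · apply hc1
          simp only [if_neg hwu, if_pos huw]
          exact h
        · have := hc2 (v w) (hvadj w huw)
          apply this
          simp only [if_neg (hvu w huw), if_neg (hvnot w huw)]
          exact h
      · have hwS' : w ∈ S' := (memS' w).2 ⟨hw, hwu, huw⟩
        have h0 := hdom w hwS'
        rw [Finset.eq_empty_iff_forall_notMem] at h0
        apply h0 c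
        rw [mem_miss]
        refine ⟨?_, ?_⟩
        · simp only [if_neg hwu, if_neg huw] at hc1
          exact hc1
        · intro z hz
          rw [adjG'] at hz
          have := hc2 z hz.1
          have hz' := (memS' z).1 hz.2.2
          simp only [if_neg hz'.2.1, if_neg hz'.2.2] at this
          exact this

end Pool.Agent.Lib.MP_db02ae_co
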