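import Pool.Agent.Lib.MP_db02ae_co.SetLemmas

open Finset
open scoped Classical

namespace Pool.Agent.Lib.MP_db02ae_co

variable {V : Type} [Fintype V] {C : Type} [Fintype C] {q : ℕ}

namespace Run2Aux

lemma other_nb {G : SimpleGraph V} {x y : V} (hx2 : (nb G x).card = 2) (hxy : G.Adj x y) :
    ∃ a, a ≠ y ∧ G.Adj x a ∧ nb G x = {y, a} := by
  rw [Finset.card_eq_two] at hx2
  obtain ⟨a, b, hab, hN⟩ := hx2
  have hmem : y ∈ nb G x := by rw [mem_nb]; exact hxy
  rw [hN] at hmem
  simp only [mem_insert, mem_singleton] at hmem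
  rcases hmem with h | h
  · exact ⟨b, by rw [h]; exact hab.symm, by rw [← mem_nb, hN]; simp, by rw [hN, h]⟩
  · exact ⟨a, by rw [h]; exact hab, by rw [← mem_nb, hN]; simp,
      by rw [hN, h, Finset.pair_comm]⟩

lemma nb_eq_pair {G : SimpleGraph V} {x a b : V} (hx2 : (nb G x).card = 2) (ha : G.Adj x a)
    (hb : G.Adj x b) (hab : a ≠ b) : nb G x = {a, b} := by
  symm
  apply Finset.eq_of_subset_of_card_le
  · intro z hz
    simp only [mem_insert, mem_singleton] at hz
    rw [mem_nb]
    rcases hz with rfl | rfl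
    · exact ha
    · exact hb
  · rw [hx2, Finset.card_pair hab]

/-- the graph obtained by deleting `x, y, b` and joining `a` to the other neighbours of `b` -/
def contr (G : SimpleGraph V) (S' : Finset V) (a b y : V) (hab : ¬ G.Adj b a) :
    SimpleGraph V where
  Adj p r := (G.Adj p r ∧ p ∈ S' ∧ r ∈ S') ∨ (p = a ∧ G.Adj b r ∧ r ≠ y) ∨
    (r = a ∧ G.Adj b p ∧ p ≠ y)
  symm := ⟨by
    intro p r h
    rcases h with h | h | h
    · exact Or.inl ⟨h.1.symm, h.2.2, h.2.1⟩
    · exact Or.inr (Or.inr h)
    · exact Or.inr (Or.inl h)⟩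
  loopless := ⟨by
    intro p h
    rcases h with h | ⟨h, h', _⟩ | ⟨h, h', _⟩
    · exact G.loopless.irrefl _ h.1
    · exact hab (h ▸ h')
    · exact hab (h ▸ h')⟩

end Run2Aux

open Run2Aux

/-- contraction of an ear of length 3 whose ends have no common neighbour -/
theorem step_run2 (hC : Fintype.card C = 5 * q) {G : SimpleGraph V} {S : Finset V}
    (hI : InI G S) (h3 : ∀ x y z, ¬ Run3 G x y z) {a x y b : V} (he : Ear3 G a x y b)
    (hab : a ≠ b) (hm : ∀ m, G.Adj a m → ¬ G.Adj b m) (ih : IH V q C S.card) :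
    Good q C G S := by
  obtain ⟨hG, hH⟩ := hI
  obtain ⟨hax, hxy, hyb, hay, hbx, hx2, hy2⟩ := he
  have hsupp2 : ∀ a b, G.Adj a b → b ∈ S := fun a b h => hG.supp b a h.symm
  have hdeg2 : ∀ a x, 3 ≤ (nb G a).card → G.Adj a x → (nb G x).card = 2 := by
    intro a x ha hax
    have h1 := hG.deg x (hsupp2 a x hax)
    rcases hH a x hax with h | h <;> omega
  have hNx : nb G x = {a, y} := nb_eq_pair hx2 hax.symm hxy hay
  have hNy : nb G y = {x, b} := nb_eq_pair hy2 hxy.symm hyb hbx.symm
  have hx_ne : ∀ w, G.Adj x w → w = a ∨ w = y := by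
    intro w hw
    rw [← mem_nb, hNx] at hw
    simpa using hw
  have hy_ne : ∀ w, G.Adj y w → w = x ∨ w = b := by
    intro w hw
    rw [← mem_nb, hNy] at hw
    simpa using hw
  have haS : a ∈ S := hG.supp a x hax
  have hxS : x ∈ S := hG.supp x y hxy
  have hyS : y ∈ S := hG.supp y b hyb
  have hbS : b ∈ S := hsupp2 y b hyb
  have hxa : x ≠ a := (G.ne_of_adj hax).symm
  have hxy' : x ≠ y := G.ne_of_adj hxy
  have hyb' : y ≠ b := G.ne_of_adj hyb
  have ha3 : 3 ≤ (nb G a).card := by
    have h1 := hG.deg a haS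
    have h2 : (nb G a).card ≠ 2 := fun h => h3 a x y ⟨hax, hxy, hay, h, hx2, hy2⟩
    omega
  have hb3 : 3 ≤ (nb G b).card := by
    have h1 := hG.deg b hbS
    have h2 : (nb G b).card ≠ 2 := fun h => h3 x y b ⟨hxy, hyb, hbx.symm, hx2, hy2, h⟩
    omega
  have hnab : ¬ G.Adj b a := by
    intro h
    rcases hH b a h with h | h <;> omega
  set S' : Finset V := S.filter (fun w => w ≠ x ∧ w ≠ y ∧ w ≠ b) with hS'
  have memS' : ∀ w, w ∈ S' ↔ w ∈ S ∧ w ≠ x ∧ w ≠ y ∧ w ≠ b := by
    intro w; rw [hS', mem_filter]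
  set G' := contr G S' a b y hnab with hG'
  have adjG' : ∀ p r, G'.Adj p r ↔ (G.Adj p r ∧ p ∈ S' ∧ r ∈ S') ∨
    (p = a ∧ G.Adj b r ∧ r ≠ y) ∨ (r = a ∧ G.Adj b p ∧ p ≠ y) := fun p r => Iff.rfl
  have haS' : a ∈ S' := (memS' a).2 ⟨haS, hxa.symm, hay, hab⟩
  -- neighbours of `b`
  have hbnb : ∀ r, G.Adj b r → r ≠ y → r ∈ S' := by
    intro r hr hry
    refine (memS' r).2 ⟨hsupp2 b r hr, ?_, hry, (G.ne_of_adj hr).symm⟩
    rintro rfl
    rcases hx_ne b hr.symm with h | h
    · exact hab h.symm
    · exact hyb' h.symm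
  -- neighbours of `a`
  have hanb : ∀ r, G.Adj a r → r ≠ x → r ∈ S' := by
    intro r hr hrx
    refine (memS' r).2 ⟨hsupp2 a r hr, hrx, ?_, ?_⟩
    · rintro rfl
      rcases hy_ne a hr.symm with h | h
      · exact hxa h.symm
      · exact hab h
    · rintro rfl
      exact hnab hr.symm
  -- neighbours of the other vertices in `G'`
  have hnbo : ∀ w ∈ S', w ≠ a → ¬ G.Adj b w → nb G' w = nb G w := by
    intro w hw hwa hbw
    have hw' := (memS' w).1 hw
    ext z
    rw [mem_nb, mem_nb, adjG']
    constructor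
    · rintro (h | h | h)
      · exact h.1
      · exact absurd h.1 hwa
      · exact absurd h.2.1 hbw
    · intro h
      refine Or.inl ⟨h, hw, (memS' z).2 ⟨hsupp2 w z h, ?_, ?_, ?_⟩⟩
      · rintro rfl
        rcases hx_ne w h.symm with h' | h'
        · exact hwa h'
        · exact hw'.2.2.1 h'
      · rintro rfl
        rcases hy_ne w h.symm with h' | h'
        · exact hw'.2.1 h'
        · exact hw'.2.2.2 h'
      · rintro rfl
        exact hbw h.symm
  have hnbb : ∀ w, G.Adj b w → w ≠ y → (nb G' w).card = 2 ∧ (nb G w).card = 2 := by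
    intro w hbw hwy
    have hw := hbnb w hbw hwy
    have hw' := (memS' w).1 hw
    have hw2 := hdeg2 b w hb3 hbw
    obtain ⟨w', hw'b, hww', hNw⟩ := other_nb hw2 hbw.symm
    have hwa : w ≠ a := by rintro rfl; exact hnab hbw
    have hw'S' : w' ∈ S' := by
      refine (memS' w').2 ⟨hsupp2 w w' hww', ?_, ?_, hw'b⟩
      · rintro rfl
        rcases hx_ne w hww'.symm with h | h
        · exact hwa h
        · exact hwy h
      · rintro rfl
        rcases hy_ne w hww'.symm with h | h
        · exact hw'.2.1 h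
        · exact hw'.2.2.2 h
    have hw'a : w' ≠ a := by
      rintro rfl
      exact hm w hww'.symm hbw
    have : nb G' w = {w', a} := by
      ext z
      rw [mem_nb, adjG']
      simp only [mem_insert, mem_singleton]
      constructor
      · rintro (h | h | h)
        · have hz : z ∈ nb G w := by rw [mem_nb]; exact h.1
          rw [hNw] at hz
          simp only [mem_insert, mem_singleton] at hz
          rcases hz with hz | hz
          · exact absurd hz ((memS' z).1 h.2.2).2.2.2
          · exact Or.inl hz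
        · exact absurd h.1 hwa
        · exact Or.inr h.1
      · rintro (h | h)
        · rw [h]
          exact Or.inl ⟨hww', hw, hw'S'⟩
        · exact Or.inr (Or.inr ⟨h, hbw, hwy⟩)
    exact ⟨by rw [this, Finset.card_pair hw'a], hw2⟩
  have hanb' : (nb G a).erase x ∪ (nb G b).erase y ⊆ nb G' a := by
    intro z hz
    rw [mem_union, mem_erase, mem_erase, mem_nb, mem_nb] at hz
    rw [mem_nb, adjG']
    rcases hz with hz | hz
    · exact Or.inl ⟨hz.2, haS', hanb z hz.2 hz.1⟩
    · exact Or.inr (Or.inl ⟨rfl, hz.2, hz.1⟩)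
  have hacard : 4 ≤ (nb G' a).card := by
    have h1 := Finset.card_le_card hanb'
    rw [Finset.card_union_of_disjoint, Finset.card_erase_of_mem, Finset.card_erase_of_mem] at h1
    · omega
    · rw [mem_nb]; exact hyb.symm
    · rw [mem_nb]; exact hax
    · rw [Finset.disjoint_left]
      intro z hz hz'
      rw [mem_erase, mem_nb] at hz hz'
      exact hm z hz.2 hz'.2
  have hdle : ∀ w ∈ S', w ≠ a → (nb G' w).card = (nb G w).card := by
    intro w hw hwa
    by_cases hbw : G.Adj b w
    · have hwy : w ≠ y := ((memS' w).1 hw).2.2.1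
      obtain ⟨h1, h2⟩ := hnbb w hbw hwy
      rw [h1, h2]
    · rw [hnbo w hw hwa hbw]
  -- neighbours of `a` in `G'` have degree two
  have hanb2 : ∀ z, G'.Adj a z → (nb G' z).card = 2 := by
    intro z hz
    have hza : z ≠ a := (G'.ne_of_adj hz).symm
    rw [adjG'] at hz
    rcases hz with hz | hz | hz
    · rw [hdle z hz.2.2 hza]
      exact hdeg2 a z ha3 hz.1
    · exact (hnbb z hz.2.1 hz.2.2).1
    · exact absurd hz.1 hza
  have hsupp' : ∀ p r, G'.Adj p r → p ∈ S' := by
    intro p r h
    rw [adjG'] at h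
    rcases h with h | h | h
    · exact h.2.1
    · rw [h.1]; exact haS'
    · exact hbnb p h.2.1 h.2.2
  have hInI : InI G' S' := by
    refine ⟨⟨hsupp', ⟨a, haS'⟩, ?_, ?_⟩, ?_⟩
    · intro A hA hAne hAS
      by_contra hcon
      push Not at hcon
      by_cases haA : a ∈ A
      · -- add x, y, b to A
        obtain ⟨p, hp, r, hr, hpr⟩ := hG.conn (A ∪ {x, y, b}) (by
          intro z hz
          simp only [mem_union, mem_insert, mem_singleton] at hz
          rcases hz with hz | rfl | rfl | rfl
          · exact ((memS' z).1 (hA hz)).1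
          all_goals assumption) ⟨a, mem_union_left _ haA⟩ (by
          intro heq
          apply hAS
          apply Finset.Subset.antisymm hA
          intro z hz
          have hz' := (memS' z).1 hz
          have : z ∈ A ∪ {x, y, b} := by rw [heq]; exact hz'.1
          simp only [mem_union, mem_insert, mem_singleton] at this
          rcases this with h | h | h | h
          · exact h
          · exact absurd h hz'.2.1
          · exact absurd h hz'.2.2.1
          · exact absurd h hz'.2.2.2)
        rw [mem_sdiff] at hr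
        simp only [mem_union, mem_insert, mem_singleton, not_or] at hp hr
        obtain ⟨hrS, hrA, hrx, hry, hrb⟩ := hr
        have hrS' : r ∈ S' := (memS' r).2 ⟨hrS, hrx, hry, hrb⟩
        rcases hp with hp | rfl | rfl | rfl
        · exact hcon p hp r (mem_sdiff.2 ⟨hrS', hrA⟩) (Or.inl ⟨hpr, hA hp, hrS'⟩)
        · rcases hx_ne r hpr with h | h
          · exact hrA (h ▸ haA)
          · exact hry h
        · rcases hy_ne r hpr with h | h
          · exact hrx h
          · exact hrb h
        · exact hcon a haA r (mem_sdiff.2 ⟨hrS', hrA⟩) (Or.inr (Or.inl ⟨rfl, hpr, hry⟩))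
      · obtain ⟨p, hp, r, hr, hpr⟩ := hG.conn A (fun z hz => ((memS' z).1 (hA hz)).1) hAne (by
          rintro rfl
          exact haA haS)
        rw [mem_sdiff] at hr
        have hpS' := hA hp
        have hp' := (memS' p).1 hpS'
        by_cases hrS' : r ∈ S'
        · exact hcon p hp r (mem_sdiff.2 ⟨hrS', hr.2⟩) (Or.inl ⟨hpr, hpS', hrS'⟩)
        · have : r = x ∨ r = y ∨ r = b := by
            by_contra h
            push Not at h
            exact hrS' ((memS' r).2 ⟨hr.1, h.1, h.2.1, h.2.2⟩)
          rcases this with rfl | rfl | rfl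
          · rcases hx_ne p hpr.symm with h | h
            · exact haA (h ▸ hp)
            · exact hp'.2.2.1 h
          · rcases hy_ne p hpr.symm with h | h
            · exact hp'.2.1 h
            · exact hp'.2.2.2 h
          · exact hcon p hp a (mem_sdiff.2 ⟨haS', haA⟩)
              (Or.inr (Or.inr ⟨rfl, hpr.symm, hp'.2.2.1⟩))
    · intro w hw
      by_cases hwa : w = a
      · rw [hwa]; omega
      · rw [hdle w hw hwa]
        exact hG.deg w ((memS' w).1 hw).1
    · intro p r hpr
      by_cases hpa : p = a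
      · subst hpa
        right
        exact (hanb2 r hpr).le
      · by_cases hra : r = a
        · subst hra
          left
          exact (hanb2 p hpr.symm).le
        · have hpS' := hsupp' p r hpr
          have hrS' := hsupp' r p hpr.symm
          rw [hdle p hpS' hpa, hdle r hrS' hra]
          rw [adjG'] at hpr
          rcases hpr with h | h | h
          · exact hH p r h.1
          · exact absurd h.1 hpa
          · exact absurd h.1 hra
  have hcard : S'.card < S.card := by
    apply Finset.card_lt_card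
    rw [Finset.ssubset_iff_of_subset (Finset.filter_subset _ _)]
    exact ⟨b, hbS, fun h => ((memS' b).1 h).2.2.2 rfl⟩
  have hsemi : SemiAt q C G' S' a := by
    rcases ih G' S' hInI hcard with h | h | h
    · obtain ⟨φ, hφ, hd⟩ := h
      refine ⟨φ, hφ, fun v hv _ => hd v hv, ?_, ?_⟩
      · rw [hd a haS']; simp
      · intro z hz
        have hzS' := hsupp' z a hz.symm
        rw [Finset.inter_comm]
        exact inter_le_of_deg2 hC hφ (hanb2 z hz) (hd z hzS') hz.symm
    · exact h.1 a haS'
    · exfalso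
      have h1 : nb G' a ⊆ S'.erase a := by
        intro z hz
        rw [mem_nb] at hz
        exact mem_erase.2 ⟨(G'.ne_of_adj hz).symm, hsupp' z a hz.symm⟩
      have h2 := Finset.card_le_card h1
      rw [Finset.card_erase_of_mem haS', h.1] at h2
      omega
  obtain ⟨φ, hφ, hdom, hmiss, hint⟩ := hsemi
  -- the sets of the three-split
  have hbig : ∀ (D : Finset C) (z : V), G'.Adj a z → φ z ⊆ D → q ≤ (D \ φ a).card := by
    intro D z hz hzD
    have h1 := hint z hz
    have h2 : (φ z \ φ a).card + (φ z ∩ φ a).card = (φ z).card :=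
      Finset.card_sdiff_add_card_inter _ _
    rw [hφ z, Finset.inter_comm] at h2
    have h4 : (φ z \ φ a).card ≤ (D \ φ a).card :=
      Finset.card_le_card (Finset.sdiff_subset_sdiff hzD (Finset.Subset.refl _))
    omega
  obtain ⟨z₁, hz₁⟩ : ((nb G a).erase x).Nonempty := by
    rw [← Finset.card_pos, Finset.card_erase_of_mem (by rw [mem_nb]; exact hax)]
    omega
  obtain ⟨z₂, hz₂⟩ : ((nb G b).erase y).Nonempty := by
    rw [← Finset.card_pos, Finset.card_erase_of_mem (by rw [mem_nb]; exact hyb.symm)]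
    omega
  have hz₁' : G'.Adj a z₁ := by
    rw [← mem_nb]; exact hanb' (mem_union_left _ hz₁)
  have hz₂' : G'.Adj a z₂ := by
    rw [← mem_nb]; exact hanb' (mem_union_right _ hz₂)
  obtain ⟨X, Y, hX, hY, hWXY, h1X, h2Y⟩ := exists_split3 hC (φ a)
    (((nb G a).erase x).biUnion φ) (((nb G b).erase y).biUnion φ) (hφ a)
    (hbig _ z₁ hz₁' (Finset.subset_biUnion_of_mem φ hz₁))
    (hbig _ z₂ hz₂' (Finset.subset_biUnion_of_mem φ hz₂)) (by
      refine le_trans (Finset.card_le_card ?_) hmiss
      intro c hc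
      rw [mem_sdiff, mem_union, mem_union, mem_biUnion, mem_biUnion] at hc
      rw [mem_miss]
      obtain ⟨_, hc⟩ := hc
      push Not at hc
      obtain ⟨⟨hc1, hc2⟩, hc3⟩ := hc
      refine ⟨hc1, ?_⟩
      intro w hw
      rw [adjG'] at hw
      rcases hw with hw | hw | hw
      · apply hc2
        rw [mem_erase, mem_nb]
        exact ⟨((memS' w).1 hw.2.2).2.1, hw.1⟩
      · apply hc3
        rw [mem_erase, mem_nb]
        exact ⟨hw.2.2, hw.2.1⟩
      · rw [hw.1]; exact hc1)
  set ψ : V → Finset C := fun w => if w = b then φ a else if w = x then X else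
    if w = y then Y else φ w with hψ
  have ψb : ψ b = φ a := by simp [hψ]
  have ψx : ψ x = X := by simp [hψ, hbx.symm]
  have ψy : ψ y = Y := by simp [hψ, hyb', hxy'.symm]
  have ψo : ∀ w, w ≠ x → w ≠ y → w ≠ b → ψ w = φ w := by
    intro w h1 h2 h3'
    simp [hψ, h1, h2, h3']
  have ψS : ∀ w ∈ S', ψ w = φ w := by
    intro w hw
    have := (memS' w).1 hw
    exact ψo w this.2.1 this.2.2.1 this.2.2.2
  refine ⟨ψ, ?_, ?_⟩
  · intro w
    by_cases h1 : w = b
    · rw [h1, ψb]; exact hφ a
    by_cases h2 : w = x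
    · rw [h2, ψx]; exact hX
    by_cases h3' : w = y
    · rw [h3', ψy]; exact hY
    rw [ψo w h2 h3' h1]; exact hφ w
  · intro v hv
    rw [Finset.eq_empty_iff_forall_notMem]
    intro c hc
    rw [mem_miss] at hc
    obtain ⟨hc1, hc2⟩ := hc
    by_cases hvx : v = x
    · subst hvx
      have hmem : c ∈ φ a ∪ X ∪ Y := by rw [hWXY]; exact mem_univ c
      rw [mem_union, mem_union] at hmem
      rcases hmem with (h | h) | h
      · apply hc2 a hax.symm
        rw [ψS a haS']; exact h
      · apply hc1; rw [ψx]; exact h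
      · apply hc2 y hxy; rw [ψy]; exact h
    by_cases hvy : v = y
    · subst hvy
      have hmem : c ∈ φ a ∪ X ∪ Y := by rw [hWXY]; exact mem_univ c
      rw [mem_union, mem_union] at hmem
      rcases hmem with (h | h) | h
      · apply hc2 b hyb
        rw [ψb]; exact h
      · apply hc2 x hxy.symm; rw [ψx]; exact h
      · apply hc1; rw [ψy]; exact h
    by_cases hvb : v = b
    · subst hvb
      have hmem : c ∈ φ a ∪ ((nb G v).erase y).biUnion φ ∪ Y := by rw [h2Y]; exact mem_univ c
      rw [mem_union, mem_union, mem_biUnion] at hmem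
      rcases hmem with (h | ⟨z, hz, h⟩) | h
      · apply hc1; rw [ψb]; exact h
      · rw [mem_erase, mem_nb] at hz
        apply hc2 z hz.2
        rw [ψS z (hbnb z hz.2 hz.1)]; exact h
      · apply hc2 y hyb.symm; rw [ψy]; exact h
    have hvS' : v ∈ S' := (memS' v).2 ⟨hv, hvx, hvy, hvb⟩
    by_cases hva : v = a
    · subst hva
      have hmem : c ∈ φ v ∪ ((nb G v).erase x).biUnion φ ∪ X := by rw [h1X]; exact mem_univ c
      rw [mem_union, mem_union, mem_biUnion] at hmem
      rcases hmem with (h | ⟨z, hz, h⟩) | h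
      · apply hc1; rw [ψS v hvS']; exact h
      · rw [mem_erase, mem_nb] at hz
        apply hc2 z hz.2
        rw [ψS z (hanb z hz.2 hz.1)]; exact h
      · apply hc2 x hax; rw [ψx]; exact h
    · have h0 := hdom v hvS' hva
      rw [Finset.eq_empty_iff_forall_notMem] at h0
      apply h0 c
      rw [mem_miss]
      refine ⟨by rw [← ψS v hvS']; exact hc1, ?_⟩
      intro w hw
      rw [adjG'] at hw
      rcases hw with hw | hw | hw
      · rw [← ψS w hw.2.2]; exact hc2 w hw.1
      · exact absurd hw.1 hva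
      · rw [hw.1, ← ψb]; exact hc2 b hw.2.1.symm

end Pool.Agent.Lib.MP_db02ae_co
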