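import Pool.Agent.Lib.MP_db02ae_co.SetLemmas
import Pool.Agent.Lib.MP_db02ae_co.Base

open Finset
open scoped Classical

namespace Pool.Agent.Lib.MP_db02ae_co

variable {V : Type} [Fintype V] {C : Type} [Fintype C] {q : ℕ}

namespace Run3Aux

lemma other_nb {G : SimpleGraph V} {x y : V} (hx2 : (nb G x).card = 2) (hxy : G.Adj x y) :
    ∃ a, a ≠ y ∧ G.Adj x a ∧ nb G x = {y, a} := by
  rw [Finset.card_eq_two] at hx2
  obtain ⟨a, b, hab, hN⟩ := hx2
  have hmem : y ∈ nb G x := by rw [mem_nb]; exact hxy
  rw [hN] at hmem
  simp only [mem_insert, mem_singleton] at hmem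
  rcases hmem with h | h
  · exact ⟨b, by rw [h]; exact hab.symm, by rw [← mem_nb, hN]; simp, by rw [hN, h]⟩
  · exact ⟨a, by rw [h]; exact hab, by rw [← mem_nb, hN]; simp,
      by rw [hN, h, Finset.pair_comm]⟩

lemma nb_eq_pair {G : SimpleGraph V} {x a b : V} (hx2 : (nb G x).card = 2) (ha : G.Adj x a)
    (hb : G.Adj x b) (hab : a ≠ b) : nb G x = {a, b} := by
  symm
  apply Finset.eq_of_subset_of_card_le
  · intro z hz
    simp only [mem_insert, mem_singleton] at hz
    rw [mem_nb]
    rcases hz with rfl | rfl
    · exact ha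
    · exact hb
  · rw [hx2, Finset.card_pair hab]

/-- a triangle containing all vertices -/
lemma good_triangle (hC : Fintype.card C = 5 * q) {G : SimpleGraph V} {S : Finset V}
    (hG : InG G S) {x y z : V} (hxy : G.Adj x y) (hyz : G.Adj y z) (hzx : G.Adj z x)
    (hS : S = {x, y, z}) : Good q C G S := by
  refine base_C3 hC G S x y z ?_ hS ?_
  · have h1 := G.ne_of_adj hxy
    have h2 := G.ne_of_adj hyz
    have h3 := G.ne_of_adj hzx
    simp [h1, h2, h3.symm]
  · ext e
    induction e using Sym2.ind with
    | _ p r =>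
      simp only [SimpleGraph.mem_edgeSet, Set.mem_insert_iff, Set.mem_singleton_iff, Sym2.eq_iff]
      constructor
      · intro h
        have hp : p ∈ S := hG.supp p r h
        have hr : r ∈ S := hG.supp r p h.symm
        rw [hS] at hp hr
        simp only [mem_insert, mem_singleton] at hp hr
        have hne := G.ne_of_adj h
        rcases hp with rfl | rfl | rfl <;> rcases hr with rfl | rfl | rfl <;>
          first
          | exact absurd rfl hne
          | tauto
      · rintro ((⟨rfl, rfl⟩ | ⟨rfl, rfl⟩) | (⟨rfl, rfl⟩ | ⟨rfl, rfl⟩) |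
          (⟨rfl, rfl⟩ | ⟨rfl, rfl⟩))
        · exact hxy
        · exact hxy.symm
        · exact hyz
        · exact hyz.symm
        · exact hzx
        · exact hzx.symm

end Run3Aux

open Run3Aux

theorem step_run3 (hC : Fintype.card C = 5 * q) {G : SimpleGraph V} {S : Finset V}
    (hI : InI G S) (hb : ¬ HasBridge G S) (hc : ¬ HasCut G S) (ht : ¬ Twins G S)
    (h4 : ∀ x₁ x₂ x₃ x₄, ¬ Run4 G x₁ x₂ x₃ x₄) {x y z : V} (hr : Run3 G x y z)
    (ih : IH V q C S.card) : Good q C G S := by
  have _ := hc
  obtain ⟨hG, hH⟩ := hI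
  obtain ⟨hxy, hyz, hxz, hx2, hy2, hz2⟩ := hr
  have hsupp2 : ∀ a b, G.Adj a b → b ∈ S := fun a b h => hG.supp b a h.symm
  have hdeg2 : ∀ a x, 3 ≤ (nb G a).card → G.Adj a x → (nb G x).card = 2 := by
    intro a x ha hax
    have h1 := hG.deg x (hsupp2 a x hax)
    rcases hH a x hax with h | h <;> omega
  have hNy : nb G y = {x, z} := nb_eq_pair hy2 hxy.symm hyz hxz
  obtain ⟨a, hay, hxa, hNx⟩ := other_nb hx2 hxy
  obtain ⟨b, hby, hzb, hNz⟩ := other_nb hz2 hyz.symm
  have hx_ne : ∀ w, G.Adj x w → w = y ∨ w = a := by
    intro w hw; rw [← mem_nb, hNx] at hw; simpa using hw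
  have hy_ne : ∀ w, G.Adj y w → w = x ∨ w = z := by
    intro w hw; rw [← mem_nb, hNy] at hw; simpa using hw
  have hz_ne : ∀ w, G.Adj z w → w = y ∨ w = b := by
    intro w hw; rw [← mem_nb, hNz] at hw; simpa using hw
  have hxS : x ∈ S := hG.supp x y hxy
  have hyS : y ∈ S := hG.supp y z hyz
  have hzS : z ∈ S := hsupp2 y z hyz
  have haS : a ∈ S := hsupp2 x a hxa
  have hbS : b ∈ S := hsupp2 z b hzb
  have hxy' : x ≠ y := G.ne_of_adj hxy
  have hyz' : y ≠ z := G.ne_of_adj hyz
  have hxa' : x ≠ a := G.ne_of_adj hxa
  have hzb' : z ≠ b := G.ne_of_adj hzb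
  by_cases hxzadj : G.Adj x z
  · -- a triangle
    apply good_triangle hC hG hxy hyz hxzadj.symm
    by_contra hne
    obtain ⟨p, hp, r, hr, hpr⟩ := hG.conn {x, y, z} (by
      intro w hw
      simp only [mem_insert, mem_singleton] at hw
      rcases hw with rfl | rfl | rfl <;> assumption) ⟨x, by simp⟩ (fun h => hne h.symm)
    have hza : z = a := by
      rcases hx_ne z hxzadj with h | h
      · exact absurd h.symm hyz'
      · exact h
    have hxb : x = b := by
      rcases hz_ne x hxzadj.symm with h | h
      · exact absurd h hxy'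
      · exact h
    rw [mem_sdiff] at hr
    apply hr.2
    simp only [mem_insert, mem_singleton] at hp ⊢
    rcases hp with rfl | rfl | rfl
    · rcases hx_ne r hpr with h | h
      · exact Or.inr (Or.inl h)
      · exact Or.inr (Or.inr (h.trans hza.symm))
    · rcases hy_ne r hpr with h | h
      · exact Or.inl h
      · exact Or.inr (Or.inr h)
    · rcases hz_ne r hpr with h | h
      · exact Or.inr (Or.inl h)
      · exact Or.inl (h.trans hxb.symm)
  have hab : a ≠ b := by
    rintro rfl
    exact ht ⟨x, hxS, z, hzS, hxz, hx2, by rw [hNx, hNz]⟩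
  have haz : a ≠ z := by
    rintro rfl; exact hxzadj hxa
  have hbx : b ≠ x := by
    rintro rfl; exact hxzadj hzb.symm
  have haz' : ¬ G.Adj a z := by
    intro h
    rcases hz_ne a h.symm with h' | h'
    · exact hay h'
    · exact hab h'
  have hxb' : ¬ G.Adj x b := by
    intro h
    rcases hx_ne b h with h' | h'
    · exact hby h'
    · exact hab h'.symm
  have ha3 : 3 ≤ (nb G a).card := by
    have h1 := hG.deg a haS
    have h2 : (nb G a).card ≠ 2 := fun h =>
      h4 a x y z ⟨hxa.symm, hxy, hyz, hay, hxz, haz, haz', h, hx2, hy2, hz2⟩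
    omega
  have hb3 : 3 ≤ (nb G b).card := by
    have h1 := hG.deg b hbS
    have h2 : (nb G b).card ≠ 2 := fun h =>
      h4 x y z b ⟨hxy, hyz, hzb, hxz, hby.symm, hbx.symm, hxb', hx2, hy2, hz2, h⟩
    omega
  have hnab : ¬ G.Adj a b := by
    intro h
    rcases hH a b h with h | h <;> omega
  -- the smaller graph
  set S' : Finset V := S.filter (fun w => w ≠ x ∧ w ≠ y ∧ w ≠ z) with hS'
  have memS' : ∀ w, w ∈ S' ↔ w ∈ S ∧ w ≠ x ∧ w ≠ y ∧ w ≠ z := by
    intro w; rw [hS', mem_filter]
  set G' := restr G S' with hG'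
  have adjG' : ∀ p r, G'.Adj p r ↔ G.Adj p r ∧ p ∈ S' ∧ r ∈ S' := fun p r => Iff.rfl
  have haS' : a ∈ S' := (memS' a).2 ⟨haS, hxa'.symm, hay, haz⟩
  have hbS' : b ∈ S' := (memS' b).2 ⟨hbS, hbx, hby, hzb'.symm⟩
  -- edges leaving S'
  have hout : ∀ w ∈ S', ∀ r, G.Adj w r → r ∉ S' → (w = a ∧ r = x) ∨ (w = b ∧ r = z) := by
    intro w hw r hwr hr
    have hw' := (memS' w).1 hw
    have hrS := hsupp2 w r hwr
    have : r = x ∨ r = y ∨ r = z := by
      by_contra h
      push Not at h
      exact hr ((memS' r).2 ⟨hrS, h.1, h.2.1, h.2.2⟩)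
    rcases this with rfl | rfl | rfl
    · rcases hx_ne w hwr.symm with h | h
      · exact absurd h hw'.2.2.1
      · exact Or.inl ⟨h, rfl⟩
    · rcases hy_ne w hwr.symm with h | h
      · exact absurd h hw'.2.1
      · exact absurd h hw'.2.2.2
    · rcases hz_ne w hwr.symm with h | h
      · exact absurd h hw'.2.2.1
      · exact Or.inr ⟨h, rfl⟩
  have hsub : ∀ w, nb G' w ⊆ nb G w := by
    intro w r
    rw [mem_nb, mem_nb, adjG']
    exact fun h => h.1
  have hdeg' : ∀ w ∈ S', 2 ≤ (nb G' w).card := by
    intro w hw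
    by_cases hwa : w = a
    · subst hwa
      have h1 : (nb G w).erase x ⊆ nb G' w := by
        intro r hr
        rw [mem_erase, mem_nb] at hr
        rw [mem_nb, adjG']
        refine ⟨hr.2, hw, ?_⟩
        by_contra hr'
        rcases hout w hw r hr.2 hr' with h | h
        · exact hr.1 h.2
        · exact hab h.1
      have h2 := Finset.card_le_card h1
      have h3 := Finset.pred_card_le_card_erase (s := nb G w) (a := x)
      omega
    by_cases hwb : w = b
    · subst hwb
      have h1 : (nb G w).erase z ⊆ nb G' w := by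
        intro r hr
        rw [mem_erase, mem_nb] at hr
        rw [mem_nb, adjG']
        refine ⟨hr.2, hw, ?_⟩
        by_contra hr'
        rcases hout w hw r hr.2 hr' with h | h
        · exact hwa h.1
        · exact hr.1 h.2
      have h2 := Finset.card_le_card h1
      have h3 := Finset.pred_card_le_card_erase (s := nb G w) (a := z)
      omega
    · have h1 : nb G w ⊆ nb G' w := by
        intro r hr
        rw [mem_nb] at hr
        rw [mem_nb, adjG']
        refine ⟨hr, hw, ?_⟩
        by_contra hr'
        rcases hout w hw r hr hr' with h | h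
        · exact hwa h.1
        · exact hwb h.1
      exact (hG.deg w ((memS' w).1 hw).1).trans (Finset.card_le_card h1)
  have hInI : InI G' S' := by
    refine ⟨⟨fun p r h => h.2.1, ⟨a, haS'⟩, ?_, hdeg'⟩, ?_⟩
    · intro A hA hAne hAS
      by_contra hcon
      push Not at hcon
      have hAS' : ∀ w ∈ A, w ∈ S' := fun w hw => hA hw
      have hcross : ∀ p ∈ A, ∀ r, r ∉ A → G.Adj p r → (p = a ∧ r = x) ∨ (p = b ∧ r = z) := by
        intro p hp r hr hpr
        by_cases hrS' : r ∈ S'
        · exact absurd ⟨hpr, hAS' p hp, hrS'⟩ (hcon p hp r (mem_sdiff.2 ⟨hrS', hr⟩))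
        · exact hout p (hAS' p hp) r hpr hrS'
      have hxA : x ∉ A := fun h => ((memS' x).1 (hAS' x h)).2.1 rfl
      have hyA : y ∉ A := fun h => ((memS' y).1 (hAS' y h)).2.2.1 rfl
      have hzA : z ∉ A := fun h => ((memS' z).1 (hAS' z h)).2.2.2 rfl
      by_cases haA : a ∈ A
      · by_cases hbA : b ∈ A
        · obtain ⟨p, hp, r, hr, hpr⟩ := hG.conn (A ∪ {x, y, z}) (by
            intro w hw
            simp only [mem_union, mem_insert, mem_singleton] at hw
            rcases hw with hw | rfl | rfl | rfl
            · exact ((memS' w).1 (hA hw)).1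
            all_goals assumption) ⟨a, mem_union_left _ haA⟩ (by
            intro heq
            apply hAS
            apply Finset.Subset.antisymm hA
            intro w hw
            have hw' := (memS' w).1 hw
            have : w ∈ A ∪ {x, y, z} := by rw [heq]; exact hw'.1
            simp only [mem_union, mem_insert, mem_singleton] at this
            rcases this with h | h | h | h
            · exact h
            · exact absurd h hw'.2.1
            · exact absurd h hw'.2.2.1
            · exact absurd h hw'.2.2.2)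
          rw [mem_sdiff] at hr
          simp only [mem_union, mem_insert, mem_singleton, not_or] at hp hr
          obtain ⟨hrS, hrA, hrx, hry, hrz⟩ := hr
          rcases hp with hp | rfl | rfl | rfl
          · rcases hcross p hp r hrA hpr with h | h
            · exact hrx h.2
            · exact hrz h.2
          · rcases hx_ne r hpr with h | h
            · exact hry h
            · exact hrA (h ▸ haA)
          · rcases hy_ne r hpr with h | h
            · exact hrx h
            · exact hrz h
          · rcases hz_ne r hpr with h | h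
            · exact hry h
            · exact hrA (h ▸ hbA)
        · -- a in A, b outside: bridge x y
          apply hb
          refine ⟨insert x A, ?_, x, mem_insert_self _ _, y, ?_, hxy, ?_⟩
          · intro w hw
            rcases mem_insert.1 hw with h | h
            · rw [h]; exact hxS
            · exact ((memS' w).1 (hA h)).1
          · rw [mem_sdiff, mem_insert, not_or]
            exact ⟨hyS, hxy'.symm, hyA⟩
          · intro p hp r hr hpr
            rw [mem_sdiff, mem_insert, not_or] at hr
            rcases mem_insert.1 hp with h | h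
            · rw [h] at hpr ⊢
              rcases hx_ne r hpr with h' | h'
              · exact ⟨rfl, h'⟩
              · exact absurd (h' ▸ haA) hr.2.2
            · rcases hcross p h r hr.2.2 hpr with h' | h'
              · exact absurd h'.2 hr.2.1
              · exact absurd (h'.1 ▸ h) hbA
      · by_cases hbA : b ∈ A
        · apply hb
          refine ⟨insert z A, ?_, z, mem_insert_self _ _, y, ?_, hyz.symm, ?_⟩
          · intro w hw
            rcases mem_insert.1 hw with h | h
            · rw [h]; exact hzS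
            · exact ((memS' w).1 (hA h)).1
          · rw [mem_sdiff, mem_insert, not_or]
            exact ⟨hyS, hyz', hyA⟩
          · intro p hp r hr hpr
            rw [mem_sdiff, mem_insert, not_or] at hr
            rcases mem_insert.1 hp with h | h
            · rw [h] at hpr ⊢
              rcases hz_ne r hpr with h' | h'
              · exact ⟨rfl, h'⟩
              · exact absurd (h' ▸ hbA) hr.2.2
            · rcases hcross p h r hr.2.2 hpr with h' | h'
              · exact absurd (h'.1 ▸ h) haA
              · exact absurd h'.2 hr.2.1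
        · obtain ⟨p, hp, r, hr, hpr⟩ := hG.conn A (fun w hw => ((memS' w).1 (hA hw)).1) hAne (by
            rintro rfl
            exact haA haS)
          rw [mem_sdiff] at hr
          rcases hcross p hp r hr.2 hpr with h | h
          · exact haA (h.1 ▸ hp)
          · exact hbA (h.1 ▸ hp)
    · intro p r hpr
      rcases hH p r hpr.1 with h | h
      · exact Or.inl ((Finset.card_le_card (hsub p)).trans h)
      · exact Or.inr ((Finset.card_le_card (hsub r)).trans h)
  have hcard : S'.card < S.card := by
    apply Finset.card_lt_card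
    rw [Finset.ssubset_iff_of_subset (Finset.filter_subset _ _)]
    exact ⟨x, hxS, fun h => ((memS' x).1 h).2.1 rfl⟩
  have hroot : RootAt q q C G' S' a := by
    rcases ih G' S' hInI hcard with h | h | h
    · obtain ⟨φ, hφ, hd⟩ := h
      refine ⟨φ, hφ, fun v hv _ => hd v hv, ?_⟩
      rw [hd a haS']; simp
    · obtain ⟨φ, h1, h2, h3, _⟩ := h.1 a haS'
      exact ⟨φ, h1, h2, h3⟩
    · exfalso
      obtain ⟨b', c, d, hnd, hSe, hEe⟩ := four_cycle_of_card hInI h.1 haS'
      have adj_iff : ∀ p r, G'.Adj p r ↔ s(p, r) ∈ ({s(a, b'), s(b', c), s(c, d), s(d, a)} :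
          Set (Sym2 V)) := by
        intro p r
        rw [← hEe, SimpleGraph.mem_edgeSet]
      have e1 : G'.Adj a b' := (adj_iff _ _).2 (by simp)
      have e2 : G'.Adj b' c := (adj_iff _ _).2 (by simp)
      have e3 : G'.Adj c d := (adj_iff _ _).2 (by simp)
      have e4 : G'.Adj d a := (adj_iff _ _).2 (by simp)
      have hac : a ≠ c := by
        simp only [List.nodup_cons, List.mem_cons, List.not_mem_nil, or_false, not_or] at hnd
        exact hnd.1.2.1
      have hb'd : b' ≠ d := by
        simp only [List.nodup_cons, List.mem_cons, List.not_mem_nil, or_false, not_or] at hnd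
        exact hnd.2.1.2
      have hNb' := nb_eq_pair (hdeg2 a b' ha3 e1.1) e1.1.symm e2.1 hac
      have hNd := nb_eq_pair (hdeg2 a d ha3 e4.1.symm) e4.1 e3.1.symm hac
      exact ht ⟨b', ((memS' b').1 e1.2.2).1, d, ((memS' d).1 e4.2.1).1, hb'd,
        hdeg2 a b' ha3 e1.1, by rw [hNb', hNd]⟩
  obtain ⟨φ, hφ, hdom, hmiss⟩ := hroot
  obtain ⟨X, Y, Z, hX, hY, hZ, hMX, h1, h2, h3⟩ := exists_ear4 hC (φ a) (φ b) (miss G' φ a)
    (hφ a) (hφ b) (by
      rw [Finset.disjoint_left]
      intro c hc
      rw [mem_miss] at hc
      exact hc.1) hmiss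
  set ψ : V → Finset C := fun w => if w = x then X else if w = y then Y else
    if w = z then Z else φ w with hψ
  have ψx : ψ x = X := by simp [hψ]
  have ψy : ψ y = Y := by simp [hψ, hxy'.symm]
  have ψz : ψ z = Z := by simp [hψ, hxz.symm, hyz'.symm]
  have ψo : ∀ w, w ≠ x → w ≠ y → w ≠ z → ψ w = φ w := by
    intro w h1 h2 h3'
    simp [hψ, h1, h2, h3']
  have ψS : ∀ w ∈ S', ψ w = φ w := by
    intro w hw
    have := (memS' w).1 hw
    exact ψo w this.2.1 this.2.2.1 this.2.2.2
  refine ⟨ψ, ?_, ?_⟩
  · intro w
    by_cases g1 : w = x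
    · rw [g1, ψx]; exact hX
    by_cases g2 : w = y
    · rw [g2, ψy]; exact hY
    by_cases g3 : w = z
    · rw [g3, ψz]; exact hZ
    rw [ψo w g1 g2 g3]; exact hφ w
  · intro v hv
    rw [Finset.eq_empty_iff_forall_notMem]
    intro c hcm
    rw [mem_miss] at hcm
    obtain ⟨hc1, hc2⟩ := hcm
    by_cases hvx : v = x
    · subst hvx
      have hmem : c ∈ φ a ∪ X ∪ Y := by rw [h1]; exact mem_univ c
      rw [mem_union, mem_union] at hmem
      rcases hmem with (h | h) | h
      · apply hc2 a hxa; rw [ψS a haS']; exact h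
      · apply hc1; rw [ψx]; exact h
      · apply hc2 y hxy; rw [ψy]; exact h
    by_cases hvy : v = y
    · subst hvy
      have hmem : c ∈ X ∪ Y ∪ Z := by rw [h2]; exact mem_univ c
      rw [mem_union, mem_union] at hmem
      rcases hmem with (h | h) | h
      · apply hc2 x hxy.symm; rw [ψx]; exact h
      · apply hc1; rw [ψy]; exact h
      · apply hc2 z hyz; rw [ψz]; exact h
    by_cases hvz : v = z
    · subst hvz
      have hmem : c ∈ Y ∪ Z ∪ φ b := by rw [h3]; exact mem_univ c
      rw [mem_union, mem_union] at hmem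
      rcases hmem with (h | h) | h
      · apply hc2 y hyz.symm; rw [ψy]; exact h
      · apply hc1; rw [ψz]; exact h
      · apply hc2 b hzb; rw [ψS b hbS']; exact h
    have hvS' : v ∈ S' := (memS' v).2 ⟨hv, hvx, hvy, hvz⟩
    have key : c ∈ miss G' φ v := by
      rw [mem_miss]
      refine ⟨by rw [← ψS v hvS']; exact hc1, ?_⟩
      intro w hw
      rw [adjG'] at hw
      rw [← ψS w hw.2.2]; exact hc2 w hw.1
    by_cases hva : v = a
    · subst hva
      apply hc2 x hxa.symm
      rw [ψx]
      exact hMX key
    · rw [hdom v hvS' hva] at key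
      exact absurd key (Finset.notMem_empty c)

/-- a closed ear of length 3 -/
theorem step_tri (hC : Fintype.card C = 5 * q) {G : SimpleGraph V} {S : Finset V}
    (hI : InI G S) (hc : ¬ HasCut G S) {a x y : V} (he : Ear3 G a x y a) : Good q C G S := by
  obtain ⟨hG, hH⟩ := hI
  obtain ⟨hax, hxy, hya, hay, hax', hx2, hy2⟩ := he
  have hsupp2 : ∀ a b, G.Adj a b → b ∈ S := fun a b h => hG.supp b a h.symm
  have hNx := nb_eq_pair hx2 hax.symm hxy hay
  have hNy := nb_eq_pair hy2 hxy.symm hya (G.ne_of_adj hax).symm
  have hx_ne : ∀ w, G.Adj x w → w = a ∨ w = y := by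
    intro w hw; rw [← mem_nb, hNx] at hw; simpa using hw
  have hy_ne : ∀ w, G.Adj y w → w = x ∨ w = a := by
    intro w hw; rw [← mem_nb, hNy] at hw; simpa using hw
  have haS : a ∈ S := hG.supp a x hax
  have hxS : x ∈ S := hG.supp x y hxy
  have hyS : y ∈ S := hG.supp y a hya
  by_cases hS : S = {a, x, y}
  · exact good_triangle hC hG hax hxy hya hS
  · exfalso
    apply hc
    refine ⟨a, haS, {x, y}, ?_, ⟨x, by simp⟩, ?_, ?_⟩
    · intro w hw
      simp only [mem_insert, mem_singleton] at hw
      rw [mem_erase]
      rcases hw with rfl | rfl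
      · exact ⟨hax'.symm, hxS⟩
      · exact ⟨hay.symm, hyS⟩
    · intro heq
      apply hS
      ext w
      simp only [mem_insert, mem_singleton]
      constructor
      · intro hw
        by_cases hwa : w = a
        · exact Or.inl hwa
        · have : w ∈ ({x, y} : Finset V) := by rw [heq, mem_erase]; exact ⟨hwa, hw⟩
          simp only [mem_insert, mem_singleton] at this
          exact Or.inr this
      · rintro (rfl | rfl | rfl) <;> assumption
    · intro p hp r hr hpr
      rw [mem_sdiff, mem_erase] at hr
      simp only [mem_insert, mem_singleton, not_or] at hp hr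
      obtain ⟨⟨hra, _⟩, hrx, hry⟩ := hr
      rcases hp with rfl | rfl
      · rcases hx_ne r hpr with h | h
        · exact hra h
        · exact hry h
      · rcases hy_ne r hpr with h | h
        · exact hrx h
        · exact hra h

end Pool.Agent.Lib.MP_db02ae_co
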