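import Pool.Agent.Lib.MP_db02ae_co.SetLemmas
import Pool.Agent.Lib.MP_db02ae_co.Base

open Finset
open scoped Classical

namespace Pool.Agent.Lib.MP_db02ae_co

variable {V : Type} [Fintype V] {C : Type} [Fintype C] {q : ℕ}

/-- the other neighbour of a vertex of degree 2 -/
theorem run4_other {G : SimpleGraph V} {x a : V} (h : (nb G x).card = 2) (ha : G.Adj x a) :
    ∃ b, b ≠ a ∧ ∀ w, G.Adj x w ↔ w = a ∨ w = b := by
  obtain ⟨c, d, hcd, hx⟩ := card_eq_two.1 h
  have hw : ∀ w, G.Adj x w ↔ w = c ∨ w = d := by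
    intro w
    rw [← mem_nb, hx]
    simp
  rcases (hw a).1 ha with rfl | rfl
  · exact ⟨d, hcd.symm, hw⟩
  · exact ⟨c, hcd, fun w => (hw w).trans or_comm⟩

theorem run4_pair {G : SimpleGraph V} {x a b : V} (h : (nb G x).card = 2) (hab : a ≠ b)
    (ha : G.Adj x a) (hb : G.Adj x b) : ∀ w, G.Adj x w ↔ w = a ∨ w = b := by
  obtain ⟨c, hc, hw⟩ := run4_other h ha
  have : b = c := by
    rcases (hw b).1 hb with h1 | h1
    · exact absurd h1.symm hab
    · exact h1
  subst this
  exact hw

/-- the graph obtained by replacing a path `x₁ x₂ x₃ x₄ b` by an edge `x₁ b` -/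
def run4G (G : SimpleGraph V) (T : Finset V) (x b : V) (hxb : x ≠ b) : SimpleGraph V where
  Adj u v := (G.Adj u v ∧ u ∈ T ∧ v ∈ T) ∨ (u = x ∧ v = b) ∨ (u = b ∧ v = x)
  symm := ⟨by
    rintro u v (⟨h1, h2, h3⟩ | ⟨h1, h2⟩ | ⟨h1, h2⟩)
    · exact Or.inl ⟨h1.symm, h3, h2⟩
    · exact Or.inr (Or.inr ⟨h2, h1⟩)
    · exact Or.inr (Or.inl ⟨h2, h1⟩)⟩
  loopless := ⟨by
    rintro u (⟨h1, h2, h3⟩ | ⟨h1, h2⟩ | ⟨h1, h2⟩)
    · exact G.loopless.irrefl _ h1
    · exact hxb (h1.symm.trans h2)
    · exact hxb (h2.symm.trans h1)⟩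

omit [Fintype V] in
theorem run4G_adj {G : SimpleGraph V} {T : Finset V} {x b : V} {hxb : x ≠ b} {u v : V} :
    (run4G G T x b hxb).Adj u v ↔
      (G.Adj u v ∧ u ∈ T ∧ v ∈ T) ∨ (u = x ∧ v = b) ∨ (u = b ∧ v = x) := Iff.rfl

omit [Fintype V] in
theorem run4_perm4 (x b c d : V) : ({x, b, c, d} : Finset V) = {x, d, c, b} := by
  ext w
  simp only [mem_insert, mem_singleton]
  tauto

omit [Fintype V] in
theorem run4_rev4 (x b c d : V) : ({s(x, b), s(b, c), s(c, d), s(d, x)} : Set (Sym2 V)) =
    {s(x, d), s(d, c), s(c, b), s(b, x)} := by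
  rw [Sym2.eq_swap (a := x) (b := b), Sym2.eq_swap (a := b) (b := c),
    Sym2.eq_swap (a := c) (b := d), Sym2.eq_swap (a := d) (b := x)]
  ext w
  simp only [Set.mem_insert_iff, Set.mem_singleton_iff]
  tauto

omit [Fintype V] in
/-- the 7-cycle -/
theorem run4_edges7 {G G' : SimpleGraph V} {T : Finset V} {x₁ x₂ x₃ x₄ a b e : V}
    (h12 : G.Adj x₁ x₂) (h23 : G.Adj x₂ x₃) (h34 : G.Adj x₃ x₄) (h4b : G.Adj x₄ b)
    (hbe : G.Adj b e) (hea : G.Adj e a) (h1a : G.Adj x₁ a)
    (n2 : ∀ w, G.Adj x₂ w → w = x₁ ∨ w = x₃) (n3 : ∀ w, G.Adj x₃ w → w = x₂ ∨ w = x₄)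
    (n4 : ∀ w, G.Adj x₄ w → w = x₃ ∨ w = b) (hx1b : ¬ G.Adj x₁ b)
    (nbr : ∀ u v, G.Adj u v → u ∈ T → v ∉ T → (u = x₁ ∧ v = x₂) ∨ (u = b ∧ v = x₄))
    (hTc : ∀ u v, G.Adj u v → u ∉ T → u = x₂ ∨ u = x₃ ∨ u = x₄)
    (hG' : ∀ u v, G.Adj u v → u ∈ T → v ∈ T → G'.Adj u v)
    (hE : G'.edgeSet = {s(x₁, b), s(b, e), s(e, a), s(a, x₁)}) :
    G.edgeSet = {s(x₁, x₂), s(x₂, x₃), s(x₃, x₄), s(x₄, b), s(b, e), s(e, a), s(a, x₁)} := by
  ext f
  induction f using Sym2.ind with
  | _ u v =>
    rw [SimpleGraph.mem_edgeSet]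
    constructor
    · intro h
      by_cases hu : u ∈ T
      · by_cases hv : v ∈ T
        · have h' : s(u, v) ∈ G'.edgeSet := by
            rw [SimpleGraph.mem_edgeSet]
            exact hG' u v h hu hv
          rw [hE] at h'
          simp only [Set.mem_insert_iff, Set.mem_singleton_iff] at h' ⊢
          rcases h' with h' | h' | h' | h'
          · exfalso
            rw [Sym2.eq_iff] at h'
            rcases h' with ⟨h1, h2⟩ | ⟨h1, h2⟩
            · rw [h1, h2] at h; exact hx1b h
            · rw [h1, h2] at h; exact hx1b h.symm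
          · simp only [h', true_or, or_true]
          · simp only [h', true_or, or_true]
          · simp only [h', or_true]
        · rcases nbr u v h hu hv with ⟨rfl, rfl⟩ | ⟨rfl, rfl⟩
          · simp
          · simp
      · simp only [Set.mem_insert_iff, Set.mem_singleton_iff, Sym2.eq_iff]
        rcases hTc u v h hu with rfl | rfl | rfl
        · rcases n2 v h with rfl | rfl <;> simp
        · rcases n3 v h with rfl | rfl <;> simp
        · rcases n4 v h with rfl | rfl <;> simp
    · simp only [Set.mem_insert_iff, Set.mem_singleton_iff, Sym2.eq_iff]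
      rintro ((⟨h, h'⟩ | ⟨h, h'⟩) | (⟨h, h'⟩ | ⟨h, h'⟩) | (⟨h, h'⟩ | ⟨h, h'⟩) |
        (⟨h, h'⟩ | ⟨h, h'⟩) | (⟨h, h'⟩ | ⟨h, h'⟩) | (⟨h, h'⟩ | ⟨h, h'⟩) |
        (⟨h, h'⟩ | ⟨h, h'⟩)) <;> rw [h, h']
      exacts [h12, h12.symm, h23, h23.symm, h34, h34.symm, h4b, h4b.symm, hbe, hbe.symm, hea,
        hea.symm, h1a.symm, h1a]

/-- degrees in a 4-cycle -/
theorem run4_deg4 {G' : SimpleGraph V} {x b c d : V} (hn : [x, b, c, d].Nodup)
    (hE : G'.edgeSet = {s(x, b), s(b, c), s(c, d), s(d, x)}) :
    (nb G' b).card = 2 ∧ (nb G' c).card = 2 ∧ (nb G' d).card = 2 := by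
  simp only [List.nodup_cons, List.mem_cons, List.not_mem_nil, or_false, not_or,
    not_false_eq_true, List.nodup_nil, and_true] at hn
  obtain ⟨⟨g1, g2, g3⟩, ⟨g4, g5⟩, g6⟩ := hn
  have adjE : ∀ u v, G'.Adj u v ↔ (((u = x ∧ v = b) ∨ (u = b ∧ v = x)) ∨
      ((u = b ∧ v = c) ∨ (u = c ∧ v = b)) ∨ ((u = c ∧ v = d) ∨ (u = d ∧ v = c)) ∨
      ((u = d ∧ v = x) ∨ (u = x ∧ v = d))) := by
    intro u v
    rw [← SimpleGraph.mem_edgeSet, hE]
    simp only [Set.mem_insert_iff, Set.mem_singleton_iff, Sym2.eq_iff]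
  have b1 : nb G' b = {x, c} := by
    ext w
    rw [mem_nb, adjE]
    simp only [mem_insert, mem_singleton, Ne.symm g1, g4, g5, false_and, true_and, false_or,
      or_false]
  have b2 : nb G' c = {b, d} := by
    ext w
    rw [mem_nb, adjE]
    simp only [mem_insert, mem_singleton, Ne.symm g2, Ne.symm g4, g6, false_and, true_and,
      false_or, or_false]
  have b3 : nb G' d = {c, x} := by
    ext w
    rw [mem_nb, adjE]
    simp only [mem_insert, mem_singleton, Ne.symm g3, Ne.symm g5, Ne.symm g6, false_and, true_and,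
      false_or, or_false]
  rw [b1, b2, b3, card_pair g2, card_pair g5, card_pair (Ne.symm g2)]
  exact ⟨rfl, rfl, rfl⟩

theorem step_run4 (hC : Fintype.card C = 5 * q) {G : SimpleGraph V} {S : Finset V}
    (hI : InI G S) (hc : ¬ HasCut G S) {x₁ x₂ x₃ x₄ : V} (hr : Run4 G x₁ x₂ x₃ x₄)
    (ih : IH V q C S.card) : TT q C G S := by
  obtain ⟨h12, h23, h34, d13, d24, d14, h14, c1, c2, c3, c4⟩ := hr
  have n2 := run4_pair c2 d13 h12.symm h23
  have n3 := run4_pair c3 d24 h23.symm h34
  obtain ⟨a, hax2, n1⟩ := run4_other c1 h12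
  obtain ⟨b, hbx3, n4⟩ := run4_other c4 h34.symm
  have d12 : x₁ ≠ x₂ := h12.ne
  have d23 : x₂ ≠ x₃ := h23.ne
  have d34 : x₃ ≠ x₄ := h34.ne
  have h1a : G.Adj x₁ a := (n1 a).2 (Or.inr rfl)
  have h4b : G.Adj x₄ b := (n4 b).2 (Or.inr rfl)
  have hax1 : a ≠ x₁ := h1a.ne'
  have hax3 : a ≠ x₃ := by
    rintro rfl
    rcases (n3 x₁).1 h1a.symm with h | h
    · exact d12 h
    · exact d14 h
  have hax4 : a ≠ x₄ := by
    rintro rfl
    exact h14 h1a
  have hbx4 : b ≠ x₄ := h4b.ne'
  have hbx2 : b ≠ x₂ := by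
    rintro rfl
    rcases (n2 x₄).1 h4b.symm with h | h
    · exact d14 h.symm
    · exact d34 h.symm
  have hbx1 : b ≠ x₁ := by
    rintro rfl
    exact h14 h4b.symm
  have sup := hI.1.supp
  have s1 : x₁ ∈ S := sup _ _ h12
  have s2 : x₂ ∈ S := sup _ _ h23
  have s3 : x₃ ∈ S := sup _ _ h34
  have s4 : x₄ ∈ S := sup _ _ h34.symm
  have sa : a ∈ S := sup _ _ h1a.symm
  have sb : b ∈ S := sup _ _ h4b.symm
  by_cases hab : a = b
  · subst hab
    by_cases hS : S.erase a = {x₁, x₂, x₃, x₄}
    · left
      have hS' : S = {x₁, x₂, x₃, x₄, a} := by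
        rw [← insert_erase sa, hS]
        ext w
        simp only [mem_insert, mem_singleton]
        tauto
      refine base_C5 hC G S x₁ x₂ x₃ x₄ a ?_ hS' ?_
      · simp only [List.nodup_cons, List.mem_cons, List.not_mem_nil, or_false, not_or,
          not_false_eq_true, List.nodup_nil, and_true]
        exact ⟨⟨d12, d13, d14, hax1.symm⟩, ⟨d23, d24, hax2.symm⟩, ⟨d34, hax3.symm⟩, hax4.symm⟩
      · ext e
        induction e using Sym2.ind with
        | _ u v =>
          rw [SimpleGraph.mem_edgeSet]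
          simp only [Set.mem_insert_iff, Set.mem_singleton_iff, Sym2.eq_iff]
          constructor
          · intro h
            have hu := sup _ _ h
            have hv := sup _ _ h.symm
            rw [hS'] at hu hv
            simp only [mem_insert, mem_singleton] at hu
            rcases hu with rfl | rfl | rfl | rfl | rfl
            · rcases (n1 v).1 h with rfl | rfl <;> simp
            · rcases (n2 v).1 h with rfl | rfl <;> simp
            · rcases (n3 v).1 h with rfl | rfl <;> simp
            · rcases (n4 v).1 h with rfl | rfl <;> simp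
            · simp only [mem_insert, mem_singleton] at hv
              rcases hv with rfl | rfl | rfl | rfl | rfl
              · simp
              · rcases (n2 _).1 h.symm with h' | h'
                · exact absurd h' hax1
                · exact absurd h' hax3
              · rcases (n3 _).1 h.symm with h' | h'
                · exact absurd h' hax2
                · exact absurd h' hax4
              · simp
              · exact absurd h (G.loopless.irrefl _)
          · rintro ((⟨h, h'⟩ | ⟨h, h'⟩) | (⟨h, h'⟩ | ⟨h, h'⟩) | (⟨h, h'⟩ | ⟨h, h'⟩) |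
              (⟨h, h'⟩ | ⟨h, h'⟩) | (⟨h, h'⟩ | ⟨h, h'⟩)) <;> rw [h, h']
            exacts [h12, h12.symm, h23, h23.symm, h34, h34.symm, h4b, h4b.symm, h1a.symm, h1a]
    · exfalso
      refine hc ⟨a, sa, {x₁, x₂, x₃, x₄}, ?_, ⟨x₁, by simp⟩, fun h => hS h.symm, ?_⟩
      · intro w hw
        simp only [mem_insert, mem_singleton] at hw
        rw [mem_erase]
        rcases hw with rfl | rfl | rfl | rfl
        · exact ⟨hax1.symm, s1⟩
        · exact ⟨hax2.symm, s2⟩
        · exact ⟨hax3.symm, s3⟩
        · exact ⟨hax4.symm, s4⟩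
      · intro u hu v hv h
        simp only [mem_insert, mem_singleton] at hu
        simp only [mem_sdiff, mem_erase, mem_insert, mem_singleton, not_or] at hv
        obtain ⟨⟨w0, -⟩, w1, w2, w3, w4⟩ := hv
        rcases hu with rfl | rfl | rfl | rfl
        · rcases (n1 v).1 h with h' | h'
          · exact w2 h'
          · exact w0 h'
        · rcases (n2 v).1 h with h' | h'
          · exact w1 h'
          · exact w3 h'
        · rcases (n3 v).1 h with h' | h'
          · exact w2 h'
          · exact w4 h'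
        · rcases (n4 v).1 h with h' | h'
          · exact w3 h'
          · exact w0 h'
  -- now `a ≠ b`
  set T : Finset V := S \ {x₂, x₃, x₄} with hT
  have mT : ∀ w, w ∈ T ↔ w ∈ S ∧ w ≠ x₂ ∧ w ≠ x₃ ∧ w ≠ x₄ := by
    intro w
    rw [hT]
    simp only [mem_sdiff, mem_insert, mem_singleton, not_or]
  have t1 : x₁ ∈ T := (mT _).2 ⟨s1, d12, d13, d14⟩
  have ta : a ∈ T := (mT _).2 ⟨sa, hax2, hax3, hax4⟩
  have tb : b ∈ T := (mT _).2 ⟨sb, hbx2, hbx3, hbx4⟩
  set G' := run4G G T x₁ b hbx1.symm with hG'
  have nbr : ∀ u v, G.Adj u v → u ∈ T → v ∉ T → (u = x₁ ∧ v = x₂) ∨ (u = b ∧ v = x₄) := by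
    intro u v h hu hv
    rw [mT] at hu hv
    have hvS := sup _ _ h.symm
    obtain ⟨-, w2, w3, w4⟩ := hu
    by_cases hv2 : v = x₂
    · subst hv2
      rcases (n2 u).1 h.symm with h' | h'
      · exact Or.inl ⟨h', rfl⟩
      · exact absurd h' w3
    by_cases hv3 : v = x₃
    · subst hv3
      rcases (n3 u).1 h.symm with h' | h'
      · exact absurd h' w2
      · exact absurd h' w4
    by_cases hv4 : v = x₄
    · subst hv4
      rcases (n4 u).1 h.symm with h' | h'
      · exact absurd h' w3
      · exact Or.inr ⟨h', rfl⟩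
    exact absurd ⟨hvS, hv2, hv3, hv4⟩ hv
  have hx1b : ¬ G.Adj x₁ b := by
    intro h
    rcases (n1 b).1 h with h' | h'
    · exact hbx2 h'
    · exact hab h'.symm
  have n1' : ∀ w, G'.Adj x₁ w ↔ w = a ∨ w = b := by
    intro w
    rw [hG', run4G_adj]
    constructor
    · rintro (⟨h, _, hw⟩ | ⟨_, h⟩ | ⟨h, _⟩)
      · rcases (n1 w).1 h with h' | h'
        · rw [mT] at hw
          exact absurd h' hw.2.1
        · exact Or.inl h'
      · exact Or.inr h
      · exact absurd h hbx1.symm
    · rintro (rfl | rfl)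
      · exact Or.inl ⟨h1a, t1, ta⟩
      · exact Or.inr (Or.inl ⟨rfl, rfl⟩)
  -- degrees are preserved
  have hdeg : ∀ v ∈ T, (nb G' v).card = (nb G v).card := by
    intro v hv
    by_cases hv1 : v = x₁
    · subst hv1
      have e1 : nb G' v = {a, b} := by
        ext w; rw [mem_nb, n1']; simp
      rw [e1, card_pair hab, c1]
    by_cases hvb : v = b
    · subst hvb
      have e1 : nb G' v = insert x₁ ((nb G v).erase x₄) := by
        ext w
        rw [mem_nb, hG', run4G_adj, mem_insert, mem_erase, mem_nb]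
        constructor
        · rintro (⟨h, _, hw⟩ | ⟨h, _⟩ | ⟨_, h⟩)
          · right; exact ⟨((mT w).1 hw).2.2.2, h⟩
          · exact absurd h hv1
          · left; exact h
        · rintro (rfl | ⟨h1, h2⟩)
          · right; right; exact ⟨rfl, rfl⟩
          · left
            refine ⟨h2, tb, ?_⟩
            by_contra hw
            rcases nbr _ _ h2 tb hw with h | h
            · exact hv1 h.1
            · exact h1 h.2
      have e2 : x₁ ∉ (nb G v).erase x₄ := by
        rw [mem_erase, mem_nb]
        intro h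
        exact hx1b h.2.symm
      rw [e1, card_insert_of_notMem e2, card_erase_of_mem (mem_nb.2 h4b.symm)]
      have : 2 ≤ (nb G v).card := hI.1.deg v sb
      omega
    · have e1 : nb G' v = nb G v := by
        ext w
        rw [mem_nb, mem_nb, hG', run4G_adj]
        constructor
        · rintro (⟨h, _, hw⟩ | ⟨h, _⟩ | ⟨h, _⟩)
          · exact h
          · exact absurd h hv1
          · exact absurd h hvb
        · intro h
          left
          refine ⟨h, hv, ?_⟩
          by_contra hw
          rcases nbr _ _ h hv hw with h' | h'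
          · exact hv1 h'.1
          · exact hvb h'.1
      rw [e1]
  have hG'G : ∀ u v, G'.Adj u v → u ∈ T ∧ v ∈ T := by
    intro u v h
    rw [hG', run4G_adj] at h
    rcases h with ⟨_, h1, h2⟩ | ⟨rfl, rfl⟩ | ⟨rfl, rfl⟩
    · exact ⟨h1, h2⟩
    · exact ⟨t1, tb⟩
    · exact ⟨tb, t1⟩
  have hInG' : InG G' T := by
    refine ⟨fun u v h => (hG'G u v h).1, ⟨x₁, t1⟩, ?_, ?_⟩
    · intro A hA hAne hAT
      by_contra hcon
      push Not at hcon
      have hcon' : ∀ u ∈ A, ∀ v ∈ T, G'.Adj u v → v ∈ A := by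
        intro u hu v hv h
        by_contra hvA
        exact hcon u hu v (mem_sdiff.2 ⟨hv, hvA⟩) h
      by_cases hx1A : x₁ ∈ A
      · have hbA : b ∈ A := hcon' x₁ hx1A b tb ((n1' b).2 (Or.inr rfl))
        obtain ⟨u, hu, v, hv, h⟩ := hI.1.conn (A ∪ {x₂, x₃, x₄}) (by
          intro w hw
          rw [mem_union] at hw
          rcases hw with hw | hw
          · exact ((mT w).1 (hA hw)).1
          · simp only [mem_insert, mem_singleton] at hw
            rcases hw with rfl | rfl | rfl
            · exact s2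
            · exact s3
            · exact s4) ⟨x₁, mem_union_left _ hx1A⟩ (by
          intro h
          apply hAT
          apply subset_antisymm hA
          intro w hw
          have hw' := (mT w).1 hw
          have h9 : w ∈ A ∪ {x₂, x₃, x₄} := by rw [h]; exact hw'.1
          rw [mem_union] at h9
          simp only [mem_insert, mem_singleton] at h9
          rcases h9 with h9 | h9 | h9 | h9
          · exact h9
          · exact absurd h9 hw'.2.1
          · exact absurd h9 hw'.2.2.1
          · exact absurd h9 hw'.2.2.2)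
        rw [mem_sdiff, mem_union, not_or] at hv
        simp only [mem_insert, mem_singleton, not_or] at hv
        obtain ⟨hvS, hvA, hv2, hv3, hv4⟩ := hv
        have hvT : v ∈ T := (mT v).2 ⟨hvS, hv2, hv3, hv4⟩
        rw [mem_union] at hu
        rcases hu with hu | hu
        · exact hvA (hcon' u hu v hvT (by
            rw [hG', run4G_adj]; exact Or.inl ⟨h, hA hu, hvT⟩))
        · simp only [mem_insert, mem_singleton] at hu
          rcases hu with rfl | rfl | rfl
          · rcases (n2 v).1 h with rfl | rfl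
            · exact hvA hx1A
            · exact hv3 rfl
          · rcases (n3 v).1 h with rfl | rfl
            · exact hv2 rfl
            · exact hv4 rfl
          · rcases (n4 v).1 h with rfl | rfl
            · exact hv3 rfl
            · exact hvA hbA
      · have hbA : b ∉ A := by
          intro hb
          exact hx1A (hcon' b hb x₁ t1 ((n1' b).2 (Or.inr rfl)).symm)
        obtain ⟨u, hu, v, hv, h⟩ := hI.1.conn A (fun w hw => ((mT w).1 (hA hw)).1) hAne (by
          rintro rfl
          exact hx1A s1)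
        rw [mem_sdiff] at hv
        by_cases hvT : v ∈ T
        · exact hv.2 (hcon' u hu v hvT (by
            rw [hG', run4G_adj]; exact Or.inl ⟨h, hA hu, hvT⟩))
        · rcases nbr u v h (hA hu) hvT with h' | h'
          · rw [h'.1] at hu; exact hx1A hu
          · rw [h'.1] at hu; exact hbA hu
    · intro v hv
      rw [hdeg v hv]
      exact hI.1.deg v ((mT v).1 hv).1
  have hInI' : InI G' T := by
    refine ⟨hInG', ?_⟩
    intro u v h
    obtain ⟨hu, hv⟩ := hG'G u v h
    rw [hdeg u hu, hdeg v hv]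
    rw [hG', run4G_adj] at h
    rcases h with ⟨h, _, _⟩ | ⟨rfl, rfl⟩ | ⟨rfl, rfl⟩
    · exact hI.2 u v h
    · left; omega
    · right; omega
  have hTS : T.card + 3 = S.card := by
    have h3 : ({x₂, x₃, x₄} : Finset V).card = 3 := by
      rw [card_insert_of_notMem, card_insert_of_notMem, card_singleton]
      · simpa using d34
      · simp only [mem_insert, mem_singleton, not_or]; exact ⟨d23, d24⟩
    have hsub : ({x₂, x₃, x₄} : Finset V) ⊆ S := by
      intro w hw
      simp only [mem_insert, mem_singleton] at hw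
      rcases hw with rfl | rfl | rfl
      · exact s2
      · exact s3
      · exact s4
    rw [hT, card_sdiff_of_subset hsub, h3]
    have := card_le_card hsub
    omega
  -- the colouring
  have main : (∃ φ : V → Finset C, IsCol q φ ∧ (∀ v ∈ T, v ≠ x₁ → miss G' φ v = ∅) ∧
      (miss G' φ x₁).card ≤ q ∧ ∀ z, G'.Adj x₁ z → (φ x₁ ∩ φ z).card ≤ q) → Good q C G S := by
    rintro ⟨φ, hφ, hdom, hmiss, hint⟩
    have hD : ∀ z, G'.Adj x₁ z → q ≤ (φ z \ φ x₁).card := by
      intro z hz
      have e1 := hint z hz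
      have e2 := card_sdiff_add_card_inter (φ z) (φ x₁)
      rw [hφ z, inter_comm] at e2
      omega
    have hm : (univ \ (φ x₁ ∪ φ a ∪ φ b)).card ≤ q := by
      refine le_trans (card_le_card ?_) hmiss
      intro c hc
      simp only [mem_sdiff, mem_univ, true_and, mem_union, not_or] at hc
      rw [mem_miss]
      refine ⟨hc.1.1, fun w hw => ?_⟩
      rcases (n1' w).1 hw with rfl | rfl
      · exact hc.1.2
      · exact hc.2
    obtain ⟨X, Y, hX, hY, e1, e2, e3⟩ := exists_split3 hC (φ x₁) (φ a) (φ b) (hφ x₁)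
      (hD a ((n1' a).2 (Or.inl rfl))) (hD b ((n1' b).2 (Or.inr rfl))) hm
    set ψ : V → Finset C := fun v => if v = x₂ then X else if v = x₃ then Y else
      if v = x₄ then φ x₁ else φ v with hψ
    have p2 : ψ x₂ = X := by simp [hψ]
    have p3 : ψ x₃ = Y := by simp [hψ, d23.symm]
    have p4 : ψ x₄ = φ x₁ := by simp [hψ, d24.symm, d34.symm]
    have pT : ∀ v ∈ T, ψ v = φ v := by
      intro v hv
      have := (mT v).1 hv
      simp [hψ, this.2.1, this.2.2.1, this.2.2.2]
    refine ⟨ψ, ?_, ?_⟩
    · intro v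
      simp only [hψ]
      split_ifs
      · exact hX
      · exact hY
      · exact hφ _
      · exact hφ _
    · intro v hv
      rw [eq_empty_iff_forall_notMem]
      intro c hc
      rw [mem_miss] at hc
      obtain ⟨hc1, hc2⟩ := hc
      by_cases hv2 : v = x₂
      · subst hv2
        have u1 := hc2 _ h12.symm
        have u3 := hc2 _ h23
        rw [pT _ t1] at u1
        rw [p3] at u3
        rw [p2] at hc1
        have h9 : c ∈ φ x₁ ∪ X ∪ Y := by rw [e1]; exact mem_univ _
        rcases mem_union.1 h9 with h9 | h9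
        · rcases mem_union.1 h9 with h9 | h9
          · exact u1 h9
          · exact hc1 h9
        · exact u3 h9
      by_cases hv3 : v = x₃
      · subst hv3
        have u1 := hc2 _ h23.symm
        have u3 := hc2 _ h34
        rw [p2] at u1
        rw [p4] at u3
        rw [p3] at hc1
        have h9 : c ∈ φ x₁ ∪ X ∪ Y := by rw [e1]; exact mem_univ _
        rcases mem_union.1 h9 with h9 | h9
        · rcases mem_union.1 h9 with h9 | h9
          · exact u3 h9
          · exact u1 h9
        · exact hc1 h9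
      by_cases hv4 : v = x₄
      · subst hv4
        have u1 := hc2 _ h34.symm
        have u3 := hc2 _ h4b
        rw [p3] at u1
        rw [pT _ tb] at u3
        rw [p4] at hc1
        have h9 : c ∈ φ x₁ ∪ φ b ∪ Y := by rw [e3]; exact mem_univ _
        rcases mem_union.1 h9 with h9 | h9
        · rcases mem_union.1 h9 with h9 | h9
          · exact hc1 h9
          · exact u3 h9
        · exact u1 h9
      by_cases hv1 : v = x₁
      · subst hv1
        have u1 := hc2 _ h12
        have u3 := hc2 _ h1a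
        rw [p2] at u1
        rw [pT _ ta] at u3
        rw [pT _ t1] at hc1
        have h9 : c ∈ φ v ∪ φ a ∪ X := by rw [e2]; exact mem_univ _
        rcases mem_union.1 h9 with h9 | h9
        · rcases mem_union.1 h9 with h9 | h9
          · exact hc1 h9
          · exact u3 h9
        · exact u1 h9
      · have hvT : v ∈ T := (mT v).2 ⟨hv, hv2, hv3, hv4⟩
        have hd := hdom v hvT hv1
        rw [eq_empty_iff_forall_notMem] at hd
        apply hd c
        rw [mem_miss]
        refine ⟨by rwa [pT v hvT] at hc1, fun w hw => ?_⟩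
        rw [hG', run4G_adj] at hw
        rcases hw with ⟨h, _, hwT⟩ | ⟨h, _⟩ | ⟨h, hw⟩
        · have := hc2 w h
          rwa [pT w hwT] at this
        · exact absurd h hv1
        · subst h
          subst hw
          have := hc2 _ h4b.symm
          rwa [p4] at this
  rcases ih G' T hInI' (by omega) with ⟨φ, hφ, hdom⟩ | h | ⟨h4, -, -⟩
  · left
    refine main ⟨φ, hφ, fun v hv _ => hdom v hv, ?_, ?_⟩
    · rw [hdom _ t1]; simp
    · intro z hz
      exact inter_le_of_deg2 hC hφ (by rw [hdeg _ t1, c1]) (hdom _ t1) hz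
  · left
    exact main (h.1 x₁ t1)
  · right; left
    obtain ⟨b', c', d', hnd, hT4, hE⟩ := four_cycle_of_card hInI' h4 t1
    -- arrange that the neighbour `b'` is `b`
    obtain ⟨e, hnd, hT4, hE⟩ : ∃ e, [x₁, b, e, a].Nodup ∧ T = {x₁, b, e, a} ∧
        G'.edgeSet = {s(x₁, b), s(b, e), s(e, a), s(a, x₁)} := by
      have hb' : G'.Adj x₁ b' := by
        rw [← SimpleGraph.mem_edgeSet, hE]; simp
      have hd' : G'.Adj x₁ d' := by
        rw [← SimpleGraph.mem_edgeSet, hE]
        simp [Sym2.eq_swap]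
      have hbd : b' ≠ d' := by
        intro h
        subst h
        simp at hnd
      rcases (n1' b').1 hb' with rfl | rfl
      · rcases (n1' d').1 hd' with rfl | rfl
        · exact absurd rfl hbd
        · refine ⟨c', ?_, ?_, ?_⟩
          · simp only [List.nodup_cons, List.mem_cons, List.not_mem_nil, or_false, not_or,
              not_false_eq_true, List.nodup_nil, and_true] at hnd ⊢
            obtain ⟨⟨g1, g2, g3⟩, ⟨g4, g5⟩, g6⟩ := hnd
            exact ⟨⟨g3, g2, g1⟩, ⟨fun h => g6 h.symm, fun h => g5 h.symm⟩, fun h => g4 h.symm⟩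
          · rw [hT4]
            exact run4_perm4 x₁ b' c' d'
          · rw [hE]
            exact run4_rev4 x₁ b' c' d'
      · rcases (n1' d').1 hd' with rfl | rfl
        · exact ⟨c', hnd, hT4, hE⟩
        · exact absurd rfl hbd
    have hnd4 := hnd
    simp only [List.nodup_cons, List.mem_cons, List.not_mem_nil, or_false, not_or,
      not_false_eq_true, List.nodup_nil, and_true] at hnd
    obtain ⟨⟨g1, g2, g3⟩, ⟨g4, g5⟩, g6⟩ := hnd
    have te : e ∈ T := by rw [hT4]; simp
    have te' := (mT e).1 te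
    have hbe : G.Adj b e := by
      have : G'.Adj b e := by rw [← SimpleGraph.mem_edgeSet, hE]; simp
      rw [hG', run4G_adj] at this
      rcases this with ⟨h, _, _⟩ | ⟨h, _⟩ | ⟨_, h⟩
      · exact h
      · exact absurd h hbx1
      · exact absurd h.symm g2
    have hea : G.Adj e a := by
      have : G'.Adj e a := by rw [← SimpleGraph.mem_edgeSet, hE]; simp
      rw [hG', run4G_adj] at this
      rcases this with ⟨h, _, _⟩ | ⟨h, _⟩ | ⟨h, _⟩
      · exact h
      · exact absurd h.symm g2
      · exact absurd h.symm g4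
    have hnd7 : [x₁, x₂, x₃, x₄, b, e, a].Nodup := by
      simp only [List.nodup_cons, List.mem_cons, List.not_mem_nil, or_false, not_or,
        not_false_eq_true, List.nodup_nil, and_true]
      exact ⟨⟨d12, d13, d14, hbx1.symm, g2, hax1.symm⟩,
        ⟨d23, d24, hbx2.symm, fun h => te'.2.1 h.symm, hax2.symm⟩,
        ⟨d34, hbx3.symm, fun h => te'.2.2.1 h.symm, hax3.symm⟩,
        ⟨hbx4.symm, fun h => te'.2.2.2 h.symm, hax4.symm⟩, ⟨g4, g5⟩, g6⟩
    have hS7 : S = {x₁, x₂, x₃, x₄, b, e, a} := by
      ext w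
      have hw : w ∈ T ↔ w = x₁ ∨ w = b ∨ w = e ∨ w = a := by rw [hT4]; simp
      simp only [mem_insert, mem_singleton]
      constructor
      · intro hwS
        by_cases hw2 : w = x₂
        · simp only [hw2, true_or, or_true]
        by_cases hw3 : w = x₃
        · simp only [hw3, true_or, or_true]
        by_cases hw4 : w = x₄
        · simp only [hw4, true_or, or_true]
        have hwT : w ∈ T := (mT w).2 ⟨hwS, hw2, hw3, hw4⟩
        rcases hw.1 hwT with h | h | h | h
        · simp only [h, true_or]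
        · simp only [h, true_or, or_true]
        · simp only [h, true_or, or_true]
        · simp only [h, or_true]
      · rintro (rfl | rfl | rfl | rfl | rfl | rfl | rfl)
        · exact s1
        · exact s2
        · exact s3
        · exact s4
        · exact sb
        · exact te'.1
        · exact sa
    have hE7 : G.edgeSet = {s(x₁, x₂), s(x₂, x₃), s(x₃, x₄), s(x₄, b), s(b, e), s(e, a),
        s(a, x₁)} := by
      refine run4_edges7 (T := T) h12 h23 h34 h4b hbe hea h1a (fun w => (n2 w).1)
        (fun w => (n3 w).1) (fun w => (n4 w).1) hx1b nbr ?_ ?_ hE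
      · intro u v h hu
        have huS := sup _ _ h
        by_contra hcon
        push Not at hcon
        exact hu ((mT u).2 ⟨huS, hcon.1, hcon.2.1, hcon.2.2⟩)
      · intro u v h hu hv
        rw [hG', run4G_adj]
        exact Or.inl ⟨h, hu, hv⟩
    have hb7 := base_C7 hC G S x₁ x₂ x₃ x₄ b e a hnd7 hS7 hE7
    have hcard : S.card = 7 := by omega
    have hdeg2 : ∀ v ∈ T, (nb G v).card = 2 := by
      obtain ⟨k1, k2, k3⟩ := run4_deg4 hnd4 hE
      intro v hv
      rw [← hdeg v hv]
      have hv' := hv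
      rw [hT4] at hv'
      simp only [mem_insert, mem_singleton] at hv'
      rcases hv' with h | h | h | h
      · rw [h, hdeg _ t1, c1]
      · rw [h, k1]
      · rw [h, k2]
      · rw [h, k3]
    refine ⟨hb7.1, by omega, Or.inr ⟨hcard, ?_⟩, Or.inl hb7.2⟩
    intro v hv
    by_cases hvT : v ∈ T
    · exact hdeg2 v hvT
    · by_cases hv2 : v = x₂
      · rw [hv2]; exact c2
      by_cases hv3 : v = x₃
      · rw [hv3]; exact c3
      by_cases hv4 : v = x₄
      · rw [hv4]; exact c4
      exact absurd ((mT v).2 ⟨hv, hv2, hv3, hv4⟩) hvT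

end Pool.Agent.Lib.MP_db02ae_co
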