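import Pool.Agent.Lib.MP_db02ae_co.SetLemmas

open Finset
open scoped Classical

namespace Pool.Agent.Lib.MP_db02ae_co

variable {V : Type} [Fintype V] {C : Type} [Fintype C] {q : ℕ}

/-- the rooted colouring of one side of a bridge -/
theorem bridge_side (hC : Fintype.card C = 5 * q) (P : SimpleGraph V → Prop)
    (hP : ∀ G S, P G → P (restr G S)) (n : ℕ)
    (ih : ∀ (G' : SimpleGraph V) (S' : Finset V), P G' → InG G' S' → S'.card < n →
      ∀ r ∈ S', RootAt q (2 * q) C G' S' r) :
    ∀ (k : ℕ) (H : SimpleGraph V) (T : Finset V) (b : V), T.card = k → T.card < n → P H →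
      (∀ x y, H.Adj x y → x ∈ T) → b ∈ T → 2 ≤ T.card →
      (∀ A ⊆ T, A.Nonempty → A ≠ T → ∃ x ∈ A, ∃ y ∈ T \ A, H.Adj x y) →
      (∀ v ∈ T, v ≠ b → 2 ≤ (nb H v).card) → RootAt q (2 * q) C H T b := by
  intro k
  induction k using Nat.strong_induction_on with
  | _ k ihk =>
    intro H T b hk hn hPH hsupp hb h2 hconn hdeg
    have hne : ({b} : Finset V) ≠ T := by
      intro h
      rw [← h] at h2
      simp at h2
    obtain ⟨x, hx, c, hc, hbc⟩ := hconn {b} (by simpa using hb) (Finset.singleton_nonempty b) hne
    rw [Finset.mem_singleton] at hx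
    subst hx
    rw [Finset.mem_sdiff, Finset.mem_singleton] at hc
    by_cases hdb : 2 ≤ (nb H x).card
    · exact ih H T hPH ⟨hsupp, ⟨x, hb⟩, hconn, fun v hv => by
        by_cases hvx : v = x
        · rw [hvx]; exact hdb
        · exact hdeg v hv hvx⟩ hn x hb
    · have hnx : nb H x = {c} := by
        symm
        apply Finset.eq_of_subset_of_card_le
        · intro z hz
          rw [Finset.mem_singleton] at hz
          rw [hz, mem_nb]
          exact hbc
        · rw [Finset.card_singleton]; omega
      have honly : ∀ z, H.Adj x z → z = c := by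
        intro z hz
        have : z ∈ nb H x := by rw [mem_nb]; exact hz
        rw [hnx, Finset.mem_singleton] at this
        exact this
      have hcT : c ∈ T.erase x := Finset.mem_erase.mpr ⟨hc.2, hc.1⟩
      have hcard : (T.erase x).card = T.card - 1 := Finset.card_erase_of_mem hb
      obtain ⟨φ, h1, h2', h3⟩ := ihk (T.erase x).card (by omega) (restr H (T.erase x))
        (T.erase x) c rfl (by omega) (hP _ _ hPH) (fun y z h => h.2.1) hcT (by
          have hd := hdeg c hc.1 hc.2
          have hsub : nb H c ⊆ T.erase c := by
            intro z hz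
            rw [mem_nb] at hz
            exact Finset.mem_erase.mpr ⟨hz.ne', hsupp _ _ hz.symm⟩
          have hxc : x ∈ nb H c := by rw [mem_nb]; exact hbc.symm
          obtain ⟨z, hz, hzx⟩ := Finset.exists_mem_ne (by omega : 1 < (nb H c).card) x
          have hz2 := Finset.mem_erase.mp (hsub hz)
          have : ({c, z} : Finset V) ⊆ T.erase x := by
            intro w hw
            rw [Finset.mem_insert, Finset.mem_singleton] at hw
            rcases hw with rfl | rfl
            · exact hcT
            · exact Finset.mem_erase.mpr ⟨hzx, hz2.2⟩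
          have h5 := Finset.card_le_card this
          rw [Finset.card_pair hz2.1.symm] at h5
          exact h5)
        (by
          intro A hA hAne hAT
          by_cases hcA : c ∈ A
          · have hxA : x ∉ A := fun h => (Finset.mem_erase.mp (hA h)).1 rfl
            obtain ⟨y, hy, z, hz, hyz⟩ := hconn (insert x A)
              (by
                intro w hw
                rw [Finset.mem_insert] at hw
                rcases hw with rfl | hw
                · exact hb
                · exact Finset.mem_of_mem_erase (hA hw))
              (Finset.insert_nonempty _ _)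
              (by
                intro h
                apply hAT
                rw [← h, Finset.erase_insert hxA])
            rw [Finset.mem_insert] at hy
            rw [Finset.mem_sdiff, Finset.mem_insert, not_or] at hz
            rcases hy with rfl | hy
            · exact absurd (honly z hyz ▸ hcA) hz.2.2
            · exact ⟨y, hy, z, Finset.mem_sdiff.mpr ⟨Finset.mem_erase.mpr ⟨hz.2.1, hz.1⟩, hz.2.2⟩,
                hyz, hA hy, Finset.mem_erase.mpr ⟨hz.2.1, hz.1⟩⟩
          · have hxA : x ∉ A := fun h => (Finset.mem_erase.mp (hA h)).1 rfl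
            obtain ⟨y, hy, z, hz, hyz⟩ := hconn A
              (fun w hw => Finset.mem_of_mem_erase (hA hw)) hAne
              (by rintro rfl; exact hxA hb)
            rw [Finset.mem_sdiff] at hz
            have hzx : z ≠ x := by
              rintro rfl
              exact hcA (honly y hyz.symm ▸ hy)
            exact ⟨y, hy, z, Finset.mem_sdiff.mpr ⟨Finset.mem_erase.mpr ⟨hzx, hz.1⟩, hz.2⟩,
                hyz, hA hy, Finset.mem_erase.mpr ⟨hzx, hz.1⟩⟩)
        (by
          intro v hv hvc
          rw [Finset.mem_erase] at hv
          refine (hdeg v hv.2 hv.1).trans (Finset.card_le_card ?_)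
          intro w hw
          rw [mem_nb] at hw ⊢
          refine ⟨hw, Finset.mem_erase.mpr hv, Finset.mem_erase.mpr ⟨?_, hsupp _ _ hw.symm⟩⟩
          rintro rfl
          exact hvc (honly v hw.symm))
      -- extend the colouring
      obtain ⟨X, hX1, hX2, hX3⟩ := Finset.exists_subsuperset_card_eq
        (s := miss (restr H (T.erase x)) φ c) (t := univ \ φ c) (n := 2 * q)
        (by
          intro z hz
          rw [mem_miss] at hz
          simp [hz.1]) h3
        (by
          rw [Finset.card_sdiff_of_subset (Finset.subset_univ _), Finset.card_univ, hC, h1 c]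
          omega)
      refine ⟨Function.update φ x X, ?_, ?_, ?_⟩
      · intro v
        by_cases hvx : v = x
        · rw [hvx, Function.update_self]; exact hX3
        · rw [Function.update_of_ne hvx]; exact h1 v
      · intro v hv hvx
        rw [Finset.eq_empty_iff_forall_notMem]
        intro z hz
        rw [mem_miss, Function.update_of_ne hvx] at hz
        obtain ⟨hz1, hz2⟩ := hz
        by_cases hvc : v = c
        · subst hvc
          have h5 := hz2 x hbc.symm
          rw [Function.update_self] at h5
          apply h5
          apply hX1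
          rw [mem_miss]
          refine ⟨hz1, fun w hw => ?_⟩
          have hwx : w ≠ x := by
            rintro rfl
            exact (Finset.mem_erase.mp hw.2.2).1 rfl
          have h6 := hz2 w hw.1
          rwa [Function.update_of_ne hwx] at h6
        · have h5 := h2' v (Finset.mem_erase.mpr ⟨hvx, hv⟩) hvc
          have h6 : z ∈ miss (restr H (T.erase x)) φ v := by
            rw [mem_miss]
            refine ⟨hz1, fun w hw => ?_⟩
            have hwx : w ≠ x := by
              rintro rfl
              exact (Finset.mem_erase.mp hw.2.2).1 rfl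
            have h6 := hz2 w hw.1
            rwa [Function.update_of_ne hwx] at h6
          rw [h5] at h6
          simp at h6
      · have hsub : miss H (Function.update φ x X) x ⊆ univ \ (X ∪ φ c) := by
          intro z hz
          rw [mem_miss, Function.update_self] at hz
          have h5 := hz.2 c hbc
          rw [Function.update_of_ne hc.2] at h5
          simp only [Finset.mem_sdiff, Finset.mem_univ, true_and, Finset.mem_union, not_or]
          exact ⟨hz.1, h5⟩
        refine (Finset.card_le_card hsub).trans ?_
        rw [Finset.card_sdiff_of_subset (Finset.subset_univ _), Finset.card_univ, hC,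
          Finset.card_union_of_disjoint, hX3, h1 c]
        · omega
        · rw [Finset.disjoint_left]
          intro z hz
          have := hX2 hz
          rw [Finset.mem_sdiff] at this
          exact this.2

/-- one side of a bridge satisfies the hypotheses of `bridge_side` -/
theorem bridge_half (hC : Fintype.card C = 5 * q) (P : SimpleGraph V → Prop)
    (hP : ∀ G S, P G → P (restr G S)) {G : SimpleGraph V} {S : Finset V} (hG : P G)
    (hI : InG G S)
    (ih : ∀ (G' : SimpleGraph V) (S' : Finset V), P G' → InG G' S' → S'.card < S.card →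
      ∀ r ∈ S', RootAt q (2 * q) C G' S' r) (A : Finset V) (hA : A ⊆ S) (a b : V) (ha : a ∈ A)
    (hb : b ∈ S \ A)
    (honly : ∀ a' ∈ A, ∀ b' ∈ S \ A, G.Adj a' b' → a' = a ∧ b' = b) :
    RootAt q (2 * q) C (restr G A) A a := by
  have hsuppR : ∀ {x y}, G.Adj x y → y ∈ S := fun {x y} h => hI.supp _ _ h.symm
  have hbS := Finset.mem_sdiff.mp hb
  refine bridge_side hC P hP S.card ih A.card (restr G A) A a rfl ?_ (hP _ _ hG)
    (fun x y h => h.2.1) ha ?_ ?_ ?_
  · apply Finset.card_lt_card
    rw [Finset.ssubset_iff_of_subset hA]
    exact ⟨b, hbS.1, hbS.2⟩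
  · have hd := hI.deg a (hA ha)
    obtain ⟨z, hz, hzb⟩ := Finset.exists_mem_ne (by omega : 1 < (nb G a).card) b
    rw [mem_nb] at hz
    have hzA : z ∈ A := by
      by_contra hcon
      exact hzb (honly a ha z (Finset.mem_sdiff.mpr ⟨hsuppR hz, hcon⟩) hz).2
    have : ({a, z} : Finset V) ⊆ A := by
      intro w hw
      rw [Finset.mem_insert, Finset.mem_singleton] at hw
      rcases hw with rfl | rfl
      · exact ha
      · exact hzA
    have h5 := Finset.card_le_card this
    rw [Finset.card_pair hz.ne] at h5
    exact h5
  · intro A' hA' hne hneA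
    by_cases haA' : a ∈ A'
    · obtain ⟨x, hx, y, hy, hxy⟩ := hI.conn (A' ∪ (S \ A))
        (by
          intro w hw
          rw [Finset.mem_union, Finset.mem_sdiff] at hw
          rcases hw with hw | hw
          · exact hA (hA' hw)
          · exact hw.1)
        (hne.mono Finset.subset_union_left)
        (by
          intro h
          apply hneA
          apply Finset.Subset.antisymm hA'
          intro w hw
          have : w ∈ A' ∪ (S \ A) := by rw [h]; exact hA hw
          rw [Finset.mem_union, Finset.mem_sdiff] at this
          rcases this with h1 | h1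
          · exact h1
          · exact absurd hw h1.2)
      rw [Finset.mem_sdiff, Finset.mem_union, Finset.mem_sdiff, not_or] at hy
      have hyA : y ∈ A := by
        by_contra hcon
        exact hy.2.2 ⟨hy.1, hcon⟩
      rw [Finset.mem_union] at hx
      rcases hx with hx | hx
      · exact ⟨x, hx, y, Finset.mem_sdiff.mpr ⟨hyA, hy.2.1⟩, hxy, hA' hx, hyA⟩
      · exfalso
        have := (honly y hyA x hx hxy.symm).1
        exact hy.2.1 (this ▸ haA')
    · obtain ⟨x, hx, y, hy, hxy⟩ := hI.conn A' (hA'.trans hA) hne
        (by rintro rfl; exact haA' (hA ha))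
      rw [Finset.mem_sdiff] at hy
      have hyA : y ∈ A := by
        by_contra hcon
        have := (honly x (hA' hx) y (Finset.mem_sdiff.mpr ⟨hy.1, hcon⟩) hxy).1
        exact haA' (this ▸ hx)
      exact ⟨x, hx, y, Finset.mem_sdiff.mpr ⟨hyA, hy.2⟩, hxy, hA' hx, hyA⟩
  · intro v hv hva
    refine (hI.deg v (hA hv)).trans (Finset.card_le_card ?_)
    intro w hw
    rw [mem_nb] at hw ⊢
    refine ⟨hw, hv, ?_⟩
    by_contra hcon
    exact hva (honly v hv w (Finset.mem_sdiff.mpr ⟨hsuppR hw, hcon⟩) hw).1

/-- a graph with a bridge has a dominating colouring, if all smaller graphs (in a class `P`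
closed under restriction) have rooted colourings -/
theorem step_bridge_gen (hC : Fintype.card C = 5 * q) (P : SimpleGraph V → Prop)
    (hP : ∀ G S, P G → P (restr G S)) {G : SimpleGraph V} {S : Finset V} (hG : P G)
    (hI : InG G S) (hb : HasBridge G S)
    (ih : ∀ (G' : SimpleGraph V) (S' : Finset V), P G' → InG G' S' → S'.card < S.card →
      ∀ r ∈ S', RootAt q (2 * q) C G' S' r) : Good q C G S := by
  obtain ⟨A, hA, a, ha, b, hb, hab, honly⟩ := hb
  obtain ⟨φ, hφ1, hφ2, hφ3⟩ := bridge_half hC P hP hG hI ih A hA a b ha hb honly
  have hbS := Finset.mem_sdiff.mp hb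
  have hSA : S \ (S \ A) = A := by
    exact Finset.sdiff_sdiff_eq_self hA
  obtain ⟨ψ, hψ1, hψ2, hψ3⟩ := bridge_half hC P hP hG hI ih (S \ A) Finset.sdiff_subset b a hb
    (by rw [hSA]; exact ha) (by
      rw [hSA]
      intro b' hb' a' ha' h
      exact (honly a' ha' b' hb' h.symm).symm)
  obtain ⟨π, hπ1, hπ2⟩ := exists_perm_bridge (φ a) (ψ b) (miss (restr G A) φ a)
    (miss (restr G (S \ A)) ψ b) (hφ1 a) (hψ1 b)
    (by
      rw [Finset.disjoint_left]
      intro z hz
      rw [mem_miss] at hz
      exact hz.1)
    (by
      rw [Finset.disjoint_left]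
      intro z hz
      rw [mem_miss] at hz
      exact hz.1) hφ3 hψ3
  have hψ1' := isCol_perm hψ1 π
  set χ : V → Finset C := fun v => (ψ v).map π.toEmbedding with hχ
  have hχ2 : ∀ v ∈ S \ A, v ≠ b → miss (restr G (S \ A)) χ v = ∅ := by
    intro v hv hvb
    rw [hχ, miss_perm, hψ2 v hv hvb, Finset.map_empty]
  have hχ3 : miss (restr G (S \ A)) χ b ⊆ φ a := by
    rw [hχ, miss_perm]
    exact hπ2
  refine ⟨fun v => if v ∈ A then φ v else χ v, ?_, ?_⟩
  · intro v
    by_cases hv : v ∈ A
    · simp only [hv, if_true]; exact hφ1 v
    · simp only [hv, if_false]; exact hψ1' v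
  · intro v hv
    rw [Finset.eq_empty_iff_forall_notMem]
    intro z hz
    rw [mem_miss] at hz
    obtain ⟨hz1, hz2⟩ := hz
    by_cases hvA : v ∈ A
    · simp only [hvA, if_true] at hz1
      have hz3 : z ∈ miss (restr G A) φ v := by
        rw [mem_miss]
        refine ⟨hz1, fun w hw => ?_⟩
        have := hz2 w hw.1
        simpa only [hw.2.2, if_true] using this
      by_cases hva : v = a
      · subst hva
        have h5 := hz2 b hab
        simp only [hbS.2, if_false] at h5
        exact h5 (hπ1 hz3)
      · rw [hφ2 v hvA hva] at hz3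
        simp at hz3
    · simp only [hvA, if_false] at hz1
      have hvB : v ∈ S \ A := Finset.mem_sdiff.mpr ⟨hv, hvA⟩
      have hz3 : z ∈ miss (restr G (S \ A)) χ v := by
        rw [mem_miss]
        refine ⟨hz1, fun w hw => ?_⟩
        have := hz2 w hw.1
        have hwA : w ∉ A := (Finset.mem_sdiff.mp hw.2.2).2
        simpa only [hwA, if_false] using this
      by_cases hvb : v = b
      · subst hvb
        have h5 := hz2 a hab.symm
        simp only [ha, if_true] at h5
        exact h5 (hχ3 hz3)
      · rw [hχ2 v hvB hvb] at hz3
        simp at hz3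

theorem hubInd_restr (G : SimpleGraph V) (S : Finset V) (h : HubInd G) : HubInd (restr G S) := by
  intro a b hab
  have hsub : ∀ v, nb (restr G S) v ⊆ nb G v := by
    intro v w hw
    rw [mem_nb] at hw ⊢
    exact hw.1
  rcases h a b hab.1 with h1 | h1
  · exact Or.inl ((Finset.card_le_card (hsub a)).trans h1)
  · exact Or.inr ((Finset.card_le_card (hsub b)).trans h1)

theorem step_bridge (hC : Fintype.card C = 5 * q) {G : SimpleGraph V} {S : Finset V}
    (hI : InI G S) (hb : HasBridge G S) (ih : IH V q C S.card) : Good q C G S :=
  step_bridge_gen hC HubInd hubInd_restr hI.2 hI.1 hb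
    (fun G' S' h1 h2 h3 _ hr => TT.rootAt (ih G' S' ⟨h2, h1⟩ h3) hr)

end Pool.Agent.Lib.MP_db02ae_co
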