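import Pool.Agent.Lib.MP_db02ae_co.SetLemmas
import Pool.Agent.Lib.MP_db02ae_co.Base
import Pool.Agent.Lib.MP_db02ae_co.StepBridge

open Finset
open scoped Classical

namespace Pool.Agent.Lib.MP_db02ae_co

variable {V : Type} [Fintype V] {C : Type} [Fintype C] {q : ℕ}

/-- copying the colour set of a twin -/
lemma tw_copy {G : SimpleGraph V} {S : Finset V} {x y : V} (hxS : x ∈ S)
    (hxy : x ≠ y) (hN : nb G x = nb G y)
    (h : Good q C (restr G (S.erase y)) (S.erase y)) : Good q C G S := by
  obtain ⟨φ, hφ, hd⟩ := h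
  have hadj : ∀ w, G.Adj x w ↔ G.Adj y w := by
    intro w
    have := congrArg (fun s => w ∈ s) hN
    simpa using this
  have hnxy : ¬ G.Adj x y := by
    intro h
    exact G.loopless.irrefl y ((hadj y).1 h)
  have key : ∀ w ∈ S, w ≠ y → miss G (Function.update φ y (φ x)) w = ∅ := by
    intro w hw hwy
    rw [eq_empty_iff_forall_notMem]
    intro c hc
    rw [mem_miss] at hc
    have h1 : c ∈ miss (restr G (S.erase y)) φ w := by
      rw [mem_miss]
      refine ⟨by simpa [hwy] using hc.1, ?_⟩
      intro z hz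
      have hzy : z ≠ y := (mem_erase.1 hz.2.2).1
      simpa [hzy] using hc.2 z hz.1
    rw [hd w (mem_erase.2 ⟨hwy, hw⟩)] at h1
    simp at h1
  refine ⟨Function.update φ y (φ x), ?_, ?_⟩
  · intro v
    by_cases hv : v = y
    · subst hv; simp [hφ x]
    · simp [hv, hφ v]
  · intro w hw
    by_cases hwy : w = y
    · subst hwy
      rw [eq_empty_iff_forall_notMem]
      intro c hc
      rw [mem_miss] at hc
      have h1 : c ∈ miss G (Function.update φ w (φ x)) x := by
        rw [mem_miss]
        refine ⟨by simpa [hxy] using hc.1, ?_⟩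
        intro z hz
        exact hc.2 z ((hadj z).1 hz)
      rw [key x hxS hxy] at h1
      simp at h1
    · exact key w hw hwy

/-- splitting the colour set of a twin -/
lemma tw_split (hC : Fintype.card C = 5 * q) {G : SimpleGraph V} {S : Finset V}
    {x y u v : V} (hxy : x ≠ y) (huv : u ≠ v)
    (hNx : nb G x = {u, v}) (hNy : nb G y = {u, v}) (huS : u ∈ S) (hvS : v ∈ S) (hxS : x ∈ S)
    (h : TwAt q C (restr G (S.erase y)) (S.erase y) x) : Good q C G S := by
  obtain ⟨φ, hφ, hd, hdis⟩ := h
  have hax : ∀ w, G.Adj x w ↔ w = u ∨ w = v := by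
    intro w
    rw [← mem_nb, hNx]; simp
  have hay : ∀ w, G.Adj y w ↔ w = u ∨ w = v := by
    intro w
    rw [← mem_nb, hNy]; simp
  have hxu : G.Adj x u := (hax u).2 (Or.inl rfl)
  have hxv : G.Adj x v := (hax v).2 (Or.inr rfl)
  have hyu : G.Adj y u := (hay u).2 (Or.inl rfl)
  have hyv : G.Adj y v := (hay v).2 (Or.inr rfl)
  have hdj : Disjoint (φ u) (φ v) := by
    apply hdis u v huv
    · exact ⟨hxu, mem_erase.2 ⟨hxy, hxS⟩, mem_erase.2 ⟨hyu.ne', huS⟩⟩
    · exact ⟨hxv, mem_erase.2 ⟨hxy, hxS⟩, mem_erase.2 ⟨hyv.ne', hvS⟩⟩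
  set N : Finset C := univ \ (φ u ∪ φ v) with hN
  have hNc : N.card = q := by
    rw [hN, card_sdiff_of_subset (subset_univ _), card_univ, card_union_of_disjoint hdj, hφ u,
      hφ v, hC]
    omega
  obtain ⟨A, hA, hAc⟩ : ∃ A ⊆ φ x, A.card = q :=
    exists_subset_card_eq (by rw [hφ x]; omega)
  have hBc : (φ x \ A).card = q := by
    rw [card_sdiff_of_subset hA, hφ x, hAc]; omega
  obtain ⟨X₁, h11, h12⟩ := exists_superset_card (N ∪ A) (2 * q)
    ((card_union_le _ _).trans (by omega)) (by omega)
  obtain ⟨X₂, h21, h22⟩ := exists_superset_card (N ∪ (φ x \ A)) (2 * q)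
    ((card_union_le _ _).trans (by omega)) (by omega)
  have hcov : ∀ c, c ∈ φ x → c ∈ X₁ ∨ c ∈ X₂ := by
    intro c hc
    by_cases hcA : c ∈ A
    · exact Or.inl (h11 (mem_union_right _ hcA))
    · exact Or.inr (h21 (mem_union_right _ (mem_sdiff.2 ⟨hc, hcA⟩)))
  refine ⟨Function.update (Function.update φ x X₁) y X₂, ?_, ?_⟩
  · intro w
    by_cases hwy : w = y
    · subst hwy; simp [h22]
    · by_cases hwx : w = x
      · subst hwx; simp [hwy, h12]
      · simp [hwy, hwx, hφ w]
  · intro w hw
    rw [eq_empty_iff_forall_notMem]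
    intro c hc
    rw [mem_miss] at hc
    have hu' : Function.update (Function.update φ x X₁) y X₂ u = φ u := by
      simp [hyu.ne', hxu.ne']
    have hv' : Function.update (Function.update φ x X₁) y X₂ v = φ v := by
      simp [hyv.ne', hxv.ne']
    by_cases hwy : w = y
    · subst hwy
      have h1 := hc.2 u hyu
      have h2 := hc.2 v hyv
      rw [hu'] at h1
      rw [hv'] at h2
      have h3 : c ∈ N := mem_sdiff.2 ⟨mem_univ _, by simp [h1, h2]⟩
      have h4 := hc.1
      rw [Function.update_self] at h4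
      exact h4 (h21 (mem_union_left _ h3))
    · by_cases hwx : w = x
      · subst hwx
        have h1 := hc.2 u hxu
        have h2 := hc.2 v hxv
        rw [hu'] at h1
        rw [hv'] at h2
        have h3 : c ∈ N := mem_sdiff.2 ⟨mem_univ _, by simp [h1, h2]⟩
        have h4 := hc.1
        rw [Function.update_of_ne hwy, Function.update_self] at h4
        exact h4 (h11 (mem_union_left _ h3))
      · have h1 : c ∈ miss (restr G (S.erase y)) φ w := by
          rw [mem_miss]
          refine ⟨by simpa [hwy, hwx] using hc.1, ?_⟩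
          intro z hz
          have hzy : z ≠ y := (mem_erase.1 hz.2.2).1
          by_cases hzx : z = x
          · subst hzx
            have hwy' : G.Adj w y := by
              rw [G.adj_comm, hay, ← hax, G.adj_comm]; exact hz.1
            have h5 := hc.2 y hwy'
            have h6 := hc.2 z hz.1
            rw [Function.update_self] at h5
            rw [Function.update_of_ne hzy, Function.update_self] at h6
            intro h7
            rcases hcov c h7 with h | h
            · exact h6 h
            · exact h5 h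
          · simpa [hzy, hzx] using hc.2 z hz.1
        rw [hd w (mem_erase.2 ⟨hwy, hw⟩) hwx] at h1
        simp at h1

/-- a twin whose neighbour has degree 2 : the graph is a 4-cycle -/
lemma tw_card_four {G : SimpleGraph V} {S : Finset V} (hc : ¬ HasCut G S)
    {x y u v : V} (hxy : x ≠ y) (hxS : x ∈ S) (hyS : y ∈ S) (huS : u ∈ S) (hvS : v ∈ S)
    (huv : u ≠ v) (hNx : nb G x = {u, v}) (hNy : nb G y = {u, v}) (hu : (nb G u).card = 2) :
    S.card = 4 := by
  have hax : ∀ w, G.Adj x w ↔ w = u ∨ w = v := by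
    intro w
    rw [← mem_nb, hNx]; simp
  have hay : ∀ w, G.Adj y w ↔ w = u ∨ w = v := by
    intro w
    rw [← mem_nb, hNy]; simp
  have hxu : G.Adj x u := (hax u).2 (Or.inl rfl)
  have hxv : G.Adj x v := (hax v).2 (Or.inr rfl)
  have hyu : G.Adj y u := (hay u).2 (Or.inl rfl)
  have hyv : G.Adj y v := (hay v).2 (Or.inr rfl)
  have hNu : nb G u = {x, y} := by
    symm
    apply eq_of_subset_of_card_le
    · intro w hw
      simp only [mem_insert, mem_singleton] at hw
      rcases hw with rfl | rfl
      · exact mem_nb.2 hxu.symm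
      · exact mem_nb.2 hyu.symm
    · rw [hu, card_pair hxy]
  have hau : ∀ w, G.Adj u w ↔ w = x ∨ w = y := by
    intro w
    rw [← mem_nb, hNu]; simp
  have hA : ({x, y, u} : Finset V) = S.erase v := by
    by_contra hne
    apply hc
    refine ⟨v, hvS, {x, y, u}, ?_, ⟨x, by simp⟩, hne, ?_⟩
    · intro w hw
      simp only [mem_insert, mem_singleton] at hw
      rw [mem_erase]
      rcases hw with rfl | rfl | rfl
      · exact ⟨hxv.ne, hxS⟩
      · exact ⟨hyv.ne, hyS⟩
      · exact ⟨huv, huS⟩
    · intro a ha b hb hab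
      simp only [mem_insert, mem_singleton] at ha
      simp only [mem_sdiff, mem_erase, mem_insert, mem_singleton, not_or] at hb
      rcases ha with rfl | rfl | rfl
      · rcases (hax b).1 hab with h | h
        · exact hb.2.2.2 h
        · exact hb.1.1 h
      · rcases (hay b).1 hab with h | h
        · exact hb.2.2.2 h
        · exact hb.1.1 h
      · rcases (hau b).1 hab with h | h
        · exact hb.2.1 h
        · exact hb.2.2.1 h
  have h1 : (S.erase v).card = S.card - 1 := card_erase_of_mem hvS
  have h2 : ({x, y, u} : Finset V).card = 3 := by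
    rw [card_insert_of_notMem, card_pair hyu.ne]
    simp only [mem_insert, mem_singleton, not_or]
    exact ⟨hxy, hxu.ne⟩
  have h3 : 0 < S.card := card_pos.2 ⟨x, hxS⟩
  rw [← hA, h2] at h1
  omega

lemma tw_inI {G : SimpleGraph V} {S : Finset V} (hI : InI G S) (hc : ¬ HasCut G S) {x y : V}
    (hxS : x ∈ S) (hyS : y ∈ S) (hxy : x ≠ y) (hdeg : ∀ w, G.Adj y w → 3 ≤ (nb G w).card) :
    InI (restr G (S.erase y)) (S.erase y) := by
  have hle : ∀ w, (nb (restr G (S.erase y)) w).card ≤ (nb G w).card := by
    intro w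
    apply card_le_card
    intro z hz
    rw [mem_nb] at hz ⊢
    exact hz.1
  refine ⟨⟨?_, ⟨x, mem_erase.2 ⟨hxy, hxS⟩⟩, ?_, ?_⟩, ?_⟩
  · intro a b h
    exact h.2.1
  · intro A hA hAne hAn
    by_contra hcon
    push Not at hcon
    apply hc
    refine ⟨y, hyS, A, hA, hAne, hAn, ?_⟩
    intro a ha b hb hab
    exact hcon a ha b hb ⟨hab, hA ha, (mem_sdiff.1 hb).1⟩
  · intro w hw
    have h1 : (nb G w).erase y ⊆ nb (restr G (S.erase y)) w := by
      intro z hz
      rw [mem_erase, mem_nb] at hz
      rw [mem_nb]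
      exact ⟨hz.2, hw, mem_erase.2 ⟨hz.1, hI.1.supp z w hz.2.symm⟩⟩
    have h2 := card_le_card h1
    have hwS : w ∈ S := (mem_erase.1 hw).2
    by_cases hyw : G.Adj y w
    · have h3 := hdeg w hyw
      have h4 := pred_card_le_card_erase (s := nb G w) (a := y)
      omega
    · have h3 : (nb G w).erase y = nb G w := by
        apply erase_eq_of_notMem
        rw [mem_nb]
        exact fun h => hyw h.symm
      rw [h3] at h2
      exact (hI.1.deg w hwS).trans h2
  · intro a b hab
    rcases hI.2 a b hab.1 with h | h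
    · exact Or.inl ((hle a).trans h)
    · exact Or.inr ((hle b).trans h)

/-- a cut vertex of the graph without a twin gives a bridge -/
lemma tw_cut {G : SimpleGraph V} {S : Finset V} (hI : InI G S) (hc : ¬ HasCut G S)
    {x y u v : V} (hxy : x ≠ y) (hxS : x ∈ S) (hyS : y ∈ S) (huS : u ∈ S) (hvS : v ∈ S)
    (huv : u ≠ v) (hNx : nb G x = {u, v}) (hNy : nb G y = {u, v})
    (h : HasCut (restr G (S.erase y)) (S.erase y)) :
    HasBridge (restr G (S.erase y)) (S.erase y) := by
  have hax : ∀ w, G.Adj x w ↔ w = u ∨ w = v := by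
    intro w
    rw [← mem_nb, hNx]; simp
  have hay : ∀ w, G.Adj y w ↔ w = u ∨ w = v := by
    intro w
    rw [← mem_nb, hNy]; simp
  have hxu : G.Adj x u := (hax u).2 (Or.inl rfl)
  have hxv : G.Adj x v := (hax v).2 (Or.inr rfl)
  have hyu : G.Adj y u := (hay u).2 (Or.inl rfl)
  have hyv : G.Adj y v := (hay v).2 (Or.inr rfl)
  obtain ⟨z, hz, A, hA, hAne, hAn, hno⟩ := h
  have hzy : z ≠ y := (mem_erase.1 hz).1
  have hzS : z ∈ S := (mem_erase.1 hz).2
  have hAS : ∀ a ∈ A, a ≠ z ∧ a ≠ y ∧ a ∈ S := by
    intro a ha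
    have := hA ha
    simpa [mem_erase] using this
  obtain ⟨b₀, hb₀, hb₀A⟩ : ∃ b ∈ (S.erase y).erase z, b ∉ A := by
    by_contra hcon
    push Not at hcon
    exact hAn (subset_antisymm hA hcon)
  have hb₀' : b₀ ≠ z ∧ b₀ ≠ y ∧ b₀ ∈ S := by simpa [mem_erase] using hb₀
  have hno' : ∀ a ∈ A, ∀ b, b ≠ z → b ≠ y → b ∉ A → ¬ G.Adj a b := by
    intro a ha b hbz hby hbA hab
    have hbS : b ∈ S := hI.1.supp b a hab.symm
    refine hno a ha b ?_ ⟨hab, ?_, ?_⟩
    · rw [mem_sdiff, mem_erase, mem_erase]; exact ⟨⟨hbz, hby, hbS⟩, hbA⟩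
    · rw [mem_erase]; exact (hAS a ha).2
    · rw [mem_erase]; exact ⟨hby, hbS⟩
  -- `y` cannot be added to one of the sides
  have hadd1 : (∀ w, G.Adj y w → w = z ∨ w ∈ A) → False := by
    intro hw
    apply hc
    refine ⟨z, hzS, insert y A, ?_, ⟨y, mem_insert_self _ _⟩, ?_, ?_⟩
    · intro a ha
      rw [mem_insert] at ha
      rw [mem_erase]
      rcases ha with rfl | ha
      · exact ⟨hzy.symm, hyS⟩
      · exact ⟨(hAS a ha).1, (hAS a ha).2.2⟩
    · intro heq
      have : b₀ ∈ insert y A := by
        rw [heq, mem_erase]; exact ⟨hb₀'.1, hb₀'.2.2⟩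
      rw [mem_insert] at this
      exact this.elim hb₀'.2.1 hb₀A
    · intro a ha b hb hab
      rw [mem_sdiff, mem_erase, mem_insert, not_or] at hb
      rw [mem_insert] at ha
      rcases ha with rfl | ha
      · rcases hw b hab with h | h
        · exact hb.1.1 h
        · exact hb.2.2 h
      · exact hno' a ha b hb.1.1 hb.2.1 hb.2.2 hab
  have hadd2 : (∀ w, G.Adj y w → w ∉ A) → False := by
    intro hw
    apply hc
    refine ⟨z, hzS, A, ?_, hAne, ?_, ?_⟩
    · intro a ha
      rw [mem_erase]
      exact ⟨(hAS a ha).1, (hAS a ha).2.2⟩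
    · intro heq
      apply hb₀A
      rw [heq, mem_erase]; exact ⟨hb₀'.1, hb₀'.2.2⟩
    · intro a ha b hb hab
      rw [mem_sdiff, mem_erase] at hb
      by_cases hby : b = y
      · subst hby
        exact hw a hab.symm ha
      · exact hno' a ha b hb.1.1 hby hb.2 hab
  have hzx : z = x := by
    by_contra hzx
    by_cases hxA : x ∈ A
    · apply hadd1
      intro w hw
      by_cases hwz : w = z
      · exact Or.inl hwz
      right
      by_contra hwA
      have hxw : G.Adj x w := by rw [hax, ← hay]; exact hw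
      exact hno' x hxA w hwz hw.ne' hwA hxw
    · apply hadd2
      intro w hw hwA
      have hxw : G.Adj x w := by rw [hax, ← hay]; exact hw
      exact hno' w hwA x (Ne.symm hzx) hxy hxA hxw.symm
  subst hzx
  -- now `z = x` and exactly one of `u`, `v` is in `A`
  have hcr : ∀ a ∈ A, ∀ b ∈ (S.erase y) \ A, G.Adj a b → b = z := by
    intro a ha b hb hab
    rw [mem_sdiff, mem_erase] at hb
    by_contra hbz
    exact hno' a ha b hbz hb.1.1 hb.2 hab
  have hzA : z ∉ A := fun h => (hAS z h).1 rfl
  have hAsub : A ⊆ S.erase y := hA.trans (erase_subset _ _)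
  by_cases huA : u ∈ A
  · by_cases hvA : v ∈ A
    · exfalso
      apply hadd1
      intro w hw
      rcases (hay w).1 hw with rfl | rfl
      · exact Or.inr huA
      · exact Or.inr hvA
    · refine ⟨A, hAsub, u, huA, z, mem_sdiff.2 ⟨hz, hzA⟩, ⟨hxu.symm, hAsub huA, hz⟩, ?_⟩
      intro a ha b hb hab
      have h1 := hcr a ha b hb hab.1
      subst h1
      refine ⟨?_, rfl⟩
      rcases (hax a).1 hab.1.symm with h | h
      · exact h
      · subst h; exact absurd ha hvA
  · by_cases hvA : v ∈ A
    · refine ⟨A, hAsub, v, hvA, z, mem_sdiff.2 ⟨hz, hzA⟩, ⟨hxv.symm, hAsub hvA, hz⟩, ?_⟩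
      intro a ha b hb hab
      have h1 := hcr a ha b hb hab.1
      subst h1
      refine ⟨?_, rfl⟩
      rcases (hax a).1 hab.1.symm with h | h
      · subst h; exact absurd ha huA
      · exact h
    · exfalso
      apply hadd2
      intro w hw
      rcases (hay w).1 hw with rfl | rfl
      · exact huA
      · exact hvA

theorem step_twins (hC : Fintype.card C = 5 * q) {G : SimpleGraph V} {S : Finset V}
    (hI : InI G S) (hb : ¬ HasBridge G S) (hc : ¬ HasCut G S) (ht : Twins G S)
    (ih : IH V q C S.card) : TT q C G S := by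
  have ht' := ht
  obtain ⟨x, hxS, y, hyS, hxy, hx2, hN⟩ := ht
  obtain ⟨u, v, huv, hNx⟩ := card_eq_two.1 hx2
  have hNy : nb G y = {u, v} := by rw [← hN, hNx]
  have hax : ∀ w, G.Adj x w ↔ w = u ∨ w = v := by
    intro w
    rw [← mem_nb, hNx]; simp
  have hay : ∀ w, G.Adj y w ↔ w = u ∨ w = v := by
    intro w
    rw [← mem_nb, hNy]; simp
  have hxu : G.Adj x u := (hax u).2 (Or.inl rfl)
  have hxv : G.Adj x v := (hax v).2 (Or.inr rfl)
  have hyu : G.Adj y u := (hay u).2 (Or.inl rfl)
  have hyv : G.Adj y v := (hay v).2 (Or.inr rfl)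
  have huS : u ∈ S := hI.1.supp u x hxu.symm
  have hvS : v ∈ S := hI.1.supp v x hxv.symm
  have four : S.card = 4 → TT q C G S := by
    intro h4
    right; right
    refine ⟨h4, ht', ?_⟩
    obtain ⟨b, c, d, hnd, hS, hE⟩ := four_cycle_of_card hI h4 hxS
    exact base_C4 hC G S x b c d hnd hS hE
  by_cases hu : (nb G u).card = 2
  · exact four (tw_card_four hc hxy hxS hyS huS hvS huv hNx hNy hu)
  by_cases hv : (nb G v).card = 2
  · have hNx' : nb G x = {v, u} := by rw [hNx, pair_comm]
    have hNy' : nb G y = {v, u} := by rw [hNy, pair_comm]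
    exact four (tw_card_four hc hxy hxS hyS hvS huS huv.symm hNx' hNy' hv)
  have hu3 : 3 ≤ (nb G u).card := by
    have := hI.1.deg u huS; omega
  have hv3 : 3 ≤ (nb G v).card := by
    have := hI.1.deg v hvS; omega
  have hI' : InI (restr G (S.erase y)) (S.erase y) := by
    apply tw_inI hI hc hxS hyS hxy
    intro w hw
    rcases (hay w).1 hw with rfl | rfl
    · exact hu3
    · exact hv3
  have hlt : (S.erase y).card < S.card := card_erase_lt_of_mem hyS
  have hT := ih _ _ hI' hlt
  have hdeg : (nb (restr G (S.erase y)) x).card = 2 := by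
    have : nb (restr G (S.erase y)) x = nb G x := by
      ext w
      rw [mem_nb, mem_nb]
      constructor
      · exact fun h => h.1
      · intro h
        have hwy : w ≠ y := by
          rintro rfl
          exact G.loopless.irrefl w ((hay w).2 ((hax w).1 h))
        exact ⟨h, mem_erase.2 ⟨hxy, hxS⟩, mem_erase.2 ⟨hwy, hI.1.supp w x h.symm⟩⟩
    rw [this, hx2]
  rcases hT with hT | ⟨_, _, _, hT⟩ | ⟨h4, _, _⟩
  · exact Or.inl (tw_copy hxS hxy hN hT)
  · rcases hT with hT | hT
    · exact Or.inl (tw_split hC hxy huv hNx hNy huS hvS hxS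
        (hT x (mem_erase.2 ⟨hxy, hxS⟩) hdeg))
    · have hbr := tw_cut hI hc hxy hxS hyS huS hvS huv hNx hNy hT
      have hg : Good q C (restr G (S.erase y)) (S.erase y) :=
        step_bridge hC hI' hbr (fun G' S' h1 h2 => ih G' S' h1 (h2.trans hlt))
      exact Or.inl (tw_copy hxS hxy hN hg)
  · -- `K_{2,3}`
    obtain ⟨b, c, d, hnd, hS', hE⟩ := four_cycle_of_card hI' h4 (mem_erase.2 ⟨hxy, hxS⟩ : x ∈ _)
    have hS : S = {b, d, x, y, c} := by
      rw [← insert_erase hyS, hS']
      ext w
      simp only [mem_insert, mem_singleton]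
      tauto
    have hadj : ∀ p r, (restr G (S.erase y)).Adj p r ↔ s(p, r) ∈
        ({s(x, b), s(b, c), s(c, d), s(d, x)} : Set (Sym2 V)) := by
      intro p r
      rw [← hE, SimpleGraph.mem_edgeSet]
    have hyS' : y ∉ S.erase y := by simp
    rw [hS'] at hyS'
    simp only [mem_insert, mem_singleton, not_or] at hyS'
    obtain ⟨hyx, hyb, hyc, hyd⟩ := hyS'
    simp only [List.nodup_cons, List.mem_cons, List.not_mem_nil, or_false, not_or,
      not_false_eq_true, List.nodup_nil, and_true] at hnd
    obtain ⟨⟨hxb, hxc, hxd⟩, ⟨hbc, hbd⟩, hcd⟩ := hnd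
    have hxb' : G.Adj x b := ((hadj x b).2 (by simp)).1
    have hxd' : G.Adj x d := ((hadj x d).2 (by simp)).1
    have hyb' : G.Adj y b := by rw [hay, ← hax]; exact hxb'
    have hyd' : G.Adj y d := by rw [hay, ← hax]; exact hxd'
    have hNbd : ∀ w, G.Adj y w ↔ w = b ∨ w = d := by
      intro w
      constructor
      · intro h
        have h1 : G.Adj x w := by rw [hax, ← hay]; exact h
        have h2 := (hadj x w).1 ⟨h1, mem_erase.2 ⟨hxy, hxS⟩,
          mem_erase.2 ⟨h.ne', hI.1.supp w y h.symm⟩⟩
        simp only [Set.mem_insert_iff, Set.mem_singleton_iff, Sym2.eq_iff, true_and, hxb, hxc, hxd,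
          false_and, or_false, false_or] at h2
        exact h2
      · rintro (rfl | rfl)
        · exact hyb'
        · exact hyd'
    have hEG : G.edgeSet = {s(b, x), s(b, y), s(b, c), s(d, x), s(d, y), s(d, c)} := by
      ext e
      induction e with | _ p r =>
      rw [SimpleGraph.mem_edgeSet]
      by_cases hp : p = y
      · subst hp
        rw [hNbd r]
        simp only [Set.mem_insert_iff, Set.mem_singleton_iff, Sym2.eq_iff, hyb, hyc, hyd, hyx,
          false_and, true_and, false_or, or_false]
      · by_cases hr : r = y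
        · subst hr
          rw [G.adj_comm, hNbd p]
          simp only [Set.mem_insert_iff, Set.mem_singleton_iff, Sym2.eq_iff, hyb, hyc, hyd, hyx,
            and_false, and_true, false_or, or_false]
        · have h1 : G.Adj p r ↔ (restr G (S.erase y)).Adj p r := by
            constructor
            · intro h
              exact ⟨h, mem_erase.2 ⟨hp, hI.1.supp p r h⟩, mem_erase.2 ⟨hr, hI.1.supp r p h.symm⟩⟩
            · exact fun h => h.1
          rw [h1, hadj]
          have e1 : s(p, r) ≠ s(b, y) := by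
            intro h; rw [Sym2.eq_iff] at h
            rcases h with h | h
            · exact hr h.2
            · exact hp h.1
          have e2 : s(p, r) ≠ s(d, y) := by
            intro h; rw [Sym2.eq_iff] at h
            rcases h with h | h
            · exact hr h.2
            · exact hp h.1
          have e3 : s(b, x) = s(x, b) := Sym2.eq_swap
          have e4 : s(d, c) = s(c, d) := Sym2.eq_swap
          simp only [Set.mem_insert_iff, Set.mem_singleton_iff, e1, e2, e3, e4, false_or]
          constructor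
          · rintro (h | h | h | h)
            · exact Or.inl h
            · exact Or.inr (Or.inl h)
            · exact Or.inr (Or.inr (Or.inr h))
            · exact Or.inr (Or.inr (Or.inl h))
          · rintro (h | h | h | h)
            · exact Or.inl h
            · exact Or.inr (Or.inl h)
            · exact Or.inr (Or.inr (Or.inr h))
            · exact Or.inr (Or.inr (Or.inl h))
    have hk := base_K23 hC G S b d x y c (by
      simp only [List.nodup_cons, List.mem_cons, List.not_mem_nil, or_false, not_or,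
        not_false_eq_true, List.nodup_nil, and_true]
      refine ⟨⟨hbd, Ne.symm hxb, Ne.symm hyb, hbc⟩, ⟨Ne.symm hxd, Ne.symm hyd, Ne.symm hcd⟩,
        ⟨hxy, hxc⟩, hyc⟩) hS hEG
    right; left
    refine ⟨hk.1, ?_, Or.inl ht', Or.inl hk.2⟩
    have := card_erase_of_mem hyS
    omega

end Pool.Agent.Lib.MP_db02ae_co
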