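import Pool.Agent.Lib.MP_db02ae_co.StepBridge
import Pool.Agent.Lib.MP_db02ae_co.StepCut
import Pool.Agent.Lib.MP_db02ae_co.StepTwins
import Pool.Agent.Lib.MP_db02ae_co.StepRun4
import Pool.Agent.Lib.MP_db02ae_co.StepRun3
import Pool.Agent.Lib.MP_db02ae_co.StepRun2
import Pool.Agent.Lib.MP_db02ae_co.StepKHub
import Pool.Agent.Lib.MP_db02ae_co.StepFinal

open Finset
open scoped Classical

namespace Pool.Agent.Lib.MP_db02ae_co

variable {V : Type} [Fintype V] {C : Type} [Fintype C] {q : ℕ}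

theorem tt_step (hC : Fintype.card C = 5 * q) (hK : KHubProp q C (Fintype.card V))
    (hH : HadProp q C (Fintype.card V)) {G : SimpleGraph V} {S : Finset V} (hI : InI G S)
    (ih : IH V q C S.card) : TT q C G S := by
  by_cases hb : HasBridge G S
  · exact Or.inl (step_bridge hC hI hb ih)
  by_cases hc : HasCut G S
  · exact step_cut hC hI hb hc ih
  by_cases ht : Twins G S
  · exact step_twins hC hI hb hc ht ih
  by_cases h4 : ∃ x₁ x₂ x₃ x₄, Run4 G x₁ x₂ x₃ x₄
  · obtain ⟨x₁, x₂, x₃, x₄, h⟩ := h4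
    exact step_run4 hC hI hc h ih
  push Not at h4
  by_cases h3 : ∃ x y z, Run3 G x y z
  · obtain ⟨x, y, z, h⟩ := h3
    exact Or.inl (step_run3 hC hI hb hc ht h4 h ih)
  push Not at h3
  by_cases htri : ∃ a x y, Ear3 G a x y a
  · obtain ⟨a, x, y, h⟩ := htri
    exact Or.inl (step_tri hC hI hc h)
  push Not at htri
  by_cases h2 : ∃ a x y b, Ear3 G a x y b ∧ ∀ m, G.Adj a m → ¬ G.Adj b m
  · obtain ⟨a, x, y, b, h, hm⟩ := h2
    refine Or.inl (step_run2 hC hI h3 h ?_ hm ih)
    rintro rfl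
    exact htri _ _ _ h
  push Not at h2
  have he : ∀ a x y b, Ear3 G a x y b → a ≠ b ∧ ∃ m, G.Adj a m ∧ G.Adj b m := by
    intro a x y b h
    refine ⟨?_, h2 a x y b h⟩
    rintro rfl
    exact htri _ _ _ h
  by_cases hk : ∃ u, KHub G u
  · obtain ⟨u, hu⟩ := hk
    exact Or.inl (step_khub hC hI hc ht h3 he hu hK ih)
  push Not at hk
  exact Or.inl (step_final hC hI h3 he hk hH)

theorem tt_all (hC : Fintype.card C = 5 * q) (hK : KHubProp q C (Fintype.card V))
    (hH : HadProp q C (Fintype.card V)) (n : ℕ) : IH V q C n := by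
  induction n with
  | zero => intro G S _ h; exact absurd h (Nat.not_lt_zero _)
  | succ n ih =>
    intro G S hI hS
    refine tt_step hC hK hH hI ?_
    intro G' S' hI' hS'
    exact ih G' S' hI' (by omega)

end Pool.Agent.Lib.MP_db02ae_co
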