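import Pool.Agent.Lib.MP_db02ae_co.Defs

open Finset
open scoped Classical

namespace Pool.Agent.Lib.MP_db02ae_co

section sets
variable {C : Type} [Fintype C] {q : ℕ}

/-- choose a superset of size `n` -/
theorem exists_superset_card (A : Finset C) (n : ℕ) (h1 : A.card ≤ n)
    (h2 : n ≤ Fintype.card C) : ∃ B : Finset C, A ⊆ B ∧ B.card = n := by
  obtain ⟨B, h3, h4, h5⟩ := Finset.exists_subsuperset_card_eq (subset_univ A) h1
    (by rwa [card_univ])
  exact ⟨B, h3, h5⟩

omit [Fintype C] in
/-- split `F` into two parts containing given subsets, with bounded sizes -/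
theorem exists_split_cover (F F₁ F₂ : Finset C) (n : ℕ) (h1 : F₁ ⊆ F) (h2 : F₂ ⊆ F)
    (hc1 : F₁.card ≤ n) (hc2 : F₂.card ≤ n) (hF : F.card + (F₁ ∩ F₂).card ≤ 2 * n) :
    ∃ P Q : Finset C, F₁ ⊆ P ∧ F₂ ⊆ Q ∧ P ∪ Q = F ∧ P.card ≤ n ∧ Q.card ≤ n := by
  set R := F \ (F₁ ∪ F₂) with hR
  have hU : (F₁ ∪ F₂) ⊆ F := union_subset h1 h2
  have e1 : R.card = F.card - (F₁ ∪ F₂).card := card_sdiff_of_subset hU
  have e2 : (F₁ ∪ F₂).card + (F₁ ∩ F₂).card = F₁.card + F₂.card := card_union_add_card_inter _ _
  have e3 : (F₁ ∪ F₂).card ≤ F.card := card_le_card hU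
  obtain ⟨R₁, hR1, hR1c⟩ : ∃ R₁ ⊆ R, R₁.card = min R.card (n - F₁.card) :=
    exists_subset_card_eq (min_le_left _ _)
  have hRR : (R \ R₁).card = R.card - R₁.card := card_sdiff_of_subset hR1
  refine ⟨F₁ ∪ R₁, F₂ ∪ (R \ R₁), subset_union_left, subset_union_left, ?_, ?_, ?_⟩
  · ext c
    simp only [mem_union, mem_sdiff]
    constructor
    · rintro ((h | h) | (h | h))
      · exact h1 h
      · exact (mem_sdiff.1 (hR1 h)).1
      · exact h2 h
      · exact (mem_sdiff.1 h.1).1
    · intro h
      by_cases a : c ∈ F₁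
      · exact Or.inl (Or.inl a)
      by_cases b : c ∈ F₂
      · exact Or.inr (Or.inl b)
      by_cases d : c ∈ R₁
      · exact Or.inl (Or.inr d)
      · exact Or.inr (Or.inr ⟨by simp [hR, h, a, b], d⟩)
  · refine (card_union_le _ _).trans ?_
    omega
  · refine (card_union_le _ _).trans ?_
    omega

/-- 3-split: replace a vertex with colour set `W` by a path of four vertices `W, X, Y, W` -/
theorem exists_split3 (hC : Fintype.card C = 5 * q) (W D₁ D₂ : Finset C)
    (hW : W.card = 2 * q) (h₁ : q ≤ (D₁ \ W).card) (h₂ : q ≤ (D₂ \ W).card)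
    (hm : (univ \ (W ∪ D₁ ∪ D₂)).card ≤ q) :
    ∃ X Y : Finset C, X.card = 2 * q ∧ Y.card = 2 * q ∧ W ∪ X ∪ Y = univ ∧
      W ∪ D₁ ∪ X = univ ∧ W ∪ D₂ ∪ Y = univ := by
  have hF : (univ \ W).card = 3 * q := by
    rw [card_sdiff_of_subset (subset_univ _), card_univ]; omega
  have hsub : ∀ D : Finset C, ((univ \ W) \ D).card + (D \ W).card = 3 * q := by
    intro D
    have : (univ \ W) ∩ D = D \ W := by ext c; simp [and_comm]
    rw [← this, ← hF]
    exact card_sdiff_add_card_inter _ _
  have e : ((univ \ W) \ D₁) ∩ ((univ \ W) \ D₂) = univ \ (W ∪ D₁ ∪ D₂) := by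
    ext c; simp; tauto
  obtain ⟨P, Q, hP, hQ, hPQ, hPc, hQc⟩ := exists_split_cover (univ \ W) ((univ \ W) \ D₁)
    ((univ \ W) \ D₂) (2 * q) sdiff_subset sdiff_subset (by have := hsub D₁; omega)
    (by have := hsub D₂; omega) (by rw [e]; omega)
  obtain ⟨X, hX, hXc⟩ := exists_superset_card P (2 * q) hPc (by omega)
  obtain ⟨Y, hY, hYc⟩ := exists_superset_card Q (2 * q) hQc (by omega)
  refine ⟨X, Y, hXc, hYc, ?_, ?_, ?_⟩
  · ext c
    simp only [mem_union, mem_univ, iff_true]
    by_cases hc : c ∈ W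
    · tauto
    · have : c ∈ P ∪ Q := by rw [hPQ]; simp [hc]
      rcases mem_union.1 this with h | h
      · exact Or.inl (Or.inr (hX h))
      · exact Or.inr (hY h)
  · ext c
    simp only [mem_union, mem_univ, iff_true]
    by_cases hc : c ∈ W
    · tauto
    by_cases hd : c ∈ D₁
    · tauto
    exact Or.inr (hX (hP (by simp [hc, hd])))
  · ext c
    simp only [mem_union, mem_univ, iff_true]
    by_cases hc : c ∈ W
    · tauto
    by_cases hd : c ∈ D₂
    · tauto
    exact Or.inr (hY (hQ (by simp [hc, hd])))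

/-- an ear of length 4 can always be coloured, and can cover `M` at its first end -/
theorem exists_ear4 (hC : Fintype.card C = 5 * q) (U W M : Finset C)
    (hU : U.card = 2 * q) (hW : W.card = 2 * q) (hd : Disjoint M U) (hM : M.card ≤ q) :
    ∃ X Y Z : Finset C, X.card = 2 * q ∧ Y.card = 2 * q ∧ Z.card = 2 * q ∧ M ⊆ X ∧
      U ∪ X ∪ Y = univ ∧ X ∪ Y ∪ Z = univ ∧ Y ∪ Z ∪ W = univ := by
  -- enough to find sets of size at most 2q
  suffices h : ∃ X Y Z : Finset C, X.card ≤ 2 * q ∧ Y.card ≤ 2 * q ∧ Z.card ≤ 2 * q ∧ M ⊆ X ∧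
      U ∪ X ∪ Y = univ ∧ X ∪ Y ∪ Z = univ ∧ Y ∪ Z ∪ W = univ by
    obtain ⟨X, Y, Z, hX, hY, hZ, h1, h2, h3, h4⟩ := h
    obtain ⟨X', hX', hX'c⟩ := exists_superset_card X (2 * q) hX (by omega)
    obtain ⟨Y', hY', hY'c⟩ := exists_superset_card Y (2 * q) hY (by omega)
    obtain ⟨Z', hZ', hZ'c⟩ := exists_superset_card Z (2 * q) hZ (by omega)
    refine ⟨X', Y', Z', hX'c, hY'c, hZ'c, h1.trans hX', ?_, ?_, ?_⟩
    · exact univ_subset_iff.1 (h2 ▸ union_subset_union (union_subset_union le_rfl hX') hY')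
    · exact univ_subset_iff.1 (h3 ▸ union_subset_union (union_subset_union hX' hY') hZ')
    · exact univ_subset_iff.1 (h4 ▸ union_subset_union (union_subset_union hY' hZ') le_rfl)
  set s := (U ∩ W).card with hs
  have hUW : (U ∪ W).card + s = 4 * q := by
    have := card_union_add_card_inter U W
    omega
  have hsq : s ≤ 2 * q := by
    have := card_le_card (inter_subset_left : U ∩ W ⊆ U)
    omega
  have hUd : (U \ W).card + s = 2 * q := by
    rw [hs, ← hU]; exact card_sdiff_add_card_inter _ _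
  have hWd : (W \ U).card + s = 2 * q := by
    have := card_sdiff_add_card_inter W U
    rw [inter_comm] at this
    omega
  set R := univ \ (U ∪ W) with hR
  have hRc : R.card = q + s := by
    rw [hR, card_sdiff_of_subset (subset_univ _), card_univ]; omega
  -- sizes of parts avoiding M
  have hcard_sdiff : ∀ A : Finset C, A.card ≤ (A \ M).card + (A ∩ M).card := by
    intro A; have := card_sdiff_add_card_inter A M; omega
  have hMsplit : (R ∩ M).card + ((W \ U) ∩ M).card ≤ q := by
    have hdis : Disjoint (R ∩ M) ((W \ U) ∩ M) := by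
      rw [disjoint_left]
      intro c h1 h2
      simp [hR] at h1 h2
      tauto
    rw [← card_union_of_disjoint hdis]
    refine (card_le_card ?_).trans hM
    intro c hc
    simp at hc
    tauto
  obtain ⟨YR, hYR, hYRc⟩ : ∃ YR ⊆ R \ M, YR.card = s :=
    exists_subset_card_eq (by have := hcard_sdiff R; omega)
  have hYR' : ∀ c ∈ YR, c ∉ U ∧ c ∉ W ∧ c ∉ M := by
    intro c hc
    have := hYR hc
    simp [hR] at this
    tauto
  rcases le_or_gt s q with hle | hgt
  · obtain ⟨Y1, hY1, hY1c⟩ : ∃ Y1 ⊆ U \ W, Y1.card = q := exists_subset_card_eq (by omega)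
    obtain ⟨Y2, hY2, hY2c⟩ : ∃ Y2 ⊆ (W \ U) \ M, Y2.card = q - s :=
      exists_subset_card_eq (by have := hcard_sdiff (W \ U); omega)
    have hY1' : ∀ c ∈ Y1, c ∈ U ∧ c ∉ W := by
      intro c hc
      have := hY1 hc
      simp at this
      tauto
    have hY2' : ∀ c ∈ Y2, c ∉ U ∧ c ∈ W ∧ c ∉ M := by
      intro c hc
      have := hY2 hc
      simp at this
      tauto
    have hdR1 : Disjoint YR Y1 := by
      rw [disjoint_left]; intro c h1 h2; exact (hYR' c h1).1 (hY1' c h2).1
    have hdR2 : Disjoint YR Y2 := by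
      rw [disjoint_left]; intro c h1 h2; exact (hYR' c h1).2.1 (hY2' c h2).2.1
    have hd12 : Disjoint Y1 Y2 := by
      rw [disjoint_left]; intro c h1 h2; exact (hY1' c h1).2 (hY2' c h2).2.1
    set Y := YR ∪ Y1 ∪ Y2 with hY
    have hYc : Y.card = 2 * q := by
      rw [hY, card_union_of_disjoint (by rw [disjoint_union_left]; exact ⟨hdR2, hd12⟩),
        card_union_of_disjoint hdR1]
      omega
    -- X
    have hXc : (univ \ (U ∪ Y)).card = 2 * q := by
      have e : U ∪ Y = U ∪ (YR ∪ Y2) := by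
        ext c
        simp only [hY, mem_union]
        constructor
        · rintro (h | (h | h) | h)
          · exact Or.inl h
          · exact Or.inr (Or.inl h)
          · exact Or.inl (hY1' c h).1
          · exact Or.inr (Or.inr h)
        · rintro (h | h | h) <;> tauto
      have hd' : Disjoint U (YR ∪ Y2) := by
        rw [disjoint_left]
        intro c h1 h2
        rcases mem_union.1 h2 with h | h
        · exact (hYR' c h).1 h1
        · exact (hY2' c h).1 h1
      rw [card_sdiff_of_subset (subset_univ _), card_univ, e, card_union_of_disjoint hd',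
        card_union_of_disjoint hdR2]
      omega
    refine ⟨univ \ (U ∪ Y), Y, (univ \ (W ∪ Y)) ∪ (U \ Y), hXc.le, hYc.le, ?_, ?_, ?_, ?_, ?_⟩
    · -- Z size: C \ (W ∪ Y) has size 2q - s, plus U ∩ W
      have e1 : (univ \ (W ∪ Y)) ∪ (U \ Y) = (univ \ (W ∪ Y)) ∪ (U ∩ W) := by
        ext c
        simp only [mem_union, mem_sdiff, mem_univ, true_and, mem_inter]
        constructor
        · rintro (h | h)
          · exact Or.inl h
          · by_cases hw : c ∈ W
            · exact Or.inr ⟨h.1, hw⟩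
            · left; tauto
        · rintro (h | h)
          · exact Or.inl h
          · right
            refine ⟨h.1, fun hy => ?_⟩
            rw [hY] at hy
            simp only [mem_union] at hy
            rcases hy with (hy | hy) | hy
            · exact (hYR' c hy).1 h.1
            · exact (hY1' c hy).2 h.2
            · exact (hY2' c hy).1 h.1
      have e2 : W ∪ Y = W ∪ (YR ∪ Y1) := by
        ext c
        simp only [hY, mem_union]
        constructor
        · rintro (h | (h | h) | h)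
          · exact Or.inl h
          · exact Or.inr (Or.inl h)
          · exact Or.inr (Or.inr h)
          · exact Or.inl (hY2' c h).2.1
        · rintro (h | h | h) <;> tauto
      have hd' : Disjoint W (YR ∪ Y1) := by
        rw [disjoint_left]
        intro c h1 h2
        rcases mem_union.1 h2 with h | h
        · exact (hYR' c h).2.1 h1
        · exact (hY1' c h).2 h1
      have hc : (univ \ (W ∪ Y)).card = 2 * q - s := by
        rw [card_sdiff_of_subset (subset_univ _), card_univ, e2, card_union_of_disjoint hd',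
          card_union_of_disjoint hdR1]
        omega
      rw [e1]
      refine (card_union_le _ _).trans ?_
      omega
    · intro c hc
      simp only [mem_sdiff, mem_univ, true_and, mem_union, not_or]
      refine ⟨disjoint_left.1 hd hc, fun hy => ?_⟩
      rw [hY] at hy
      simp only [mem_union] at hy
      rcases hy with (hy | hy) | hy
      · exact (hYR' c hy).2.2 hc
      · exact disjoint_left.1 hd hc (hY1' c hy).1
      · exact (hY2' c hy).2.2 hc
    · ext c; simp; tauto
    · ext c; simp; tauto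
    · ext c; simp; tauto
  · set Y := YR ∪ (U \ W) with hY
    have hdY : Disjoint YR (U \ W) := by
      rw [disjoint_left]; intro c h1 h2; exact (hYR' c h1).1 (mem_sdiff.1 h2).1
    have hYc : Y.card = 2 * q := by
      rw [hY, card_union_of_disjoint hdY]; omega
    obtain ⟨P1, hP1, hP1c⟩ : ∃ P1 ⊆ U ∩ W, P1.card = s - q :=
      exists_subset_card_eq (by omega)
    have hP2c : ((U ∩ W) \ P1).card = q := by
      rw [card_sdiff_of_subset hP1]; omega
    have hXc : (univ \ (U ∪ Y)).card = 3 * q - s := by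
      have e : U ∪ Y = U ∪ YR := by
        ext c; simp only [hY, mem_union, mem_sdiff]; tauto
      have hd' : Disjoint U YR := by
        rw [disjoint_left]; intro c h1 h2; exact (hYR' c h2).1 h1
      rw [card_sdiff_of_subset (subset_univ _), card_univ, e, card_union_of_disjoint hd']
      omega
    have hZc : (univ \ (W ∪ Y)).card = q := by
      have hd' : Disjoint W Y := by
        rw [disjoint_left]
        intro c h1 h2
        rcases mem_union.1 h2 with h | h
        · exact (hYR' c h).2.1 h1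
        · exact (mem_sdiff.1 h).2 h1
      rw [card_sdiff_of_subset (subset_univ _), card_univ, card_union_of_disjoint hd']
      omega
    have hP1' : ∀ c ∈ P1, c ∈ U ∧ c ∈ W := fun c hc => mem_inter.1 (hP1 hc)
    refine ⟨(univ \ (U ∪ Y)) ∪ P1, Y, (univ \ (W ∪ Y)) ∪ ((U ∩ W) \ P1), ?_, hYc.le, ?_, ?_, ?_,
      ?_, ?_⟩
    · refine (card_union_le _ _).trans ?_; omega
    · refine (card_union_le _ _).trans ?_; omega
    · intro c hc
      refine mem_union_left _ ?_
      simp only [mem_sdiff, mem_univ, true_and, mem_union, not_or]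
      refine ⟨disjoint_left.1 hd hc, fun hy => ?_⟩
      rcases mem_union.1 hy with hy | hy
      · exact (hYR' c hy).2.2 hc
      · exact disjoint_left.1 hd hc (mem_sdiff.1 hy).1
    · ext c; simp; tauto
    · ext c
      simp only [hY, mem_union, mem_sdiff, mem_univ, true_and, mem_inter, iff_true]
      tauto
    · ext c; simp; tauto

/-- a permutation with prescribed images of two disjoint sets -/
theorem exists_perm_two (P₁ P₂ Q₁ Q₂ : Finset C) (hP : Disjoint P₁ P₂) (hQ : Disjoint Q₁ Q₂)
    (h1 : P₁.card = Q₁.card) (h2 : P₂.card = Q₂.card) :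
    ∃ π : Equiv.Perm C, P₁.map π.toEmbedding = Q₁ ∧ P₂.map π.toEmbedding = Q₂ := by
  let e₁ : P₁ ≃ Q₁ := Finset.equivOfCardEq h1
  let e₂ : P₂ ≃ Q₂ := Finset.equivOfCardEq h2
  let f : C → C := fun c => if h : c ∈ P₁ then (e₁ ⟨c, h⟩ : C) else
    if h : c ∈ P₂ then (e₂ ⟨c, h⟩ : C) else c
  have f1 : ∀ c (h : c ∈ P₁), f c = (e₁ ⟨c, h⟩ : C) := by
    intro c h; simp [f, h]
  have f2 : ∀ c (h : c ∈ P₂), f c = (e₂ ⟨c, h⟩ : C) := by
    intro c h
    have : c ∉ P₁ := fun h' => disjoint_left.1 hP h' h
    simp [f, h, this]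
  have hinj : Set.InjOn f (P₁ ∪ P₂ : Finset C) := by
    intro a ha b hb hab
    simp only [coe_union, Set.mem_union, mem_coe] at ha hb
    rcases ha with ha | ha <;> rcases hb with hb | hb
    · rw [f1 a ha, f1 b hb] at hab
      have := e₁.injective (Subtype.ext hab)
      simpa using this
    · rw [f1 a ha, f2 b hb] at hab
      exact absurd (hab ▸ (e₁ ⟨a, ha⟩).2) (disjoint_right.1 hQ (e₂ ⟨b, hb⟩).2)
    · rw [f2 a ha, f1 b hb] at hab
      exact absurd (hab ▸ (e₂ ⟨a, ha⟩).2) (disjoint_left.1 hQ (e₁ ⟨b, hb⟩).2)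
    · rw [f2 a ha, f2 b hb] at hab
      have := e₂.injective (Subtype.ext hab)
      simpa using this
  obtain ⟨g, hg⟩ := Finset.exists_equiv_extend_of_card_eq (α := C) (t := (univ : Finset C))
    (by simp) (s := P₁ ∪ P₂) (f := f) (subset_univ _) hinj
  let π : Equiv.Perm C := g.trans (Equiv.subtypeUnivEquiv (fun x => mem_univ x))
  have hπ : ∀ c ∈ P₁ ∪ P₂, π c = f c := by
    intro c hc
    exact hg c hc
  refine ⟨π, ?_, ?_⟩
  · refine eq_of_subset_of_card_le ?_ (by rw [card_map]; exact h1.ge)
    intro c hc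
    obtain ⟨b, hb, rfl⟩ := mem_map.1 hc
    show π b ∈ Q₁
    rw [hπ b (mem_union_left _ hb), f1 b hb]
    exact (e₁ ⟨b, hb⟩).2
  · refine eq_of_subset_of_card_le ?_ (by rw [card_map]; exact h2.ge)
    intro c hc
    obtain ⟨b, hb, rfl⟩ := mem_map.1 hc
    show π b ∈ Q₂
    rw [hπ b (mem_union_right _ hb), f2 b hb]
    exact (e₂ ⟨b, hb⟩).2

theorem exists_perm_bridge (A B M N : Finset C)
    (hA : A.card = 2 * q) (hB : B.card = 2 * q) (hMA : Disjoint M A) (hNB : Disjoint N B)
    (hM : M.card ≤ 2 * q) (hN : N.card ≤ 2 * q) :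
    ∃ π : Equiv.Perm C, M ⊆ B.map π.toEmbedding ∧ N.map π.toEmbedding ⊆ A := by
  obtain ⟨B', hB', hB'c⟩ : ∃ B' ⊆ B, B'.card = M.card := exists_subset_card_eq (by omega)
  obtain ⟨A', hA', hA'c⟩ : ∃ A' ⊆ A, A'.card = N.card := exists_subset_card_eq (by omega)
  obtain ⟨π, h1, h2⟩ := exists_perm_two B' N M A' (disjoint_of_subset_left hB' hNB.symm)
    (disjoint_of_subset_right hA' hMA) hB'c hA'c.symm
  exact ⟨π, h1 ▸ map_subset_map.2 hB', h2 ▸ hA'⟩

theorem exists_perm_glue (A B M N : Finset C) (hAB : A.card = B.card)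
    (hMA : Disjoint M A) (hNB : Disjoint N B)
    (h : M.card + N.card + A.card ≤ Fintype.card C) :
    ∃ π : Equiv.Perm C, B.map π.toEmbedding = A ∧ Disjoint (N.map π.toEmbedding) M := by
  obtain ⟨N', hN', hN'c⟩ : ∃ N' ⊆ univ \ (A ∪ M), N'.card = N.card := by
    apply exists_subset_card_eq
    rw [card_sdiff_of_subset (subset_univ _), card_univ,
      card_union_of_disjoint hMA.symm]
    omega
  have hN'' : ∀ c ∈ N', c ∉ A ∧ c ∉ M := by
    intro c hc
    have := hN' hc
    simpa using this
  obtain ⟨π, h1, h2⟩ := exists_perm_two B N A N' hNB.symm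
    (disjoint_left.2 fun c h1 h2 => (hN'' c h2).1 h1) hAB.symm hN'c.symm
  exact ⟨π, h1, h2 ▸ disjoint_left.2 fun c h1 h2 => (hN'' c h1).2 h2⟩

theorem inter_le_of_cover (hC : Fintype.card C = 5 * q) (A B D : Finset C)
    (hA : A.card = 2 * q) (hB : B.card = 2 * q) (hD : D.card = 2 * q)
    (h : A ∪ B ∪ D = univ) : (A ∩ B).card ≤ q := by
  have h1 : (univ : Finset C).card ≤ (A ∪ B).card + D.card := by
    rw [← h]; exact card_union_le _ _
  rw [card_univ] at h1
  have h2 := card_union_add_card_inter A B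
  omega

end sets

section cols
variable {V : Type} [Fintype V] {C : Type} [Fintype C] {q : ℕ}

omit [Fintype V] [Fintype C] in
theorem isCol_perm {φ : V → Finset C} (h : IsCol q φ) (π : Equiv.Perm C) :
    IsCol q (fun v => (φ v).map π.toEmbedding) := by
  intro v
  simp only [card_map]
  exact h v

theorem miss_perm (G : SimpleGraph V) (φ : V → Finset C) (π : Equiv.Perm C) (v : V) :
    miss G (fun v => (φ v).map π.toEmbedding) v = (miss G φ v).map π.toEmbedding := by
  ext c
  simp only [mem_map_equiv, mem_miss]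

/-- if `x` has exactly two neighbours and is dominated, its colour set and those of its
neighbours cover everything -/
theorem cover_of_deg2 {G : SimpleGraph V} {φ : V → Finset C} {x a b : V}
    (hx : nb G x = {a, b}) (hd : miss G φ x = ∅) : φ x ∪ φ a ∪ φ b = univ := by
  ext c
  simp only [mem_union, mem_univ, iff_true]
  by_contra hc
  push Not at hc
  have : c ∈ miss G φ x := by
    rw [mem_miss]
    refine ⟨hc.1.1, fun w hw => ?_⟩
    rw [← mem_nb, hx] at hw
    simp only [mem_insert, mem_singleton] at hw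
    rcases hw with rfl | rfl
    · exact hc.1.2
    · exact hc.2
  rw [hd] at this
  simp at this

/-- a dominated vertex of degree 2 shares at most `q` colours with each neighbour -/
theorem inter_le_of_deg2 (hC : Fintype.card C = 5 * q) {G : SimpleGraph V} {φ : V → Finset C}
    (h : IsCol q φ) {x a : V} (hx : (nb G x).card = 2) (hd : miss G φ x = ∅)
    (ha : G.Adj x a) : (φ x ∩ φ a).card ≤ q := by
  obtain ⟨b, c, hbc, hx'⟩ := card_eq_two.1 hx
  have ha' : a ∈ nb G x := mem_nb.2 ha
  rw [hx'] at ha'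
  simp only [mem_insert, mem_singleton] at ha'
  rcases ha' with rfl | rfl
  · exact inter_le_of_cover hC _ _ _ (h _) (h _) (h _) (cover_of_deg2 hx' hd)
  · rw [pair_comm] at hx'
    exact inter_le_of_cover hC _ _ _ (h _) (h _) (h _) (cover_of_deg2 hx' hd)

/-- in every case of `TT` each vertex is the root of a colouring missing at most `2q` colours -/
theorem TT.rootAt {G : SimpleGraph V} {S : Finset V} (h : TT q C G S) {r : V} (hr : r ∈ S) :
    RootAt q (2 * q) C G S r := by
  rcases h with ⟨φ, h1, h2⟩ | h | h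
  · exact ⟨φ, h1, fun v hv _ => h2 v hv, by rw [h2 r hr]; simp⟩
  · obtain ⟨φ, h1, h2, h3, h4⟩ := h.1 r hr
    exact ⟨φ, h1, h2, by omega⟩
  · exact h.2.2 r hr

end cols

end Pool.Agent.Lib.MP_db02ae_co
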